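import Pool.Agent.MP_8d06cc_nt.R4.Defs

/-! The cross ratio in two charts, and dependence of two points. -/

namespace Pool.Agent.MP_8d06cc_nt.R4

namespace CRx

variable {L : Type} [Field L]

theorem r_eq (V : VF L) {x y : L} (hx : x ∈ V.O) (hy : y ∈ V.O) :
    V.r x = V.r y ↔ V.O.valuation (x - y) < 1 := by
  rw [VF.r, VF.r, dif_pos hx, dif_pos hy, ← sub_eq_zero, ← map_sub]
  exact V.ker _

theorem r_ne (V : VF L) {x y : L} (hx : x ∈ V.O) (hy : y ∈ V.O) (h : V.r x ≠ V.r y) :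
    V.O.valuation (x - y) = 1 :=
  le_antisymm ((V.O.valuation_le_one_iff _).2 (sub_mem hx hy))
    (not_lt.1 fun e => h ((r_eq V hx hy).2 e))

theorem den_ne {α β γ δ X x : L} (h : α * δ - β * γ ≠ 0) (e : X * (γ * x + δ) = α * x + β) :
    γ * x + δ ≠ 0 := fun e0 => h (by
  rw [e0, mul_zero] at e
  linear_combination α * e0 + γ * e)

theorem mob {α β γ δ X Y x y : L} (e : X * (γ * x + δ) = α * x + β)
    (e' : Y * (γ * y + δ) = α * y + β) :
    (X - Y) * ((γ * x + δ) * (γ * y + δ)) = (α * δ - β * γ) * (x - y) := by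
  linear_combination (γ * y + δ) * e - (γ * x + δ) * e'

theorem crs {α β γ δ P P' Q A p p' q a : L} (h : α * δ - β * γ ≠ 0)
    (e1 : P * (γ * p + δ) = α * p + β) (e2 : P' * (γ * p' + δ) = α * p' + β)
    (e3 : Q * (γ * q + δ) = α * q + β) (e4 : A * (γ * a + δ) = α * a + β) :
    ∃ t, t ≠ 0 ∧ (p' - p) * (a - q) = t * ((P' - P) * (A - Q)) ∧
      (p' - q) * (a - p) = t * ((P' - Q) * (A - P)) := by
  refine ⟨(γ * p + δ) * (γ * p' + δ) * (γ * q + δ) * (γ * a + δ) / (α * δ - β * γ) ^ 2,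
    div_ne_zero (mul_ne_zero (mul_ne_zero (mul_ne_zero (den_ne h e1) (den_ne h e2)) (den_ne h e3))
      (den_ne h e4)) (pow_ne_zero _ h), ?_, ?_⟩
  · rw [div_mul_eq_mul_div, eq_div_iff (pow_ne_zero _ h)]
    linear_combination -((α * δ - β * γ) * (a - q)) * mob e2 e1 -
      (P' - P) * ((γ * p' + δ) * (γ * p + δ)) * mob e4 e3
  · rw [div_mul_eq_mul_div, eq_div_iff (pow_ne_zero _ h)]
    linear_combination -((α * δ - β * γ) * (a - p)) * mob e2 e3 -
      (P' - Q) * ((γ * p' + δ) * (γ * q + δ)) * mob e4 e1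

theorem prod_single (g : Fin 4 → L) (k : Fin 4) :
    ∏ j, g j ^ (Pi.single k 1 : Fin 4 → ℤ) j = g k := by
  rw [Finset.prod_eq_single k (fun j _ h => by simp [h]) (by simp)]
  simp

end CRx

open CRx

theorem cr : S_CR := by
  rintro L _ V b c c' ⟨hc, α, β, γ, δ, T⟩ ⟨hc', α', β', γ', δ', T'⟩ i i' j k h1 h2 h3 h4
  obtain ⟨t, t0, a1, a2⟩ := crs T.det (T.he i) (T.he i') (T.he j) (T.ha k)
  obtain ⟨t', t0', a1', a2'⟩ := crs T'.det (T'.he i) (T'.he i') (T'.he j) (T'.ha k)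
  have v1 := (r_eq V (hc'.eO i') (hc'.eO i)).1 h1.symm
  have v2 := r_ne V (hc'.eO i') (hc'.eO j) h2
  have v3 := r_ne V (hc'.aO k) (hc'.eO i) h3
  have v4 := r_ne V (hc.aO k) (hc.eO j) h4
  have v5 := (V.O.valuation_le_one_iff _).2 (sub_mem (hc'.aO k) (hc'.eO j))
  have v6 := (V.O.valuation_le_one_iff _).2 (sub_mem (hc.eO i') (hc.eO j))
  have d1 : (c'.e i' - c'.e j) * ((c'.P k).a - c'.e i) ≠ 0 := fun e => by
    have := congrArg V.O.valuation e
    rw [map_mul, v2, v3, map_zero, one_mul] at this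
    exact one_ne_zero this
  have d2 : (c.P k).a - c.e i ≠ 0 :=
    right_ne_zero_of_mul (a2 ▸ mul_ne_zero t0 (right_ne_zero_of_mul (a2' ▸ d1)))
  have key : (c.e i' - c.e i) * ((c.P k).a - c.e j) * ((c'.e i' - c'.e j) * ((c'.P k).a - c'.e i)) =
      (c.e i' - c.e j) * ((c.P k).a - c.e i) * ((c'.e i' - c'.e i) * ((c'.P k).a - c'.e j)) := by
    rw [a1, a2, a1', a2']
    ring
  have k2 := congrArg V.O.valuation key
  simp only [map_mul, v2, v3, v4, mul_one] at k2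
  have p0 := zero_lt_iff.2 ((Valuation.ne_zero_iff V.O.valuation).2 d2)
  rw [near, k2]
  calc _ ≤ V.O.valuation ((c.P k).a - c.e i) * V.O.valuation (c'.e i' - c'.e i) :=
        mul_le_mul' (mul_le_of_le_one_left' v6) (mul_le_of_le_one_right' v5)
    _ < _ := mul_lt_of_lt_one_right p0 v1

theorem g2 : S_G2 := by
  rintro hM L _ _ _ V c hc k m hkm ⟨n, n1, n2, n3, hn⟩ hk hm
  classical
  refine hk (hM L V c hc _ ⟨{ar V c k, ar V c m}, fun x hx hS y hy => ?_⟩)
  rw [Finset.mem_insert, Finset.mem_singleton, not_or] at hS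
  have v1 := r_ne V hx (hc.aO k) hS.1
  have v2 := r_ne V hx (hc.aO m) hS.2
  have a1 := hm x (fun j hj => by
    obtain rfl : j = m := by_contra fun e => hj (by simp [e])
    exact v2.ge) y hy
  have a2 := hn x (fun j hj => by
    by_cases e : j = k
    · exact e ▸ v1.ge
    · obtain rfl : j = m := by_contra fun e' => hj (n3 j e e')
      exact v2.ge) y hy
  rw [prod_single] at a1 ⊢
  rw [Finset.prod_eq_mul k m hkm (fun j _ h => by rw [n3 j h.1 h.2, zpow_zero]) (by simp) (by simp),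
    map_mul, map_zpow₀, map_zpow₀, a1, one_zpow, mul_one] at a2
  by_contra e
  exact n1 ((zpow_eq_one_iff_right₀ zero_le e).1 a2)

end Pool.Agent.MP_8d06cc_nt.R4
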