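import Pool.Agent.MP_8d06cc_nt.R4.Defs

/-! Comparison of two charts. -/

namespace Pool.Agent.MP_8d06cc_nt.R4

open Polynomial Pool.Agent.MP_8d06cc_nt.DA

namespace F6x

variable {L : Type} [Field L] {V : VF L} {b c c' : Dat L} {α β γ δ α' β' γ' δ' : L}

theorem r_coe (x : V.O) : V.r x = V.π x := dif_pos x.2

theorem far {x a : L} (ha : a ∈ V.O) (h : x ∈ V.O → V.r x ≠ V.r a) :
    1 ≤ V.O.valuation (x - a) := by
  by_contra hn
  have hx : x ∈ V.O := by
    simpa using add_mem ((V.O.valuation_le_one_iff _).1 (not_le.1 hn).le) ha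
  lift x to V.O using hx
  lift a to V.O using ha
  refine h x.2 ?_
  rw [r_coe, r_coe, ← sub_eq_zero, ← map_sub]
  exact (V.ker _).2 (not_le.1 hn)

theorem cx {p q r s : ℂ} (h : p ≠ 0 ∨ q ≠ 0 ∨ r ≠ 0 ∨ s ≠ 0) :
    (∀ x x' y y', x * (r * x' + s) = p * x' + q → y * (r * y' + s) = p * y' + q →
      (x = y ↔ x' = y')) ∨ ∃ D D', ∀ x x', x * (r * x' + s) = p * x' + q → x = D ∨ x' = D' := by
  by_cases hd : p * s - q * r = 0
  · right
    by_cases hr : r = 0
    · subst hr
      by_cases hs : s = 0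
      · refine ⟨0, -q / p, fun x x' e => .inr ?_⟩
        have hp : p ≠ 0 := fun z => by simp_all
        rw [eq_div_iff hp]
        linear_combination x * hs - e
      · refine ⟨q / s, 0, fun x x' e => .inl ?_⟩
        rw [eq_div_iff hs]
        exact mul_left_cancel₀ hs (by linear_combination s * e + x' * hd)
    · refine ⟨p / r, -s / r, fun x x' e => ?_⟩
      rw [eq_div_iff hr, eq_div_iff hr, ← sub_eq_zero, ← sub_eq_zero (a := x' * r), ← mul_eq_zero]
      linear_combination r * e - hd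
  · refine .inl fun x x' y y' e e' => ⟨fun k => mul_left_cancel₀ hd ?_, fun k => ?_⟩
    · subst k
      linear_combination (r * x' + s) * e' - (r * y' + s) * e
    · subst k
      refine mul_right_cancel₀ (b := r * x' + s) (fun z => hd ?_) (e.trans e'.symm)
      linear_combination (p - r * x) * z + r * e

theorem core (V : VF L) {p q r s : L} (hd : p * s - q * r ≠ 0) :
    (∀ x ∈ V.O, ∀ x' ∈ V.O, ∀ y ∈ V.O, ∀ y' ∈ V.O, x * (r * x' + s) = p * x' + q →
      y * (r * y' + s) = p * y' + q → (V.r x = V.r y ↔ V.r x' = V.r y')) ∨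
    ∃ D D', ∀ x ∈ V.O, ∀ x' ∈ V.O, x * (r * x' + s) = p * x' + q → V.r x = D ∨ V.r x' = D' := by
  classical
  obtain ⟨m, hm, h⟩ := Finset.exists_max_image [p, q, r, s].toFinset V.O.valuation ⟨p, by simp⟩
  simp only [List.mem_toFinset, List.mem_cons, List.not_mem_nil, or_false, forall_eq_or_imp,
    forall_eq] at hm h
  have m0 : m ≠ 0 := by
    rintro rfl
    simp only [map_zero, le_zero_iff, map_eq_zero] at h
    simp [h.1, h.2.1] at hd
  have o : ∀ {t : L}, V.O.valuation t ≤ V.O.valuation m → t / m ∈ V.O := fun k =>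
    (V.O.valuation_le_one_iff _).1 (by rw [map_div₀]; exact div_le_one_of_le₀ k zero_le)
  have u : V.r (m / m) ≠ 0 := by
    rw [div_self m0, show V.r 1 = V.π 1 from r_coe 1, map_one]; exact one_ne_zero
  have e : ∀ x ∈ V.O, ∀ x' ∈ V.O, x * (r * x' + s) = p * x' + q →
      V.r x * (V.r (r / m) * V.r x' + V.r (s / m)) = V.r (p / m) * V.r x' + V.r (q / m) := by
    intro x hx x' hx' k
    have := congrArg V.π (show (⟨x, hx⟩ * (⟨_, o h.2.2.1⟩ * ⟨x', hx'⟩ + ⟨_, o h.2.2.2⟩) : V.O) =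
      ⟨_, o h.1⟩ * ⟨x', hx'⟩ + ⟨_, o h.2.1⟩ from Subtype.ext (by
        show x * (r / m * x' + s / m) = p / m * x' + q / m
        linear_combination m⁻¹ * k))
    simpa only [map_add, map_mul, ← r_coe] using this
  refine (cx (hm.imp (· ▸ u) (Or.imp (· ▸ u) (Or.imp (· ▸ u) (· ▸ u))))).imp
    (fun k x hx x' hx' y hy y' hy' e1 e2 => k _ _ _ _ (e x hx x' hx' e1) (e y hy y' hy' e2)) ?_
  rintro ⟨D, D', k⟩
  exact ⟨D, D', fun x hx x' hx' e1 => k _ _ (e x hx x' hx' e1)⟩

theorem pole {p q r s x : L} (hd : p * s - q * r ≠ 0) (h : x ≠ -s / r) : r * x + s ≠ 0 := fun z => by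
  have hr : r ≠ 0 := fun k => hd (by linear_combination p * z - (p * x + q) * k)
  exact h (by rw [eq_div_iff hr]; linear_combination z)

theorem dir [IsAlgClosed L] [CharZero L] (M : S_MAX) (i : Int V c) (i' : Int V c')
    (t : Tr b c α β γ δ) (t' : Tr b c' α' β' γ' δ') {D D' : ℂ}
    (h : ∀ x ∈ V.O, ∀ x' ∈ V.O, (α * x + β) * (γ' * x' + δ') = (α' * x' + β') * (γ * x + δ) →
      V.r x = D ∨ V.r x' = D') (n : Fin 4 → ℤ) (hn : ∀ k, n k ≠ 0 → ar V c k ≠ D)
    (hz : LZ V c n) : LZ V c' n := by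
  classical
  refine M L V c' i' n ⟨{D', V.r (-δ' / γ'), V.r (-(α * δ' - γ * β') / (α * γ' - γ * α'))},
    fun x' hx' hS y' hy' => ?_⟩
  simp only [Finset.mem_insert, Finset.mem_singleton, not_or] at hS
  have w1 := pole t'.det fun z => hS.2.1 (congrArg _ z)
  have w2 := pole (p := δ * α' - β * γ') (q := δ * β' - β * δ') (fun z =>
    mul_ne_zero t.det t'.det (by linear_combination z)) fun z => hS.2.2 (congrArg _ z)
  have e1 := div_mul_cancel₀ (α' * x' + β') w1
  have e2 := div_mul_cancel₀ ((δ * α' - β * γ') * x' + (δ * β' - β * δ')) w2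
  generalize (_ / _ : L) = x₀ at e1
  generalize (_ / _ : L) = x at e2
  obtain ⟨y₀, a1, a2⟩ := t'.hp x₀ x' e1 y' hy'
  obtain ⟨y, hy⟩ := IsAlgClosed.exists_pow_nat_eq (c.f.eval x) two_pos
  obtain ⟨y₁, b1, b2⟩ := t.hp x₀ x (mul_right_cancel₀ w1 (by
    linear_combination (γ * x + δ) * e1 - e2)) y hy
  have k := hz x (fun k hk => far (i.aO k) fun hx z => hn k hk (z.symm.trans
    ((h x hx x' hx' (by linear_combination e2)).resolve_right hS.1))) y hy
  simp only [a2, b2] at k ⊢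
  rcases sq_eq_sq_iff_eq_or_eq_neg.1 (a1.trans b1.symm) with rfl | rfl
  · exact k
  · have : ∀ k, psi (b.P k) x₀ (-y₁) = (psi (b.P k) x₀ y₁)⁻¹ := fun k => by
      rw [psi, psi, inv_div, mul_neg, sub_neg_eq_add, sub_eq_add_neg]
    simp only [this, inv_zpow, Finset.prod_inv_distrib, map_inv₀, k, inv_one]

end F6x

open F6x

theorem f6 : S_F6 := by
  rintro M L _ _ _ V b c c' ⟨i, α, β, γ, δ, t⟩ ⟨i', α', β', γ', δ', t'⟩
  have k : ∀ {x₀ x x' : L}, x₀ * (γ * x + δ) = α * x + β → x₀ * (γ' * x' + δ') = α' * x' + β' →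
      x * ((α * γ' - γ * α') * x' + (α * δ' - γ * β')) =
        (δ * α' - β * γ') * x' + (δ * β' - β * δ') := fun {x₀ x x'} a a' => by
    linear_combination (γ * x + δ) * a' - (γ' * x' + δ') * a
  have he := fun j => k (t.he j) (t'.he j)
  have ha := fun j => k (t.ha j) (t'.ha j)
  refine (core V (p := δ * α' - β * γ') (q := δ * β' - β * δ') (r := α * γ' - γ * α')
    (s := α * δ' - γ * β') fun z => mul_ne_zero t.det t'.det (by linear_combination z)).imp
    (fun h => ⟨fun j l => h _ (i.eO j) _ (i'.eO j) _ (i.eO l) _ (i'.eO l) (he j) (he l),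
      fun j l => h _ (i.eO j) _ (i'.eO j) _ (i.aO l) _ (i'.aO l) (he j) (ha l)⟩) ?_
  rintro ⟨D, D', h⟩
  exact ⟨D, D', fun j => h _ (i.eO j) _ (i'.eO j) (he j), fun j => h _ (i.aO j) _ (i'.aO j) (ha j),
    dir M i i' t t' fun x hx x' hx' e => h x hx x' hx' (by linear_combination e),
    dir M i' i t' t fun x hx x' hx' e => (h x' hx' x hx (by linear_combination -e)).symm⟩

end Pool.Agent.MP_8d06cc_nt.R4
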