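import Pool.Agent.MP_8d06cc_nt.R4.Defs

/-! Existence of charts. -/

namespace Pool.Agent.MP_8d06cc_nt.R4

open Polynomial Pool.Agent.MP_8d06cc_nt.DA

noncomputable section

namespace F7x

variable {L : Type} [Field L]

theorem r_mem (V : VF L) {x : L} (h : x ∈ V.O) : V.r x = V.π ⟨x, h⟩ := dif_pos h

theorem r_zero (V : VF L) : V.r 0 = 0 := by
  rw [r_mem V V.O.zero_mem]; exact map_zero V.π

theorem r_one (V : VF L) : V.r 1 = 1 := by
  rw [r_mem V V.O.one_mem]; exact map_one V.π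

/-- the inverse of `w - n` -/
theorem inv_sub (V : VF L) {w t : L} {n : ℕ} (hn : V.r w ≠ n ∨ w ∉ V.O)
    (h : (w - n) * t = 1) : t ∈ V.O ∧ (w ∈ V.O → (V.r w - n) * V.r t = 1) := by
  have hnO : (n : L) ∈ V.O := natCast_mem V.O n
  have ht : t = (w - n)⁻¹ := eq_inv_of_mul_eq_one_right h
  by_cases hw : w ∈ V.O
  · have ha : w - n ∈ V.O := sub_mem hw hnO
    have e : V.π ⟨w - n, ha⟩ = V.r w - n := by
      rw [r_mem V hw, ← map_natCast V.π n, ← map_sub]; rfl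
    have h1 : ¬ V.O.valuation (w - n) < 1 := fun h1 =>
      (hn.resolve_right (not_not.2 hw)) (sub_eq_zero.1 (e ▸ (V.ker ⟨w - n, ha⟩).2 h1))
    have htO : t ∈ V.O := by
      rw [← ValuationSubring.valuation_le_one_iff, ht, map_inv₀]
      exact inv_le_one_of_one_le₀ (not_lt.1 h1)
    refine ⟨htO, fun _ => ?_⟩
    rw [← e, r_mem V htO, ← map_mul, ← map_one V.π]
    exact congrArg V.π (Subtype.ext h)
  · refine ⟨?_, fun h' => absurd h' hw⟩
    rw [ht]
    refine (V.O.mem_or_inv_mem _).resolve_left fun ha => hw ?_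
    simpa using add_mem ha hnO

theorem key (V : VF L) {ι : Type} [Fintype ι] (p : ι → L) (hp : Function.Injective p) (j0 : ι)
    (S : Finset ι) (h0 : j0 ∉ S) (h2 : 2 ≤ S.card) :
    ∃ α β γ δ : L, α * δ - β * γ ≠ 0 ∧ (∀ j, α - γ * p j ≠ 0) ∧
      ∀ t : ι → L, (∀ j, p j * (γ * t j + δ) = α * t j + β) → (∀ j, t j ∈ V.O) ∧
        (∀ j ∈ S, V.r (t j) ≠ V.r (t j0)) ∧ ∃ j ∈ S, ∃ j' ∈ S, V.r (t j) ≠ V.r (t j') := by
  classical
  have hne : ∀ j, j ≠ j0 → p j - p j0 ≠ 0 := fun j hj => sub_ne_zero.2 fun e => hj (hp e)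
  have hS : ∀ j ∈ S, j ≠ j0 := fun j hj e => h0 (e ▸ hj)
  obtain ⟨z, hz⟩ : ∃ z : ι → L, ∀ j, z j = (p j - p j0)⁻¹ := ⟨_, fun _ => rfl⟩
  have hoff : S.offDiag.Nonempty := by
    obtain ⟨a, ha, b, hb, hab⟩ := Finset.one_lt_card.1 h2
    exact ⟨(a, b), Finset.mem_offDiag.2 ⟨ha, hb, hab⟩⟩
  obtain ⟨⟨j1, j2⟩, hj, hmax⟩ :=
    Finset.exists_max_image S.offDiag (fun q => V.O.valuation (z q.2 - z q.1)) hoff
  obtain ⟨h1, h2', h12⟩ := Finset.mem_offDiag.1 hj
  obtain ⟨s, hs⟩ : ∃ s, s = z j2 - z j1 := ⟨_, rfl⟩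
  have hs0 : s ≠ 0 := by
    rw [hs, hz, hz]
    exact sub_ne_zero.2 fun e => h12 (hp (sub_left_injective (inv_injective e))).symm
  obtain ⟨w, hw⟩ : ∃ w : ι → L, ∀ j, w j = (z j - z j1) / s := ⟨_, fun _ => rfl⟩
  have hwO : ∀ j ∈ S, w j ∈ V.O := fun j hj' => by
    by_cases e : j1 = j
    · rw [hw, e, sub_self, zero_div]; exact V.O.zero_mem
    · rw [← ValuationSubring.valuation_le_one_iff, hw, map_div₀]
      refine div_le_one_of_le₀ ?_ zero_le
      rw [hs]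
      exact hmax (j1, j) (Finset.mem_offDiag.2 ⟨h1, hj', e⟩)
  obtain ⟨n, hn⟩ := ((Set.finite_range fun j => V.r (w j)).preimage
    (f := (Nat.cast : ℕ → ℂ)) Nat.cast_injective.injOn).exists_notMem
  have hn' : ∀ j, V.r (w j) ≠ n := fun j e => hn ⟨j, e⟩
  have hwn : ∀ j, w j ≠ n := fun j e => hn' j (by
    rw [e, r_mem V (natCast_mem V.O n), ← map_natCast V.π n]; rfl)
  have hzw : ∀ j, j ≠ j0 → (p j - p j0) * (z j1 + w j * s) = 1 := fun j hj' => by
    rw [hw, div_mul_cancel₀ _ hs0, add_sub_cancel, hz, mul_inv_cancel₀ (hne j hj')]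
  refine ⟨p j0 * (z j1 + n * s) + 1, p j0 * s, z j1 + n * s, s, ?_, fun j => ?_, fun t ht => ?_⟩
  · rwa [show (p j0 * (z j1 + n * s) + 1) * s - p j0 * s * (z j1 + n * s) = s by ring]
  · by_cases e : j = j0
    · rw [e, show p j0 * (z j1 + n * s) + 1 - (z j1 + n * s) * p j0 = 1 by ring]
      exact one_ne_zero
    · rw [show p j0 * (z j1 + n * s) + 1 - (z j1 + n * s) * p j =
        (p j - p j0) * ((w j - n) * s) by linear_combination -hzw j e]
      exact mul_ne_zero (hne j e) (mul_ne_zero (sub_ne_zero.2 (hwn j)) hs0)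
  · have t0 : t j0 = 0 := by linear_combination -ht j0
    have t1 : ∀ j, j ≠ j0 → (w j - n) * t j = 1 := fun j e => by
      refine mul_left_cancel₀ (mul_ne_zero (hne j e) hs0) ?_
      linear_combination -ht j + t j * hzw j e
    have t2 := fun j e => inv_sub V (Or.inl (hn' j)) (t1 j e)
    have t3 : ∀ j ∈ S, (V.r (w j) - n) * V.r (t j) = 1 := fun j hj' =>
      (t2 j (hS j hj')).2 (hwO j hj')
    refine ⟨fun j => ?_, fun j hj' e => ?_, j1, h1, j2, h2', fun e => ?_⟩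
    · by_cases e : j = j0
      · rw [e, t0]; exact V.O.zero_mem
      · exact (t2 j e).1
    · have := t3 j hj'
      rw [e, t0, r_zero, mul_zero] at this
      exact zero_ne_one this
    · have a1 := t3 j1 h1
      have a2 := t3 j2 h2'
      rw [hw, sub_self, zero_div, r_zero] at a1
      rw [hw, ← hs, div_self hs0, r_one, ← e] at a2
      have a3 : V.r (t j1) = 0 := by linear_combination a2 - a1
      rw [a3, mul_zero] at a1
      exact zero_ne_one a1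

/-- the twelve points -/
def pt (b : Dat L) : Fin 8 ⊕ Fin 4 → L := Sum.elim b.e fun k => (b.P k).a

theorem pt_inj (b : Dat L) : Function.Injective (pt b) := by
  refine Function.Injective.sumElim b.einj b.ainj fun i k e => (b.ok k).hf ?_
  rw [eval_mul, eval_prod, Finset.prod_eq_zero (Finset.mem_univ i), mul_zero]
  simp [e]

theorem chart [IsAlgClosed L] [CharZero L] (hM : S_MOB) (V : VF L) (b : Dat L)
    (j0 : Fin 8 ⊕ Fin 4) (S : Finset (Fin 8)) (h0 : ∀ i ∈ S, j0 ≠ Sum.inl i) (h2 : 2 ≤ S.card) :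
    ∃ c, IsCh V b c ∧ (∀ j ∈ S, xr V c j ≠ V.r (pt c j0)) ∧
      ∃ j ∈ S, ∃ j' ∈ S, xr V c j ≠ xr V c j' := by
  obtain ⟨α, β, γ, δ, hd, hp, ht⟩ := key V (pt b) (pt_inj b) j0 (S.map Function.Embedding.inl)
    (fun h => by
      obtain ⟨i, hi, e⟩ := Finset.mem_map.1 h
      exact h0 i hi e.symm) (by rwa [Finset.card_map])
  obtain ⟨c, hu, hT⟩ := hM L b α β γ δ hd (fun i => hp (Sum.inl i)) fun k => hp (Sum.inr k)
  obtain ⟨hO, h1, j, hj, j', hj', h3⟩ := ht (pt c) (by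
    rintro (i | k)
    · exact hT.he i
    · exact hT.ha k)
  obtain ⟨i, hi, rfl⟩ := Finset.mem_map.1 hj
  obtain ⟨i', hi', rfl⟩ := Finset.mem_map.1 hj'
  exact ⟨c, ⟨⟨hu, fun i => hO (Sum.inl i), fun k => hO (Sum.inr k)⟩, α, β, γ, δ, hT⟩,
    fun j hj => h1 (Sum.inl j) (Finset.mem_map_of_mem _ hj), i, hi, i', hi', h3⟩

end F7x

theorem f7 : S_F7 := by
  intro hM L _ _ _ V b
  refine ⟨fun k => ?_, fun i₀ S h0 h2 => ?_⟩
  · obtain ⟨c, hc, h1, j, -, j', -, h3⟩ :=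
      F7x.chart hM V b (Sum.inr k) Finset.univ (fun _ _ => Sum.inr_ne_inl) (by simp)
    exact ⟨c, hc, fun i => h1 i (Finset.mem_univ i), j, j', h3⟩
  · exact F7x.chart hM V b (Sum.inl i₀) S (fun i hi e => h0 (Sum.inl_injective e ▸ hi)) h2

end

end Pool.Agent.MP_8d06cc_nt.R4
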