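import Pool.Agent.MP_8d06cc_nt.R4.Defs

/-! Change of coordinate for Pell data. -/

namespace Pool.Agent.MP_8d06cc_nt.R4

open Polynomial Pool.Agent.MP_8d06cc_nt.DA

namespace MOBx

variable {L : Type} [Field L] {α β γ δ x x' a a' y y' l : L} {f F : L[X]} {N : ℕ}

/-- `q` is the transform of `p` in degree `n` -/
def Sl (α β γ δ : L) (n : ℕ) (p q : L[X]) : Prop := ∀ x x', x * (γ * x' + δ) = α * x' + β →
  q.eval x' = (γ * x' + δ) ^ n * p.eval x ∧ (γ * x' + δ) ^ 2 * q.derivative.eval x' =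
    (γ * x' + δ) ^ n * (n * γ * (γ * x' + δ) * p.eval x + (α * δ - β * γ) * p.derivative.eval x)

theorem ex (α β γ δ : L) (n : ℕ) : ∀ p : L[X], p.natDegree ≤ n →
    ∃ q : L[X], q.natDegree ≤ n ∧ Sl α β γ δ n p q := by
  induction n with
  | zero =>
    intro p hp
    rw [eq_C_of_natDegree_le_zero hp]
    exact ⟨C (p.coeff 0), (natDegree_C _).le, fun x x' _ => by simp⟩
  | succ n ih =>
    intro p hp
    obtain ⟨q, q1, q2⟩ := ih p.divX (by rw [natDegree_divX_eq_natDegree_tsub_one]; omega)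
    refine ⟨(C α * X + C β) * q + C (p.coeff 0) * (C γ * X + C δ) ^ (n + 1),
      natDegree_add_le_of_degree_le (natDegree_mul_le.trans ?_) ((natDegree_C_mul_le _ _).trans
        (natDegree_pow_le.trans (mul_le_of_le_one_right' natDegree_linear_le))), fun x x' h => ?_⟩
    · exact (add_le_add natDegree_linear_le q1).trans_eq (add_comm _ _)
    obtain ⟨a, b⟩ := q2 x x' h
    rw [← X_mul_divX_add p]
    generalize p.divX = r at a b
    simp only [derivative_add, derivative_mul, derivative_X, derivative_C, derivative_pow, eval_add,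
      eval_mul, eval_pow, eval_X, eval_C, eval_one, eval_zero, coeff_add, coeff_C_zero,
      mul_coeff_zero, coeff_X_zero, Nat.add_sub_cancel, a, Nat.cast_add, Nat.cast_one]
    exact ⟨by linear_combination -((γ * x' + δ) ^ n * r.eval x) * h, by
      linear_combination (α * x' + β) * b - ((γ * x' + δ) ^ n * ((n + 1) * γ * (γ * x' + δ) *
        r.eval x + (α * δ - β * γ) * r.derivative.eval x)) * h⟩

theorem w_ne (hd : α * δ - β * γ ≠ 0) (h : x * (γ * x' + δ) = α * x' + β) : γ * x' + δ ≠ 0 :=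
  fun q => hd (by linear_combination (α - γ * x) * q + γ * h)

theorem ext [CharZero L] (hd : α * δ - β * γ ≠ 0) {p q : L[X]}
    (h : ∀ x x', x * (γ * x' + δ) = α * x' + β → p.eval x' = q.eval x') : p = q := by
  have w0 : (C γ * X + C δ : L[X]) ≠ 0 := fun e => hd (by
    have e0 := congrArg (eval 0) e
    have e1 := congrArg (eval 1) e
    simp only [eval_add, eval_mul, eval_C, eval_X, eval_zero] at e0 e1
    linear_combination (α + β) * e0 - β * e1)
  refine mul_left_cancel₀ w0 (Polynomial.funext fun x' => ?_)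
  simp only [eval_add, eval_mul, eval_C, eval_X]
  by_cases e : γ * x' + δ = 0
  · rw [e, zero_mul, zero_mul]
  · rw [h _ x' (div_mul_cancel₀ _ e)]

theorem pt (h : α - γ * a ≠ 0) : ∃ a', a * (γ * a' + δ) = α * a' + β :=
  ⟨(δ * a - β) / (α - γ * a), by
    linear_combination -div_mul_cancel₀ (δ * a - β) h⟩

theorem dif (h : x * (γ * x' + δ) = α * x' + β) (h' : a * (γ * a' + δ) = α * a' + β) :
    (α - γ * a) * (x' - a') = (γ * x' + δ) * (x - a) := by
  linear_combination h' - h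

/-- the relation between a datum and its transform -/
structure Rl (α β γ δ l : L) (N : ℕ) (P P' : PD L) : Prop where
  a : P.a * (γ * P'.a + δ) = α * P'.a + β
  b : P.b * (γ * P'.a + δ) ^ 4 = l * P'.b
  A : ∀ x x', x * (γ * x' + δ) = α * x' + β → P'.A.eval x' = (γ * x' + δ) ^ N * P.A.eval x
  B : ∀ x x', x * (γ * x' + δ) = α * x' + β →
    P'.B.eval x' * (γ * x' + δ) ^ 4 = l * (γ * x' + δ) ^ N * P.B.eval x
  Q : ∃ κ, κ ≠ 0 ∧ ∀ x x', x * (γ * x' + δ) = α * x' + β →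
    P'.Q.eval x' = κ * (γ * x' + δ) ^ 3 * P.Q.eval x

theorem Rl.psi {P P' : PD L} (r : Rl α β γ δ l N P P') (hd : α * δ - β * γ ≠ 0)
    (h : x * (γ * x' + δ) = α * x' + β) (hy : y * (γ * x' + δ) ^ 4 = l * y') :
    psi P' x' y' = psi P x y := by
  have w := w_ne hd h
  have e : P'.B.eval x' * y' = (γ * x' + δ) ^ N * (P.B.eval x * y) :=
    mul_right_cancel₀ (pow_ne_zero 4 w) (by
      linear_combination y' * r.B x x' h - (γ * x' + δ) ^ N * P.B.eval x * hy)
  rw [R4.psi, R4.psi, e, r.A x x' h, ← mul_add, ← mul_sub, mul_div_mul_left _ _ (pow_ne_zero _ w)]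

theorem one [CharZero L] (hP : S_PELL) (hd : α * δ - β * γ ≠ 0) (l0 : l ≠ 0)
    (hf : f.natDegree ≤ 8) (hF : Sl α β γ δ 8 f (C (l ^ 2) * F)) {P : PD L} (ok : P.OK f N)
    (ha : α - γ * P.a ≠ 0) : ∃ P' : PD L, P'.OK F N ∧ Rl α β γ δ l N P P' := by
  obtain ⟨M, rfl⟩ : ∃ M, N = M + 4 := ⟨N - 4, by have := ok.dB; omega⟩
  obtain ⟨a', h'⟩ := pt (β := β) (δ := δ) ha
  obtain ⟨A, A1, A2⟩ := ex α β γ δ _ _ ok.dA
  obtain ⟨B, B1, B2⟩ := ex α β γ δ M _ (Nat.le_of_add_le_add_right ok.dB)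
  obtain ⟨Q, -, Q2⟩ := ex α β γ δ 3 _ (hP.basic L f _ P hf ok).2.2.2.2
  have w := w_ne hd h'
  simp only [Sl, derivative_C_mul, eval_mul, eval_C] at hF
  have k0 : l * (α - γ * P.a) ≠ 0 := mul_ne_zero l0 ha
  have k1 := div_mul_cancel₀ (α * δ - β * γ) k0
  have b1 := div_mul_cancel₀ (P.b * (γ * a' + δ) ^ 4) l0
  have k2 := div_ne_zero hd k0
  generalize (α * δ - β * γ) / (l * (α - γ * P.a)) = κ at k1 k2
  generalize P.b * (γ * a' + δ) ^ 4 / l = b' at b1
  refine ⟨⟨a', b', P.c * (α - γ * P.a) ^ (2 * (M + 4)), A, C l * B, C κ * Q⟩,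
    ⟨ok.pos, A1, Nat.add_le_add_right ((natDegree_C_mul_le _ _).trans B1) 4,
      ext hd fun x x' h => ?_, mul_ne_zero ok.hc (pow_ne_zero _ ha), ?_, fun q => ?_, ?_,
      ext hd fun x x' h => ?_⟩, h', by rw [← b1, mul_comm], fun x x' h => (A2 x x' h).1,
    fun x x' h => ?_, κ, k2, fun x x' h => ?_⟩
  · have e := congrArg (eval x) ok.eqn
    simp only [eval_sub, eval_mul, eval_pow, eval_C, eval_X] at e ⊢
    rw [mul_assoc P.c, ← mul_pow, dif h h', mul_pow (γ * x' + δ), (A2 x x' h).1, (B2 x x' h).1]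
    linear_combination (γ * x' + δ) ^ (2 * (M + 4)) * e -
      ((γ * x' + δ) ^ M * P.B.eval x) ^ 2 * (hF x x' h).1
  · rw [(A2 _ _ h').1]
    exact mul_ne_zero (pow_ne_zero _ w) ok.hA
  · have := (hF _ _ h').1
    rw [q, mul_zero] at this
    exact mul_ne_zero (pow_ne_zero _ w) ok.hf this.symm
  · simp only [eval_mul, eval_C, (A2 _ _ h').1, (B2 _ _ h').1]
    linear_combination (γ * a' + δ) ^ (M + 4) * ok.hb + (γ * a' + δ) ^ M * P.B.eval P.a * b1
  · have e := congrArg (eval x) ok.hQ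
    have d := congrArg (· ^ (2 * M + 7)) (dif h h')
    rw [show 2 * (M + 4) - 1 = 2 * M + 7 by omega] at e ⊢
    simp only [WW, derivative_C_mul, eval_add, eval_sub, eval_mul, eval_pow, eval_C, eval_X,
      eval_ofNat, mul_pow] at e d ⊢
    obtain ⟨a1, a2⟩ := A2 x x' h
    obtain ⟨c1, c2⟩ := B2 x x' h
    obtain ⟨f1, f2⟩ := hF x x' h
    refine mul_left_cancel₀ (mul_ne_zero l0 (pow_ne_zero 2 (w_ne hd h))) ?_
    rw [a1, c1, (Q2 x x' h).1]
    push_cast at a2 c2 f2 e ⊢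
    generalize γ * x' + δ = w at *
    generalize α - γ * P.a = s at *
    generalize α * δ - β * γ = D at *
    linear_combination D * w ^ (2 * M + 12) * e +
      2 * (w ^ (M + 4) * P.A.eval x * w ^ 2 * B.derivative.eval x' -
        w ^ 2 * A.derivative.eval x' * (w ^ M * P.B.eval x)) * f1 +
      2 * w ^ 8 * f.eval x * (w ^ (M + 4) * P.A.eval x * c2 - w ^ M * P.B.eval x * a2) +
      w ^ (2 * M + 4) * P.A.eval x * P.B.eval x * f2 -
      2 * (M + 4) * P.c * w ^ 5 * P.Q.eval x * (l * s * κ * d +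
        w ^ (2 * M + 7) * (x - P.a) ^ (2 * M + 7) * k1)
  · simp only [eval_mul, eval_C, (B2 x x' h).1]
    ring
  · simp only [eval_mul, eval_C, (Q2 x x' h).1]
    ring

end MOBx

open MOBx

theorem mob (hP : DA.S_PELL) : S_MOB := by
  intro L _ _ _ b α β γ δ hd he ha
  choose e' h1 using fun i => pt (β := β) (δ := δ) (he i)
  obtain ⟨l, hl⟩ := IsAlgClosed.exists_pow_nat_eq (b.u * ∏ i, (α - γ * b.e i)) two_pos
  have l0 : l ≠ 0 := fun q => mul_ne_zero b.hu (Finset.prod_ne_zero_iff.2 fun i _ => he i)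
    (by rw [← hl, q, zero_pow two_ne_zero])
  have hf : b.f.natDegree ≤ 8 := (natDegree_C_mul_le _ _).trans
    (by simp [natDegree_finsetProd_X_sub_C_eq_card])
  obtain ⟨F, -, hF⟩ := ex α β γ δ 8 _ hf
  obtain rfl : F = C (l ^ 2) * (C 1 * ∏ i, (X - C (e' i))) := ext hd fun x x' h => by
    rw [(hF x x' h).1, hl, Dat.f]
    simp only [eval_mul, eval_C, eval_prod, eval_sub, eval_X, one_mul]
    rw [mul_assoc, ← Finset.prod_mul_distrib, Finset.prod_congr rfl fun i _ => dif h (h1 i),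
      Finset.prod_mul_distrib, Finset.prod_const, Finset.card_fin, mul_left_comm]
  choose P h2 h3 using fun k => one hP hd l0 hf hF (b.ok k) (ha k)
  have inj : ∀ {s t s' t' : L}, s * (γ * s' + δ) = α * s' + β → t * (γ * t' + δ) = α * t' + β →
      s' = t' → s = t := fun p q r =>
    mul_right_cancel₀ (w_ne hd p) (p.trans (r ▸ q.symm))
  refine ⟨⟨b.N, 1, e', P, one_ne_zero, h2, fun i j q => b.einj (inj (h1 i) (h1 j) q),
    fun i j q => b.ainj (inj (h3 i).a (h3 j).a q), ?_⟩, rfl, hd, h1, fun k => (h3 k).a,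
    fun x x' h y' hy => ?_, fun k m => (h3 k).psi hd (h3 m).a (h3 m).b⟩
  · obtain ⟨i, j, ij, h⟩ := b.rk
    refine ⟨i, j, ij, fun m => ?_⟩
    obtain ⟨u, v, e⟩ := h m
    obtain ⟨r, -, r1⟩ := (h3 m).Q
    obtain ⟨s, s0, s1⟩ := (h3 i).Q
    obtain ⟨t, t0, t1⟩ := (h3 j).Q
    refine ⟨r * u / s, r * v / t, ext hd fun x x' q => ?_⟩
    simp only [eval_add, eval_mul, eval_C, r1 x x' q, s1 x x' q, t1 x x' q, e]
    field_simp
  · have w := pow_ne_zero 4 (w_ne hd h)
    have e := div_mul_cancel₀ (l * y') w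
    refine ⟨_, mul_right_cancel₀ (pow_ne_zero 2 w) ?_, fun k => (h3 k).psi hd h e⟩
    have := (hF x x' h).1
    rw [eval_mul, eval_C] at this
    rw [← mul_pow, e, mul_pow, hy]
    exact this.trans (by ring)

end Pool.Agent.MP_8d06cc_nt.R4
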