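import Pool.Agent.MP_8d06cc_nt.R4.Comb
import Pool.Agent.MP_8d06cc_nt.R4.CR
import Pool.Agent.MP_8d06cc_nt.R4.F6
import Pool.Agent.MP_8d06cc_nt.R4.F7
import Pool.Agent.MP_8d06cc_nt.R4.Mob
import Pool.Agent.MP_8d06cc_nt.DA.Pell
import Pool.Agent.MP_8d06cc_nt.AB.Spec

/-! Assembly of block R4 from the facts in one chart and the star case. -/

namespace Pool.Agent.MP_8d06cc_nt.R4

open Polynomial Pool.Agent.MP_8d06cc_nt.DA

namespace Ax

variable {L : Type} [Field L]

lemma ex_roots [IsAlgClosed L] {f : L[X]} (h8 : f.natDegree = 8) (hs : f.Separable) :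
    ∃ (u : L) (e : Fin 8 → L), u ≠ 0 ∧ Function.Injective e ∧ f = C u * ∏ i, (X - C (e i)) := by
  classical
  have h0 : f ≠ 0 := hs.ne_zero
  have hc : f.roots.card = f.natDegree := (IsAlgClosed.splits f).natDegree_eq_card_roots.symm
  have hn : f.roots.Nodup := nodup_roots hs
  have hcard : f.roots.toFinset.card = 8 := by rw [Multiset.toFinset_card_of_nodup hn, hc, h8]
  let σ := Finset.equivFinOfCardEq hcard
  refine ⟨f.leadingCoeff, fun i => (σ.symm i : L), leadingCoeff_ne_zero.2 h0,
    Subtype.val_injective.comp σ.symm.injective, ?_⟩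
  have e1 : ∏ i : Fin 8, (X - C (σ.symm i : L)) = ∏ a ∈ f.roots.toFinset, (X - C a) := by
    rw [← Finset.prod_coe_sort f.roots.toFinset]
    exact σ.symm.prod_comp fun a : f.roots.toFinset => X - C (a : L)
  have e2 : ∏ a ∈ f.roots.toFinset, (X - C a) = (f.roots.map fun a => X - C a).prod := by
    rw [Finset.prod_eq_multiset_prod, Multiset.toFinset_val, Multiset.dedup_eq_self.2 hn]
  rw [e1, e2]
  exact (C_leadingCoeff_mul_prod_multiset_X_sub_C hc).symm

lemma v_nat (V : VF L) (n : ℕ) (hn : n ≠ 0) : V.O.valuation (n : L) = 1 := by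
  have h1 : V.O.valuation ((n : V.O) : L) ≤ 1 := V.O.valuation_le_one _
  have h2 : ¬ V.O.valuation ((n : V.O) : L) < 1 := fun h => by
    have := (V.ker n).2 h
    rw [map_natCast] at this
    exact hn (Nat.cast_eq_zero.1 this)
  have e : ((n : V.O) : L) = n := rfl
  rw [e] at h1 h2
  exact le_antisymm h1 (not_lt.1 h2)

lemma prod_pairs (g : Fin 8 → L[X]) (i i' : Fin 4 → Fin 8) (x : Fin 8 → ℂ) (A : Fin 4 → ℂ)
    (hne : ∀ k, i k ≠ i' k) (hi : ∀ k, x (i k) = A k) (hi' : ∀ k, x (i' k) = A k)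
    (hA : Function.Injective A) : ∏ j, g j = ∏ k, (g (i k) * g (i' k)) := by
  have hinj : Function.Injective (Sum.elim i i') := by
    rintro (k | k) (l | l) h <;> simp only [Sum.elim_inl, Sum.elim_inr] at h
    · rw [hA ((hi k).symm.trans (h ▸ hi l))]
    · have e := hA ((hi k).symm.trans (h ▸ hi' l))
      subst e
      exact absurd h (hne k)
    · have e := hA ((hi' k).symm.trans (h ▸ hi l))
      subst e
      exact absurd h.symm (hne k)
    · rw [hA ((hi' k).symm.trans (h ▸ hi' l))]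
  have hb : Function.Bijective (Sum.elim i i') :=
    (Fintype.bijective_iff_injective_and_card _).2 ⟨hinj, by simp⟩
  rw [← hb.prod_comp g, Fintype.prod_sum_type, Finset.prod_mul_distrib]
  rfl

lemma single_ne {k j : Fin 4} (h : (Pi.single k 1 : Fin 4 → ℤ) j ≠ 0) : j = k := by
  by_contra e
  exact h (Pi.single_eq_of_ne e _)

end Ax

open Ax in
theorem asm (hM : S_MAX) (hB : S_BR) (h0 : S_F0) (h1 : S_F1) (h2 : S_F2) (h3 : S_F3) (h4 : S_F4)
    (h5 : S_F5a) (h6 : S_F5c) (h7 : S_G1) (hS : ST.S_STAR) : AB.StmtR4 := by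
  intro L _ _ _ W f N P h8 hsep hok hinj hrk hsym
  haveI : CharZero L := charZero_of_injective_algebraMap (algebraMap ℂ L).injective
  obtain ⟨u, e, hu, he, rfl⟩ := ex_roots h8 hsep
  let V : VF L := ⟨W.O, W.red, W.ker⟩
  let b : Dat L := ⟨N, u, e, P, hu, hok, he, hinj, hrk⟩
  have F7' := f7 (mob pellS) L V b
  let K : Comb {c : Dat L // IsCh V b c} :=
    { x := fun c => xr V c.1
      A := fun c => ar V c.1
      l := fun c => ell V c.1
      dp := fun c => dep V c.1
      lk := lnk V b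
      nr := fun c => near V c.1
      symm := fun k m hkm h e' => h ((hsym k m hkm).trans e')
      f0 := fun c => h0 L V c.1 c.2.1
      f1 := fun c => h1 L V c.1 c.2.1
      f2 := fun c => h2 L V c.1 c.2.1
      f3 := fun c k m hkm hr => by
        obtain ⟨α, β, γ, δ, T⟩ := c.2.2
        have := h3 L V c.1 c.2.1 k m hkm hr
        unfold lnk at this ⊢
        rwa [T.hg] at this
      f4 := fun c => h4 L V c.1 c.2.1
      f5a := fun c => h5 L V c.1 c.2.1
      f5c := fun c => h6 L V c.1 c.2.1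
      g1 := fun c => h7 L V c.1 c.2.1
      g2 := fun c => g2 hM L V c.1 c.2.1
      f6 := fun c c' => by
        obtain h | ⟨D, D', a1, a2, a3, a4⟩ := f6 hM L V b c.1 c'.1 c.2 c'.2
        · exact Or.inl h
        refine Or.inr ⟨D, D', a1, a2, fun k hk hl hz => hl (a3 _ (fun j hj => ?_) hz),
          fun k hk hl hz => hl (a4 _ (fun j hj => ?_) hz), ?_⟩
        · rw [single_ne hj]; exact hk
        · rw [single_ne hj]; exact hk
        · rintro k m hk hm ⟨n, n1, n2, n3, n4⟩
          refine ⟨n, n1, n2, n3, a3 n (fun j hj => ?_) n4⟩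
          by_cases e1 : j = k
          · rw [e1]; exact hk
          by_cases e2 : j = m
          · rw [e2]; exact hm
          exact absurd (n3 j e1 e2) hj
      f7z := fun k => by
        obtain ⟨c, hc, h⟩ := F7'.1 k
        exact ⟨⟨c, hc⟩, h⟩
      f7x := fun i₀ S hi hS' => by
        obtain ⟨c, hc, h⟩ := F7'.2 i₀ S hi hS'
        exact ⟨⟨c, hc⟩, h⟩
      cr := fun c c' => cr L V b c.1 c'.1 c.2 c'.2
      star := fun c i i' hne hi hi' hA hl hn => by
        have I := c.2.1
        refine hS L _ V.O.valuation c.1.f c.1.N c.1.P 1 (fun k => c.1.e (i k))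
          (fun k => c.1.e (i' k)) (v_nat V) (fun x y hx hy => ?_) ?_ (map_one _)
          (fun k => (V.O.valuation_le_one_iff _).2 (I.eO _)) (fun k l hkl => ?_)
          (fun k => c.1.einj.ne (hne k)) hn (fun k => ?_) c.1.ok
          (fun k => hB L V c.1 I k (hl k)) c.1.rk
        · obtain ⟨m, hm⟩ := W.arch x y hx hy
          exact ⟨m, hm.le⟩
        · unfold Dat.f
          rw [I.u1, one_pow,
            prod_pairs (fun j => X - C (c.1.e j)) i i' (xr V c.1) (ar V c.1) hne hi hi' hA]
        · refine CRx.r_ne V (I.eO _) (I.eO _) fun e' => hkl (hA ?_)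
          exact (hi k).symm.trans (e'.trans (hi l))
        · exact (CRx.r_eq V (I.aO k) (I.eO _)).1 (hi k).symm }
  intro k m hkm
  by_contra h
  exact comb _ K k m hkm h

end Pool.Agent.MP_8d06cc_nt.R4
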