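import Pool.Agent.MP_8d06cc_nt.R4.K6

/-! The facts F2, F3, F4 in one chart. -/

namespace Pool.Agent.MP_8d06cc_nt.R4

open Polynomial DA CRx K6

namespace K6

lemma dpow (z : ℂ) (n : ℕ) (g : ℂ[X]) : (X - C z) * derivative ((X - C z) ^ n * g) =
    (X - C z) ^ n * (C (n : ℂ) * g + (X - C z) * derivative g) := by
  rw [derivative_mul, derivative_X_sub_C_pow]
  cases n with
  | zero => simp
  | succ m =>
    rw [Nat.add_sub_cancel]
    ring

lemma fac {p : ℂ[X]} (hp : p ≠ 0) (z : ℂ) :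
    ∃ g, p = (X - C z) ^ rootMultiplicity z p * g ∧ g.eval z ≠ 0 := by
  obtain ⟨g, h1, h2⟩ := exists_eq_pow_rootMultiplicity_mul_and_not_dvd p hp z
  exact ⟨g, h1, mt dvd_iff_isRoot.2 h2⟩

/-- the order of the numerator of the logarithmic derivative -/
lemma ordW (z : ℂ) (s α μ : ℕ) (g a h : ℂ[X]) : ∃ T : ℂ[X],
    (X - C z) * WW derivative ((X - C z) ^ s * g) ((X - C z) ^ α * a) ((X - C z) ^ μ * h) =
      (X - C z) ^ (s + α + μ) * T ∧
    T.eval z = (2 * μ - 2 * α + s) * (g.eval z * a.eval z * h.eval z) := by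
  refine ⟨2 * g * (a * (C (μ : ℂ) * h + (X - C z) * derivative h) -
    (C (α : ℂ) * a + (X - C z) * derivative a) * h) +
    (C (s : ℂ) * g + (X - C z) * derivative g) * a * h, ?_, ?_⟩
  · rw [WW, pow_add, pow_add]
    linear_combination 2 * ((X - C z) ^ s * g) * ((X - C z) ^ α * a) * dpow z μ h -
      2 * ((X - C z) ^ s * g) * ((X - C z) ^ μ * h) * dpow z α a +
      ((X - C z) ^ α * a) * ((X - C z) ^ μ * h) * dpow z s g
  · simp only [eval_add, eval_sub, eval_mul, eval_C, eval_X, eval_ofNat, sub_self, zero_mul]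
    ring

lemma cancel {z : ℂ} {m n : ℕ} {T R : ℂ[X]} (h : (X - C z) ^ m * T = (X - C z) ^ n * R)
    (hT : T.eval z ≠ 0) : n ≤ m := by
  by_contra q
  obtain ⟨d, rfl⟩ : ∃ d, n = m + (d + 1) := ⟨n - m - 1, by omega⟩
  rw [pow_add, mul_assoc] at h
  rw [mul_left_cancel₀ (pow_ne_zero _ (X_sub_C_ne_zero z)) h] at hT
  simp at hT

lemma prod_sz (x : Fin 8 → ℂ) (z : ℂ) :
    ∃ g : ℂ[X], ∏ i, (X - C (x i)) = (X - C z) ^ sz x z * g ∧ g.eval z ≠ 0 := by
  classical
  refine ⟨∏ i ∈ Finset.univ.filter fun i => ¬ x i = z, (X - C (x i)), ?_, ?_⟩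
  · rw [← Finset.prod_filter_mul_prod_filter_not Finset.univ fun i => x i = z, sz,
      ← Finset.prod_const]
    exact congrArg (· * _) (Finset.prod_congr rfl fun i hi => by rw [(Finset.mem_filter.1 hi).2])
  · rw [eval_prod]
    exact Finset.prod_ne_zero_iff.2 fun i hi => by
      simpa [sub_eq_zero, eq_comm] using (Finset.mem_filter.1 hi).2

lemma sq_of_even {x : Fin 8 → ℂ} (h : ∀ z, Even (sz x z)) :
    ∃ q : ℂ[X], ∏ i, (X - C (x i)) = q ^ 2 := by
  classical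
  refine ⟨∏ z ∈ Finset.univ.image x, (X - C z) ^ (sz x z / 2), ?_⟩
  rw [Finset.prod_comp (fun z => X - C z) x, ← Finset.prod_pow]
  refine Finset.prod_congr rfl fun z _ => ?_
  rw [← pow_mul, Nat.div_mul_cancel (h z).two_dvd]
  rfl

variable {L : Type} [Field L] {V : VF L} {c : Dat L} {k : Fin 4} (M : Mdl V c k)

/-- for `l ≠ 0` the reduction of `A` vanishes only at the roots and at the point -/
lemma Mdl.zeros (h : V.π M.κ = 0) {z : ℂ} (hz : z ≠ ar V c k) (hr : ∀ i, xr V c i ≠ z) :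
    (M.A.map V.π).eval z ≠ 0 := by
  obtain ⟨A0, e0⟩ := M.both h
  obtain ⟨n, hn⟩ : ∃ n, c.N = n + 1 := ⟨c.N - 1, by have := (c.ok k).pos; omega⟩
  have I : C M.ε ^ 2 * M.B * M.Q =
      C M.κ * (2 * derivative M.A * (X - C M.a) - ((2 * c.N : ℕ) : V.O[X]) * M.A) := by
    have := idI (dX V.O) M.f M.A (C M.ε * M.B)
    have e : WW derivative M.f M.A (C M.ε * M.B) = C M.ε * WW derivative M.f M.A M.B := by
      simp only [WW, derivative_C_mul]
      ring
    rw [coe_dX, M.eqn, e, M.W, derivative_C_mul, derivative_X_sub_C_pow, C_eq_natCast] at this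
    refine mul_left_cancel₀ (pow_ne_zero (2 * c.N - 1) (X_sub_C_ne_zero M.a)) ?_
    rw [show (X - C M.a) ^ (2 * c.N) = (X - C M.a) ^ (2 * c.N - 1) * (X - C M.a) by
      rw [← pow_succ, hn]; rfl] at this
    linear_combination this
  have p0 : (C M.ε ^ 2 * M.B).map V.π ≠ 0 := by
    rw [Polynomial.map_mul, Polynomial.map_pow, map_C]
    exact mul_ne_zero (pow_ne_zero _ (C_ne_zero.2 e0)) M.B0
  obtain ⟨Q, hQ⟩ := gauss (Q := C (M.κ : L)⁻¹ * M.Q.map V.O.subtype)
    (R := 2 * derivative M.A * (X - C M.a) - ((2 * c.N : ℕ) : V.O[X]) * M.A) p0 (by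
      rw [mul_left_comm, ← Polynomial.map_mul, I, Polynomial.map_mul, map_C, ← mul_assoc, ← C_mul]
      exact (congrArg (C · * _) (inv_mul_cancel₀ M.κ0)).trans (by rw [C_1, one_mul]))
  have J : C M.ε ^ 2 * M.B * Q =
      2 * derivative M.A * (X - C M.a) - ((2 * c.N : ℕ) : V.O[X]) * M.A := by
    refine mul_left_cancel₀ (C_ne_zero.2 fun e : M.κ = 0 => M.κ0 (by rw [e]; rfl)) ?_
    rw [← I, mul_left_comm]
    refine congrArg _ (pinj ?_)
    rw [Polynomial.map_mul, hQ, map_C, ← mul_assoc, ← C_mul]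
    exact (congrArg (C · * _) (mul_inv_cancel₀ M.κ0)).trans (by rw [C_1, one_mul])
  have J0 := congrArg (Polynomial.map V.π) J
  simp only [Polynomial.map_mul, Polynomial.map_sub, Polynomial.map_pow, map_C, map_X, M.a0,
    Polynomial.map_ofNat, Polynomial.map_natCast, ← derivative_map] at J0
  have E := M.eqn0
  rw [h, C_0, zero_mul, sub_eq_zero] at E
  have f0 : (M.f.map V.π).eval z ≠ 0 := fun e => by
    obtain ⟨i, hi⟩ := (M.f0ev z).1 e
    exact hr i hi
  obtain ⟨a, ha, a0⟩ := fac A0 z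
  obtain ⟨b, hb, b0⟩ := fac M.B0 z
  generalize rootMultiplicity z (M.A.map V.π) = α at ha
  generalize rootMultiplicity z (M.B.map V.π) = μ at hb
  rw [ha, hb] at E J0
  have le : α ≤ μ := by
    have := cancel (z := z) (m := 2 * μ) (n := 2 * α) (R := a ^ 2)
      (T := M.f.map V.π * (C (V.π M.ε) * b) ^ 2) (by linear_combination -E) (by
        simpa using ⟨f0, e0, b0⟩)
    omega
  obtain ⟨d, rfl⟩ := Nat.exists_eq_add_of_le le
  have K : (X - C z) * (C (V.π M.ε) ^ 2 * ((X - C z) ^ d * b) * Q.map V.π +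
      ((2 * c.N : ℕ) : ℂ[X]) * a) =
      2 * (C (α : ℂ) * a + (X - C z) * derivative a) * (X - C (ar V c k)) := by
    refine mul_left_cancel₀ (pow_ne_zero α (X_sub_C_ne_zero z)) ?_
    linear_combination (X - C z) * J0 + 2 * (X - C (ar V c k)) * dpow z α a
  have K0 := congrArg (eval z) K
  simp only [eval_mul, eval_add, eval_sub, eval_X, eval_C, sub_self, zero_mul, add_zero,
    eval_ofNat] at K0
  have : (α : ℂ) = 0 := by
    simpa [a0, sub_ne_zero.2 hz] using K0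
  rw [ha, Nat.cast_eq_zero.1 this, pow_zero, one_mul]
  exact a0

/-- for `l = 0` the order of the reduced cubic at a free root class -/
lemma Mdl.ord (k0 : V.π M.κ ≠ 0) {i : Fin 8} (hx : xr V c i ≠ ar V c k) : M.Q.map V.π ≠ 0 ∧
    (X - C (xr V c i)) ^ (sz (xr V c) (xr V c i) - 1) ∣ M.Q.map V.π := by
  set z := xr V c i
  obtain ⟨g, hg, g0⟩ := prod_sz (xr V c) z
  obtain ⟨b, hb, b0⟩ := fac M.B0 z
  have A0 : (M.A.map V.π).eval z ≠ 0 := fun e => by
    have := congrArg (eval z) M.eqn0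
    simp only [eval_sub, eval_mul, eval_pow, eval_C, eval_X, e, (M.f0ev z).2 ⟨i, rfl⟩] at this
    exact mul_ne_zero k0 (pow_ne_zero _ (sub_ne_zero.2 hx)) (by rw [← this]; ring)
  have s0 : 0 < sz (xr V c) z := by
    classical
    exact Finset.card_pos.2 ⟨i, by simp [z]⟩
  obtain ⟨T, hT, T0⟩ := ordW z (sz (xr V c) z) 0 (rootMultiplicity z (M.B.map V.π)) g (M.A.map V.π) b
  rw [pow_zero, one_mul, ← hg, ← hb, ← M.f0, M.W0] at hT
  have T1 : T.eval z ≠ 0 := by
    rw [T0]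
    refine mul_ne_zero ?_ (mul_ne_zero (mul_ne_zero g0 A0) b0)
    norm_cast
    rw [Int.subNatNat_eq_coe]
    omega
  have Q0 : M.Q.map V.π ≠ 0 := fun e => by
    rw [e, mul_zero, mul_zero, eq_comm, mul_eq_zero] at hT
    exact T1 (by rw [hT.resolve_left (pow_ne_zero _ (X_sub_C_ne_zero z)), eval_zero])
  obtain ⟨q, hq, q0⟩ := fac Q0 z
  have := cancel (z := z) (m := rootMultiplicity z (M.Q.map V.π) + 1)
    (T := (X - C (ar V c k)) ^ (2 * c.N - 1) * q) (R := T) (by rw [← hT]; nth_rewrite 2 [hq]; ring)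
    (by simpa [sub_ne_zero.2 hx] using q0)
  exact ⟨Q0, (pow_dvd_pow _ (by omega)).trans (pow_rootMultiplicity_dvd _ z)⟩

end K6

variable {L : Type} [Field L] {V : VF L} {c : Dat L}

theorem f3 (h0 : S_F0) : S_F3 := fun L _ _ _ V c hc k l kl hr => by
  obtain ⟨M⟩ := mdl hc k
  have n : ar V c l ≠ ar V c k := fun e => by
    obtain ⟨i, hi⟩ := h0 L V c hc l k kl.symm e
    exact hr i hi
  have b : (c.P l).b ^ 2 = c.f.eval (c.P l).a := (c.ok l).bsq
  rw [M.ell_iff]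
  refine ⟨fun h => by_contra fun q => h (M.unit q (r_ne V (hc.aO l) (hc.aO k) n).ge b), fun h => ?_⟩
  refine M.nonunit h (x := ⟨_, hc.aO l⟩) b ?_
  rw [← r_coe]
  exact M.zeros h n hr

theorem f4 : S_F4 := fun L _ _ _ V c hc m i hl hx => by
  obtain ⟨M⟩ := mdl hc m
  obtain ⟨Q0, d⟩ := M.ord (mt M.ell_iff.2 hl) hx
  have := (natDegree_le_of_dvd d Q0).trans (natDegree_map_le.trans M.dQ)
  rw [natDegree_pow, natDegree_X_sub_C, mul_one] at this
  omega

/-- the primitive part of the cubic of a point with `l = 0` -/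
theorem f4x [IsAlgClosed L] [CharZero L] (hc : Int V c) {m : Fin 4} (hl : ¬ ell V c m) :
    ∃ (η : L) (H : V.O[X]), (c.P m).Q = C η * H.map V.O.subtype ∧ H.map V.π ≠ 0 ∧
      ∀ i, xr V c i ≠ ar V c m → (X - C (xr V c i)) ^ (sz (xr V c) (xr V c i) - 1) ∣ H.map V.π := by
  by_cases h : ∃ i, xr V c i ≠ ar V c m
  · obtain ⟨M⟩ := mdl hc m
    obtain ⟨i, hi⟩ := h
    have k0 := mt M.ell_iff.2 hl
    have n0 : (2 * c.N * M.κ : L) ≠ 0 :=
      mul_ne_zero (mul_ne_zero two_ne_zero (Nat.cast_ne_zero.2 (c.ok m).pos.ne')) M.κ0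
    refine ⟨(2 * c.N * M.κ : L)⁻¹ * M.ε, M.Q, ?_, (M.ord k0 hi).1, fun j hj => (M.ord k0 hj).2⟩
    rw [C_mul, mul_assoc, M.hQ, ← mul_assoc, ← C_mul, inv_mul_cancel₀ n0, C_1, one_mul]
  · obtain ⟨l, l0, H, h1, h2⟩ := prim V (p := (c.P m).Q) fun e =>
      (c.ok m).b_ne (by rw [← (c.ok m).Qa, e, eval_zero])
    refine ⟨l⁻¹, H, ?_, h2, fun i hi => absurd ⟨i, hi⟩ h⟩
    rw [h1, ← mul_assoc, ← C_mul, inv_mul_cancel₀ l0, C_1, one_mul]

theorem f2 : S_F2 := fun L _ _ _ V c hc k ev hr => by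
  obtain ⟨M⟩ := mdl hc k
  refine M.ell_iff.2 (by_contra fun k0 => ?_)
  set z := ar V c k
  obtain ⟨q, hq⟩ := sq_of_even ev
  rw [← M.f0] at hq
  have f0 : (M.f.map V.π).eval z ≠ 0 := fun e => by
    obtain ⟨i, hi⟩ := (M.f0ev z).1 e
    exact hr i hi
  have dq : q.natDegree ≤ 4 := by
    have := (natDegree_map_le (f := V.π)).trans M.df
    rw [hq, natDegree_pow] at this
    omega
  have dA : (M.A.map V.π).natDegree ≤ c.N := natDegree_map_le.trans M.dA
  have dB : (M.B.map V.π).natDegree + 4 ≤ c.N := (Nat.add_le_add_right natDegree_map_le 4).trans M.dB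
  have dZ : (q * (C (V.π M.ε) * M.B.map V.π)).natDegree ≤ c.N :=
    natDegree_mul_le.trans (by have := natDegree_C_mul_le (V.π M.ε) (M.B.map V.π); omega)
  have E : (M.A.map V.π + q * (C (V.π M.ε) * M.B.map V.π)) *
      (M.A.map V.π - q * (C (V.π M.ε) * M.B.map V.π)) = C (V.π M.κ) * (X - C z) ^ (2 * c.N) := by
    rw [← M.eqn0, hq]
    ring
  have E0 := mul_ne_zero_iff.1 (E ▸ mul_ne_zero (C_ne_zero.2 k0) (pow_ne_zero _ (X_sub_C_ne_zero z)))
  have rm : ∀ p : ℂ[X], p ≠ 0 → rootMultiplicity z p ≤ p.natDegree := fun p hp => by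
    simpa using natDegree_le_of_dvd (pow_rootMultiplicity_dvd p z) hp
  obtain ⟨u, hu, u0⟩ := fac E0.1 z
  obtain ⟨w, hw, w0⟩ := fac E0.2 z
  have r1 := (rm _ E0.1).trans (natDegree_add_le_of_degree_le dA dZ)
  have r2 := (rm _ E0.2).trans (natDegree_sub_le_of_le dA dZ)
  generalize rootMultiplicity z (M.A.map V.π + _) = α at hu r1
  generalize rootMultiplicity z (M.A.map V.π - _) = β at hw r2
  have := cancel (z := z) (m := α + β) (n := 2 * c.N) (T := u * w) (R := C (V.π M.κ))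
    (by rw [mul_comm _ (C _), ← E, hu, hw]; ring) (by simpa using ⟨u0, w0⟩)
  obtain rfl : α = c.N := by omega
  obtain rfl : β = c.N := by omega
  obtain ⟨b, hb, b0⟩ := fac M.B0 z
  have rb := rm _ M.B0
  have e0 : V.π M.ε = 0 := by
    by_contra n
    have := cancel (z := z) (m := rootMultiplicity z (M.B.map V.π)) (n := c.N) (R := u - w)
      (T := 2 * q * C (V.π M.ε) * b) (by
        linear_combination hu - hw - 2 * q * C (V.π M.ε) * hb) (by
        rw [hq, eval_pow] at f0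
        simpa using ⟨⟨(pow_ne_zero_iff two_ne_zero).1 f0, n⟩, b0⟩)
    omega
  rw [e0, C_0, zero_mul, mul_zero, add_zero] at hu
  obtain ⟨T, hT, T0⟩ := ordW z 0 c.N (rootMultiplicity z (M.B.map V.π)) (M.f.map V.π) u b
  rw [pow_zero, one_mul, ← hu, ← hb, M.W0] at hT
  have := cancel (z := z) (n := 2 * c.N - 1 + 1) (R := M.Q.map V.π) (hT.symm.trans (by ring)) (by
    rw [T0]
    refine mul_ne_zero ?_ (mul_ne_zero (mul_ne_zero f0 u0) b0)
    norm_cast
    rw [Int.subNatNat_eq_coe]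
    omega)
  omega

end Pool.Agent.MP_8d06cc_nt.R4
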