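import Pool.Agent.MP_8d06cc_nt.R4.FO

/-! The reductions when the octic reduces to a square. -/

namespace Pool.Agent.MP_8d06cc_nt.R4.FX

open Polynomial Finset Pool.Agent.MP_8d06cc_nt.DA

noncomputable section

section pure

variable {S A B : ℂ[X]} {a : Fin 4 → ℂ} {Q : Fin 4 → ℂ[X]} {n : Fin 4 → ℤ} {m : Fin 4 → ℕ}
  {M : ℕ} {κ : ℂ}

/-- The differential attached to one point. -/
def RR (a : Fin 4 → ℂ) (Q : Fin 4 → ℂ[X]) (S : ℂ[X]) (j : Fin 4) : RatFunc ℂ :=
  io (Q j) / io (X - C (a j)) / io S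

theorem rho_eq (n : Fin 4 → ℤ) :
    io (TT a Q n) / io (SS a) / io S = ∑ j, (n j : RatFunc ℂ) * RR a Q S j := by
  rw [TT, map_sum, sum_div, sum_div]
  refine sum_congr rfl fun j _ => ?_
  have := io_ne (monic_prod_of_monic (univ.erase j) _ fun l _ => monic_X_sub_C (a l)).ne_zero
  rw [SS_eq a j, map_mul, map_mul, map_mul, map_intCast, mul_div_mul_right _ _ this, RR]
  ring

theorem k2 (H : Ok (S ^ 2) a Q n m M κ A B) (h4 : S ≠ 0) (hk : κ ≠ 0) :
    (A + B * S) * (A - B * S) = C κ * DD a m ∧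
      ∑ j, (n j : RatFunc ℂ) * RR a Q S j = ld (A + B * S) - ld (A - B * S) := by
  have e : (A + B * S) * (A - B * S) = C κ * DD a m := by linear_combination H.eqn
  have e0 := e ▸ mul_ne_zero (C_ne_zero.2 hk) (DD_monic a m).ne_zero
  refine ⟨e, ?_⟩
  have l := H.lin
  rw [← e, WW] at l
  rw [← rho_eq, ld, ld, div_sub_div _ _ (io_ne (left_ne_zero_of_mul e0))
    (io_ne (right_ne_zero_of_mul e0)), div_div, ← map_mul, ← map_mul, ← map_mul, ← map_mul,
    ← map_sub, div_eq_div_iff (io_ne (mul_ne_zero (SS_monic a).ne_zero h4)) (io_ne e0),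
    ← map_mul, ← map_mul]
  refine congrArg io ?_
  simp only [derivative_add, derivative_sub, derivative_mul, derivative_sq, map_ofNat] at l ⊢
  linear_combination -l

theorem k3 (H : Ok (S ^ 2) a Q n m M 0 A B) (hA : A ≠ 0) : ∃ ε : ℤ, ε * ε = 1 ∧
    A = ε * B * S ∧ ∀ z, Rs z (∑ j, (n j : RatFunc ℂ) * RR a Q S j)
      (ε * (2 * A.rootMultiplicity z - (DD a m).rootMultiplicity z)) := by
  obtain ⟨ε, e1, e2⟩ : ∃ ε : ℤ, ε * ε = 1 ∧ A = ε * B * S := by
    have e := H.eqn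
    rw [C_0, zero_mul, sub_eq_zero, ← mul_pow, sq_eq_sq_iff_eq_or_eq_neg] at e
    rcases e with e | e
    · exact ⟨1, rfl, by rw [e]; push_cast; ring⟩
    · exact ⟨-1, rfl, by rw [e]; push_cast; ring⟩
  refine ⟨ε, e1, e2, fun z => ?_⟩
  have d0 := (DD_monic a m).ne_zero
  have r := (((rs_ld hA z).int 2).sub (rs_ld d0 z)).int ε
  have e3 : (ε : ℂ[X]) * ε = 1 := by exact_mod_cast e1
  have s0 : S ≠ 0 := right_ne_zero_of_mul (e2 ▸ hA)
  have e : ∑ j, (n j : RatFunc ℂ) * RR a Q S j =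
      ε * (((2 : ℤ) : RatFunc ℂ) * ld A - ld (DD a m)) := by
    rw [← rho_eq, ld, ld, ← mul_div_assoc, div_sub_div _ _ (io_ne hA) (io_ne d0), div_div,
      ← mul_div_assoc, ← map_intCast io, ← map_intCast io, ← map_mul, ← map_mul, ← map_mul,
      ← map_mul, ← map_mul, ← map_sub, ← map_mul, div_eq_div_iff
        (io_ne (mul_ne_zero (SS_monic a).ne_zero s0)) (io_ne (mul_ne_zero hA d0)),
      ← map_mul, ← map_mul]
    refine congrArg io ?_
    push_cast
    linear_combination (ε : ℂ[X]) * S * H.lin2 + TT a Q n * DD a m * e2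
  rw [e]
  simpa using r

theorem DD_two {k l : Fin 4} (hkl : k ≠ l) (h : ∀ j, j ≠ k → j ≠ l → m j = 0) :
    DD a m = (X - C (a k)) ^ m k * (X - C (a l)) ^ m l :=
  Fintype.prod_eq_mul k l hkl fun j hj => by rw [h j hj.1 hj.2, pow_zero]

theorem nrm {x y x' y' s t : ℝ} {i j i' j' : ℕ} (hx : 0 < x) (hy : 0 < y) (hx' : 0 < x')
    (hy' : 0 < y') (hs : 0 < s) (ht : 0 < t) (e : i + j = i' + j') (u : i ≠ i')
    (h : s * (x ^ i * y ^ j) = t * (x ^ i' * y ^ j'))
    (h' : s * (x' ^ i * y' ^ j) = t * (x' ^ i' * y' ^ j')) : x * y' = x' * y := by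
  replace h := congrArg Real.log h
  replace h' := congrArg Real.log h'
  have e' : (i : ℝ) + j = i' + j' := by exact_mod_cast e
  rw [Real.log_mul hs.ne' (by positivity), Real.log_mul ht.ne' (by positivity),
    Real.log_mul (by positivity) (by positivity), Real.log_mul (by positivity) (by positivity),
    Real.log_pow, Real.log_pow, Real.log_pow, Real.log_pow] at h h'
  refine Real.log_injOn_pos (mul_pos hx hy') (mul_pos hx' hy) ?_
  rw [Real.log_mul hx.ne' hy'.ne', Real.log_mul hx'.ne' hy.ne']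
  refine mul_left_cancel₀ (sub_ne_zero.2 ((Nat.cast_injective (R := ℝ)).ne u)) ?_
  linear_combination h - h' - (Real.log y - Real.log y') * e'

/-- A function with divisor on two points. -/
theorem two_pts (H : Ok (S ^ 2) a Q n m M κ A B) (h4 : S ≠ 0) (d4 : S.natDegree ≤ 4) (hk : κ ≠ 0)
    {k l : Fin 4} (hkl : a k ≠ a l) (h : ∀ j, j ≠ k → j ≠ l → m j = 0) {r : ℂ} (r0 : r ≠ 0)
    (hr : Rs (a k) (∑ j, (n j : RatFunc ℂ) * RR a Q S j) r) :
    (∃ w : ℂ, w ≠ 0 ∧ (∑ j, (n j : RatFunc ℂ) * RR a Q S j) * io ((X - C (a k)) * (X - C (a l))) =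
      io (C w)) ∧ ∀ z, S.eval z = 0 → z ≠ a k → z ≠ a l → S.rootMultiplicity z ≤ 1 ∧
        ∀ w, S.eval w = 0 → w ≠ a k → w ≠ a l →
          ‖z - a k‖ * ‖w - a l‖ = ‖w - a k‖ * ‖z - a l‖ := by
  obtain ⟨e, e'⟩ := k2 H h4 hk
  have hs := H.sum
  have kl : k ≠ l := fun q => hkl (q ▸ rfl)
  rw [Fintype.sum_eq_add k l kl fun j hj => h j hj.1 hj.2] at hs
  rw [DD_two kl h] at e
  obtain ⟨s, i, j, s0, hP⟩ := fac hk (Dvd.intro _ e)
  obtain ⟨t, i', j', t0, hP'⟩ := fac hk (Dvd.intro_left _ e)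
  have dg : ∀ {u : ℂ} (p q : ℕ), u ≠ 0 →
      (C u * ((X - C (a k)) ^ p * (X - C (a l)) ^ q)).natDegree = p + q := fun p q hu => by
    rw [natDegree_C_mul hu, natDegree_mul (pow_ne_zero _ (X_sub_C_ne_zero _))
      (pow_ne_zero _ (X_sub_C_ne_zero _))]
    simp
  have ne : ∀ {u : ℂ} (p q : ℕ) {z : ℂ}, u ≠ 0 → z ≠ a k → z ≠ a l →
      (C u * ((X - C (a k)) ^ p * (X - C (a l)) ^ q)).eval z ≠ 0 := fun p q z hu h1 h2 => by
    simp [hu, sub_eq_zero, h1, h2]
  have n0 : ∀ {u : ℂ} (p q : ℕ), u ≠ 0 → C u * ((X - C (a k)) ^ p * (X - C (a l)) ^ q) ≠ 0 :=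
    fun p q hu => mul_ne_zero (C_ne_zero.2 hu)
      (mul_ne_zero (pow_ne_zero _ (X_sub_C_ne_zero _)) (pow_ne_zero _ (X_sub_C_ne_zero _)))
  have dB : (B * S).natDegree ≤ M := by
    by_cases b : B = 0
    · simp [b]
    have d := H.dB
    rw [degree_eq_natDegree b] at d
    have : B.natDegree + 4 ≤ M := by exact_mod_cast d
    exact natDegree_mul_le.trans (by omega)
  have dA := natDegree_le_of_degree_le H.dA
  have d1 := (natDegree_add_le A (B * S)).trans (max_le dA dB)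
  have d2 := (natDegree_sub_le A (B * S)).trans (max_le dA dB)
  have d3 := congrArg natDegree e
  rw [natDegree_mul (hP ▸ n0 _ _ s0) (hP' ▸ n0 _ _ t0), dg _ _ hk, hP, hP', dg _ _ s0,
    dg _ _ t0] at d3
  rw [hP, dg _ _ s0] at d1
  rw [hP', dg _ _ t0] at d2
  have ij : i + j = i' + j' := by omega
  have ij' : (i : ℂ[X]) + j = i' + j' := by exact_mod_cast ij
  have E : (derivative (A + B * S) * (A - B * S) - (A + B * S) * derivative (A - B * S)) *
      ((X - C (a k)) * (X - C (a l))) =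
      C ((i - i') * (a k - a l)) * ((A + B * S) * (A - B * S)) := by
    have h1 := der_fac s (a k) (a l) i j
    have h2 := der_fac t (a k) (a l) i' j'
    rw [← hP] at h1
    rw [← hP'] at h2
    simp only [C_mul, C_sub, map_natCast]
    linear_combination (A - B * S) * h1 - (A + B * S) * h2 +
      (A + B * S) * (A - B * S) * (X - C (a k)) * ij'
  have p1 := io_ne (hP ▸ n0 i j s0)
  have p2 := io_ne (hP' ▸ n0 i' j' t0)
  have R : (∑ j, (n j : RatFunc ℂ) * RR a Q S j) * io ((X - C (a k)) * (X - C (a l))) =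
      io (C ((i - i') * (a k - a l))) := by
    rw [e', ld, ld, div_sub_div _ _ p1 p2, div_mul_eq_mul_div, div_eq_iff (mul_ne_zero p1 p2),
      ← map_mul, ← map_mul, ← map_mul, ← map_sub, ← map_mul, ← map_mul, E]
  have w0 : ((i : ℂ) - i') * (a k - a l) ≠ 0 := fun q => r0 (hr.uniq
    ⟨_, X - C (a l), by simpa [sub_eq_zero] using hkl, by simp [q], R⟩)
  refine ⟨⟨_, w0, R⟩, fun z hz h1 h2 => ⟨?_, fun w hw h3 h4 => ?_⟩⟩
  · by_contra! q
    obtain ⟨G, hG⟩ := (le_rootMultiplicity_iff h4).1 q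
    have := congrArg (eval z) E
    rw [eval_mul (p := C _), eval_mul (p := A + _), eval_C] at this
    refine mul_ne_zero w0 (mul_ne_zero (hP ▸ ne i j s0 h1 h2) (hP' ▸ ne i' j' t0 h1 h2))
      (this.symm.trans ?_)
    simp [hG, derivative_sq, mul_comm (eval z A)]
  · have v : ∀ z, S.eval z = 0 → ‖s‖ * (‖z - a k‖ ^ i * ‖z - a l‖ ^ j) =
        ‖t‖ * (‖z - a k‖ ^ i' * ‖z - a l‖ ^ j') := fun z hz => by
      have e1 := congrArg (fun p => ‖eval z p‖) hP
      have e2 := congrArg (fun p => ‖eval z p‖) hP'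
      simp [hz] at e1 e2
      rw [← e1, ← e2]
    exact nrm (by simpa [sub_eq_zero]) (by simpa [sub_eq_zero]) (by simpa [sub_eq_zero])
      (by simpa [sub_eq_zero]) (by simpa) (by simpa) ij (fun q => w0 (by simp [q])) (v z hz)
      (v w hw)

end pure

variable {L : Type} [Field L] {V : VF L} {c : Dat L} (h : Int V c) {k m : Fin 4} {S : ℂ[X]}

theorem mm_single (k : Fin 4) : mm c (Pi.single k 1) = Pi.single k (2 * c.N) := funext fun j => by
  by_cases e : j = k <;> simp [mm, e]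

theorem sq_ne (hS : S ^ 2 = fr V c) : S ≠ 0 := fun e => fr_ne (by rw [← hS, e]; simp)

theorem sq_deg (hS : S ^ 2 = fr V c) : S.natDegree ≤ 4 := by
  have e := congrArg natDegree hS
  have : (fr V c).natDegree ≤ 8 := (natDegree_prod_le _ _).trans (by simp)
  rw [natDegree_pow] at e
  omega

theorem sq_root (hS : S ^ 2 = fr V c) (i : Fin 8) : S.eval (xr V c i) = 0 := by
  refine pow_eq_zero_iff two_ne_zero |>.1 ?_
  rw [← eval_pow, hS, fr, eval_prod]
  exact prod_eq_zero (mem_univ i) (by simp)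

theorem sq_ord (hS : S ^ 2 = fr V c) (z : ℂ) : sz (xr V c) z = 2 * S.rootMultiplicity z := by
  rw [← rm_pow (sq_ne hS), hS, fr, rm_prod]

variable [IsAlgClosed L]

include h in
theorem even_of (hk : ell V c k) (z : ℂ) : Even (sz (xr V c) z) := by
  obtain ⟨φ⟩ := nf h (Pi.single k 1)
  have e := φ.okC.eqn
  rw [not_not.1 (mt φ.iff.2 hk)] at e
  obtain ⟨a, b⟩ := red_ne fr_ne e φ.prim
  rw [C_0, zero_mul, sub_eq_zero] at e
  have := congrArg (rootMultiplicity z) e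
  rw [rm_pow a, rm_mul fr_ne (pow_ne_zero _ b), rm_pow b, fr, rm_prod] at this
  exact ⟨_, show _ = (rootMultiplicity z (φ.A.map V.π) - rootMultiplicity z (φ.B.map V.π)) + _
    by omega⟩

/-- One point with `l ≠ 0`. -/
theorem one (hk : ell V c k) (hS : S ^ 2 = fr V c) : ∃ (ε : ℤ) (A B : ℂ[X]), ε * ε = 1 ∧ A ≠ 0 ∧
    A.natDegree ≤ c.N ∧ A = ε * B * S ∧
    B * qr h k = 2 * derivative A * (X - C (ar V c k)) - ((2 * c.N : ℕ) : ℂ[X]) * A ∧
    ∀ z, Rs z (RR (ar V c) (qr h) S k) (ε * (2 * A.rootMultiplicity z -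
      ((X - C (ar V c k)) ^ (2 * c.N)).rootMultiplicity z)) := by
  obtain ⟨φ⟩ := nf h (Pi.single k 1)
  have H := φ.okC
  rw [not_not.1 (mt φ.iff.2 hk), mm_single] at H
  have a := (red_ne fr_ne H.eqn φ.prim).1
  rw [← hS] at H
  obtain ⟨ε, e1, e2, e3⟩ := k3 H a
  refine ⟨ε, _, _, e1, a, ?_, e2, ?_, fun z => ?_⟩
  · have := H.sum
    have := natDegree_le_of_degree_le H.dA
    simp only [sum_pi_single', mem_univ, if_true] at *
    omega
  · have l := H.lin2
    rw [DD_single, TT_single, SS_eq _ k] at l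
    refine mul_left_cancel₀ (mul_ne_zero (pow_ne_zero (2 * c.N) (X_sub_C_ne_zero (ar V c k)))
      (monic_prod_of_monic (univ.erase k) _ fun l _ => monic_X_sub_C (ar V c l)).ne_zero) ?_
    push_cast at l
    linear_combination l - (∏ l ∈ univ.erase k, (X - C (ar V c l))) * φ.A.map V.π *
      der_pow (ar V c k) (2 * c.N)
  · have := e3 z
    rwa [Fintype.sum_eq_single k fun l hl => by simp [hl], Pi.single_eq_same, Int.cast_one,
      one_mul, DD_single] at this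

theorem rm_off {z a : ℂ} (e : z ≠ a) (j : ℕ) : ((X - C a) ^ j).rootMultiplicity z = 0 :=
  rm_zero (by simp [sub_eq_zero, e])

/-- Two points with `l ≠ 0` and a class of roots free of both. -/
theorem two (hkm : k ≠ m) (hk : ell V c k) (hm : ell V c m) (hS : S ^ 2 = fr V c) {i : Fin 8}
    (ik : xr V c i ≠ ar V c k) (im : xr V c i ≠ ar V c m) :
    ∃ (n : Fin 4 → ℤ) (φ : Nf h n) (r : ℂ), n k ≠ 0 ∧ n m ≠ 0 ∧ (∀ j, j ≠ k → j ≠ m → n j = 0) ∧
      V.π φ.κ ≠ 0 ∧ r ≠ 0 ∧ (ar V c k ≠ ar V c m →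
        Rs (ar V c k) (∑ j, (n j : RatFunc ℂ) * RR (ar V c) (qr h) S j) r) := by
  obtain ⟨ε, A, B, e1, a0, dA, e2, -, r⟩ := one h hk hS
  obtain ⟨ε', A', B', e1', a0', -, e2', -, r'⟩ := one h hm hS
  have rt : ∀ {A B : ℂ[X]}, A = B * S → A.eval (xr V c i) = 0 := fun e => by
    rw [e, eval_mul, sq_root hS, mul_zero]
  have p := ((rootMultiplicity_pos a0).2 (rt e2)).ne'
  have q := ((rootMultiplicity_pos a0').2 (rt e2')).ne'
  have o := rm_lt a0 (rt e2) ik
  have ε0 : ε ≠ 0 := left_ne_zero_of_mul_eq_one e1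
  have ε0' : ε' ≠ 0 := left_ne_zero_of_mul_eq_one e1'
  have c1 : (ε : ℂ) * ε = 1 := by exact_mod_cast e1
  have c1' : (ε' : ℂ) * ε' = 1 := by exact_mod_cast e1'
  have r1 := r (xr V c i)
  have r1' := r' (xr V c i)
  rw [rm_off ik] at r1
  rw [rm_off im] at r1'
  generalize A.rootMultiplicity (xr V c i) = p' at *
  generalize A'.rootMultiplicity (xr V c i) = q' at *
  obtain ⟨n, n1, n2, n3⟩ : ∃ n : Fin 4 → ℤ, n k = ε * q' ∧ n m = -(ε' * p') ∧
      ∀ j, j ≠ k → j ≠ m → n j = 0 :=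
    ⟨Pi.single k (ε * q') + Pi.single m (-(ε' * p')), by simp [hkm], by simp [hkm.symm],
      fun j h1 h2 => by simp [h1, h2]⟩
  have sm : ∀ {z s t : ℂ}, Rs z (RR (ar V c) (qr h) S k) s → Rs z (RR (ar V c) (qr h) S m) t →
      Rs z (∑ j, (n j : RatFunc ℂ) * RR (ar V c) (qr h) S j) (n k * s + n m * t) :=
    fun h1 h2 => by
      rw [Fintype.sum_eq_add k m hkm fun j hj => by rw [n3 j hj.1 hj.2, Int.cast_zero, zero_mul]]
      exact (h1.int _).add (h2.int _)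
  obtain ⟨φ⟩ := nf h n
  refine ⟨n, φ, ((q' * (2 * A.rootMultiplicity (ar V c k) - 2 * c.N) -
    2 * p' * A'.rootMultiplicity (ar V c k) : ℤ) : ℂ), by simp [n1, ε0, q], by simp [n2, ε0', p],
    n3, fun z => ?_, Int.cast_ne_zero.2 (ne_of_lt ?_), fun e => ?_⟩
  · have H := φ.okC
    rw [z] at H
    have a := (red_ne fr_ne H.eqn φ.prim).1
    rw [← hS] at H
    obtain ⟨δ, d1, d2, d3⟩ := k3 H a
    have u := (d3 (xr V c i)).uniq (sm r1 r1')
    rw [DD_two hkm fun j h1 h2 => not_not.1 (mt mm_ne.1 (not_not.2 (n3 j h1 h2))),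
      rm_mul (pow_ne_zero _ (X_sub_C_ne_zero _)) (pow_ne_zero _ (X_sub_C_ne_zero _)), rm_off ik,
      rm_off im, n1, n2] at u
    push_cast at u
    refine mul_ne_zero (Int.cast_ne_zero.2 (left_ne_zero_of_mul_eq_one d1)) (Nat.cast_ne_zero.2
      ((rootMultiplicity_pos a).2 (rt d2)).ne') (mul_left_cancel₀ (two_ne_zero (α := ℂ)) ?_)
    linear_combination u + 2 * p' * q' * c1 - 2 * p' * q' * c1'
  · have : (0 : ℤ) < q' := by exact_mod_cast Nat.pos_of_ne_zero q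
    have : (A.rootMultiplicity (ar V c k) : ℤ) < c.N := by exact_mod_cast o.trans_le dA
    nlinarith [mul_nonneg (Nat.cast_nonneg (α := ℤ) p')
      (Nat.cast_nonneg (α := ℤ) (A'.rootMultiplicity (ar V c k)))]
  · have u := sm (r (ar V c k)) (r' (ar V c k))
    rw [rm_off e, rootMultiplicity_X_sub_C_pow, n1, n2] at u
    refine Eq.subst (motive := Rs _ _) ?_ u
    push_cast
    linear_combination q' * (2 * A.rootMultiplicity (ar V c k) - 2 * c.N) * c1 -
      2 * p' * A'.rootMultiplicity (ar V c k) * c1'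

/-- The linear relation between the two reduced cubics. -/
theorem rel (hk : ell V c k) (hm : ell V c m) (e : ar V c k ≠ ar V c m) (hS : S ^ 2 = fr V c)
    {i : Fin 8} (ik : xr V c i ≠ ar V c k) (im : xr V c i ≠ ar V c m) :
    (∃ (α β : ℤ) (w : ℂ), α ≠ 0 ∧ β ≠ 0 ∧ w ≠ 0 ∧
      (α : ℂ[X]) * qr h k * (X - C (ar V c m)) + (β : ℂ[X]) * qr h m * (X - C (ar V c k)) =
        C w * S) ∧
    ∀ z, S.eval z = 0 → z ≠ ar V c k → z ≠ ar V c m → S.rootMultiplicity z ≤ 1 ∧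
      ∀ w, S.eval w = 0 → w ≠ ar V c k → w ≠ ar V c m →
        ‖z - ar V c k‖ * ‖w - ar V c m‖ = ‖w - ar V c k‖ * ‖z - ar V c m‖ := by
  have hkm : k ≠ m := fun q => e (q ▸ rfl)
  obtain ⟨n, φ, r, n1, n2, n3, k0, r0, hr⟩ := two h hkm hk hm hS ik im
  have H := φ.okC
  rw [← hS] at H
  obtain ⟨⟨w, w0, hw⟩, q⟩ := two_pts H (sq_ne hS) (sq_deg hS) k0 e
    (fun j h1 h2 => not_not.1 (mt mm_ne.1 (not_not.2 (n3 j h1 h2)))) r0 (hr e)
  refine ⟨⟨_, _, w, n1, n2, w0, io_inj ?_⟩, q⟩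
  rw [Fintype.sum_eq_add k m hkm fun j hj => by rw [n3 j hj.1 hj.2, Int.cast_zero, zero_mul]] at hw
  have := io_ne (sq_ne hS)
  have := io_ne (X_sub_C_ne_zero (ar V c k))
  have := io_ne (X_sub_C_ne_zero (ar V c m))
  rw [map_mul _ (C w), ← hw, RR, RR]
  simp only [map_add, map_mul, map_intCast]
  field_simp

end

end Pool.Agent.MP_8d06cc_nt.R4.FX

namespace Pool.Agent.MP_8d06cc_nt.R4

open Polynomial FX

theorem f1 : S_F1 := fun _ _ _ _ _ _ h _ hk => even_of h hk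

theorem g1 : S_G1 := by
  intro L _ _ _ V c h k m i hkm hk hm ik im
  obtain ⟨S, hS⟩ := ex_sqrt (even_of h hk)
  obtain ⟨n, φ, -, n1, n2, n3, k0, -⟩ := two h hkm hk hm hS ik im
  exact ⟨n, n1, n2, n3, φ.lz k0⟩

theorem f5a : S_F5a := by
  intro L _ _ _ V c h k m hk hm e i ik im
  obtain ⟨S, hS⟩ := ex_sqrt (even_of h hk)
  obtain ⟨a, b⟩ := (rel h hk hm e hS ik im).2 _ (sq_root hS i) ik im
  refine ⟨?_, fun j jk jm => b _ (sq_root hS j) jk jm⟩
  have := (rootMultiplicity_pos (sq_ne hS)).2 (sq_root hS i)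
  rw [sq_ord hS]
  omega

end Pool.Agent.MP_8d06cc_nt.R4
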