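import Pool.Agent.MP_8d06cc_nt.R4.F5r
import Pool.Agent.MP_8d06cc_nt.R4.FP
import Pool.Agent.MP_8d06cc_nt.R4.F234
import Pool.Agent.MP_8d06cc_nt.R4.Asm
import Pool.Agent.MP_8d06cc_nt.ST.Star

/-! Block R4. -/

namespace Pool.Agent.MP_8d06cc_nt.R4

open Polynomial FX

theorem hrel : HRel := by
  intro L _ _ _ V c h k m i hk hm e ik im
  obtain ⟨S, hS⟩ := ex_sqrt (even_of h hk)
  obtain ⟨α, β, w, ha, hb, -, hr⟩ := (rel h hk hm e hS ik im).1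
  obtain ⟨q, q1, q2⟩ := F5r.lift_q h k
  obtain ⟨q', q1', q2'⟩ := F5r.lift_q h m
  have n0 : (2 * c.N : ℂ) ≠ 0 := mul_ne_zero two_ne_zero (Nat.cast_ne_zero.2 (c.ok k).pos.ne')
  refine ⟨q, q', S, α * (2 * c.N), β * (2 * c.N), w, q1, q1', hS,
    mul_ne_zero (Int.cast_ne_zero.2 ha) n0, mul_ne_zero (Int.cast_ne_zero.2 hb) n0, ?_⟩
  rw [← hr, ← q2, ← q2', C_mul (a := (α : ℂ)), C_mul (a := (β : ℂ)), map_intCast, map_intCast]
  ring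

theorem f5c : S_F5c := f5c_of hrel

theorem stmtR4 : AB.StmtR4 := asm max br f0 f1 f2 (f3 f0) f4 f5a f5c g1 ST.star

end Pool.Agent.MP_8d06cc_nt.R4
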