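import Pool.Agent.MP_8d06cc_nt.R4.Comb2

/-! The combinatorial core: the last chart. -/

namespace Pool.Agent.MP_8d06cc_nt.R4

open Finset

namespace Cx

variable {Ch : Type} {K : Comb Ch}

lemma last {k₁ k₂ : Fin 4} (hk : k₁ ≠ k₂) (hl : K.lk k₁ k₂) : False := by
  have hl' := K.symm _ _ hk hl
  obtain ⟨Z₁, R₁⟩ := K.f7z k₁
  obtain ⟨Z₂, R₂⟩ := K.f7z k₂
  change R K Z₁ k₁ at R₁
  change R K Z₂ k₂ at R₂
  have T₁ := d2 R₁ hk.symm hl'
  have T₂ := d2 R₂ hk hl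
  obtain ⟨l₁₂, s₁, -, -⟩ := lemA R₁ hk.symm hl'
  obtain ⟨l₂₁, s₂, -, -⟩ := lemA R₂ hk hl
  have hP := lemP hk R₁ R₂ s₁ s₂ T₁ T₂
  obtain ⟨i₀, hi₀⟩ := ex_out (x := K.x Z₂) (z := K.A Z₂ k₁) (by rw [T₂.1]; norm_num)
  obtain ⟨c, X1, j, hj, j', hj', X2⟩ := K.f7x i₀ (cls (K.x Z₂) (K.A Z₂ k₁))
    (fun h => hi₀ (mem_cls.1 h)) (by rw [← sz_eq, T₂.1]; norm_num)
  have hd : ∃ i j, K.x c i ≠ K.x c j := ⟨j, j', X2⟩
  have n1 := (X1 j hj).symm
  have n2 := (X1 j' hj').symm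
  have no2 : ∀ z, ¬ Two (K.x c) z := fun z h => h.no3 n1 n2 X2
  -- comparison with the chart of the second point
  obtain ⟨D₂, -, a1, -, a3, -, a5⟩ := cmp R₂ hd fun hs =>
    X2 ((hs.1 j j').2 ((mem_cls.1 hj).trans (mem_cls.1 hj').symm))
  have eD₂ : D₂ = K.A Z₂ k₁ := by
    by_contra hne
    exact X2 (((a1 j).resolve_right fun e => hne (e.symm.trans (mem_cls.1 hj))).trans
      ((a1 j').resolve_right fun e => hne (e.symm.trans (mem_cls.1 hj'))).symm)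
  subst eD₂
  have hi₀' : K.x c i₀ = K.A c k₂ := (a1 i₀).resolve_right hi₀
  have cl2 : cls (K.x c) (K.A c k₂) = out (K.x Z₂) (K.A Z₂ k₁) := by
    ext i
    rw [mem_cls, mem_out]
    exact ⟨fun h e => X1 i (mem_cls.2 e) (h.trans hi₀'.symm), fun h => (a1 i).resolve_right h⟩
  have sz2 : sz (K.x c) (K.A c k₂) = 2 := by rw [sz_eq, cl2, T₂.card]
  -- comparison with the chart of the first point
  obtain ⟨D₁, -, b1, -, b3, -, -⟩ := cmp R₁ hd fun hs =>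
    T₁.no3 (i := i₀) (j := j) (k := j') (fun e => n1 ((hs.1 _ _).2 e))
      (fun e => n2 ((hs.1 _ _).2 e)) fun e => X2 ((hs.1 _ _).2 e)
  have eD₁ : D₁ = K.A Z₁ k₂ := by
    by_contra hne
    have h6 : ∀ i ∈ cls (K.x Z₁) (K.A Z₁ k₂), K.x c i = K.A c k₁ :=
      fun i hi => (b1 i).resolve_right fun e => hne (e.symm.trans (mem_cls.1 hi))
    have hm : i₀ ∈ cls (K.x Z₁) (K.A Z₁ k₂) := by
      refine mem_cls.2 ?_
      by_contra hx
      exact disjoint_left.1 hP (mem_out.2 hx) (mem_out.2 hi₀)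
    have h7 := le_sz h6
    rw [← sz_eq, T₁.1, ← h6 i₀ hm, hi₀', sz2] at h7
    omega
  subst eD₁
  obtain ⟨i₁, hi₁⟩ := ex_out (x := K.x Z₁) (z := K.A Z₁ k₂) (by rw [T₁.1]; norm_num)
  have hi₁' : K.x c i₁ = K.A c k₁ := (b1 i₁).resolve_right hi₁
  have A12 : K.A c k₁ ≠ K.A c k₂ := fun e => by
    have : i₁ ∈ out (K.x Z₂) (K.A Z₂ k₁) := by rw [← cl2]; exact mem_cls.2 (hi₁'.trans e)
    exact disjoint_left.1 hP (mem_out.2 hi₁) this
  have l1 : K.l c k₁ := a3 k₁ A12 l₂₁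
  have l2 : K.l c k₂ := b3 k₂ A12.symm l₁₂
  have lall := K.f5c c k₁ k₂ l1 l2 A12 i₀ j j' n1 n2 X2
  have sc := K.f1 c k₁ l1
  have root : ∀ m, ∃ i, K.x c i = K.A c m := fun m => by
    by_contra hx
    have hR : R K c m := ⟨fun i e => hx ⟨i, e⟩, hd⟩
    have hm : k₁ ≠ m := fun e => hx ⟨i₁, e ▸ hi₁'⟩
    exact no2 _ (d2 hR hm ((K.f3 c k₁ m hm hR.1).2 l1))
  have split : ∀ m c₂, R K c₂ m → ∀ w, Even (sz (K.x c₂) w) := fun m c₂ h₂ => by
    obtain ⟨D, ⟨i, hi⟩, -, -, -, e5, -⟩ := cmp h₂ hd (nsame h₂ (root m))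
    exact K.f1 c₂ m (e5 m (fun e => h₂.1 i (hi.trans e.symm)) (lall m))
  have U : ∀ m n, m ≠ n → sz (K.x c) (K.A c m) ≤ 2 → K.A c m ≠ K.A c n :=
    fun m n hmn h => lemU hmn hd (fun k c₂ _ h₂ => split k c₂ h₂) h
  have s5 : ¬ 5 ≤ sz (K.x c) (K.A c k₁) := fun h => no2 _ (two_of sc hd h)
  have se := Nat.even_iff.1 (sc (K.A c k₁))
  have sp := sz_pos hi₁'
  by_cases s4 : sz (K.x c) (K.A c k₁) = 4
  · have key : ∀ m, m ≠ k₂ → ∀ c₂, R K c₂ m → Two (K.x c₂) (K.A c₂ k₂) ∧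
        out (K.x c₂) (K.A c₂ k₂) ⊆ cls (K.x c) (K.A c k₁) := by
      intro m hm c₂ h₂
      have m2 : K.A c m ≠ K.A c k₂ := (U k₂ m hm.symm sz2.le).symm
      have m1 : K.A c m = K.A c k₁ := by
        by_contra hne
        have := (K.f5a c m k₂ (lall m) l2 m2 i₁ (fun e => hne (e.symm.trans hi₁'))
          (fun e => A12 (hi₁'.symm.trans e))).1
        rw [hi₁'] at this
        omega
      have lm : K.l Z₂ m := by
        by_cases e : k₁ = m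
        · exact e ▸ l₂₁
        · exact K.g2 Z₂ k₁ m e (a5 k₁ m A12 m2 (K.g1 c k₁ m i₀ e l1 (lall m)
            (fun e' => A12 (e'.symm.trans hi₀')) fun e' => m2 (e'.symm.trans hi₀'))) l₂₁
      have lk2 := K.symm m k₂ hm ((K.f3 Z₂ m k₂ hm R₂.1).2 lm)
      obtain ⟨D, -, e1, e2, -⟩ := cmp h₂ hd (nsame h₂ (root m))
      have eD : K.A c₂ k₂ = D := (e2 k₂).resolve_left m2.symm
      refine ⟨d2 h₂ hm.symm lk2, fun i hi => mem_cls.2 ?_⟩
      exact ((e1 i).resolve_right fun e => mem_out.1 hi (e.trans eD.symm)).trans m1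
    obtain ⟨a, b, d, ha, hb, hd', hab, had, hbd⟩ := others k₂
    obtain ⟨ca, Ra⟩ := K.f7z a
    obtain ⟨cb, Rb⟩ := K.f7z b
    obtain ⟨cd, Rd⟩ := K.f7z d
    obtain ⟨ta, oa⟩ := key a ha ca Ra
    obtain ⟨tb, ob⟩ := key b hb cb Rb
    obtain ⟨td, od⟩ := key d hd' cd Rd
    have := pairs3 ta.card tb.card td.card oa ob od
      (lemP (K := K) hab Ra Rb (split a ca Ra) (split b cb Rb) ta tb)
      (lemP (K := K) had Ra Rd (split a ca Ra) (split d cd Rd) ta td)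
      (lemP (K := K) hbd Rb Rd (split b cb Rb) (split d cd Rd) tb td)
    rw [← sz_eq] at this
    omega
  have all2 : ∀ m, sz (K.x c) (K.A c m) = 2 := fun m => by
    obtain ⟨i, hi⟩ := root m
    by_cases e1 : K.x c i = K.A c k₁
    · rw [← hi, e1]; omega
    by_cases e2 : K.x c i = K.A c k₂
    · rw [← hi, e2, sz2]
    rw [← hi]
    exact (K.f5a c k₁ k₂ l1 l2 A12 i e1 e2).1
  have two : ∀ m, ∃ i i', i ≠ i' ∧ K.x c i = K.A c m ∧ K.x c i' = K.A c m := fun m => by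
    obtain ⟨i, hi, i', hi', hne⟩ :=
      one_lt_card.1 (show 1 < (cls (K.x c) (K.A c m)).card by rw [← sz_eq, all2]; norm_num)
    exact ⟨i, i', hne, mem_cls.1 hi, mem_cls.1 hi'⟩
  choose i i' hne hi hi' using two
  refine K.star c i i' hne hi hi' (fun m n e => ?_) lall fun m => ?_
  · by_contra hmn
    exact U m n hmn (all2 m).le e
  · obtain ⟨c₂, h₂⟩ := K.f7z m
    change R K c₂ m at h₂
    obtain ⟨D, hT, ho⟩ := lemT h₂ (split m c₂ h₂) hd (root m) (all2 m).le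
    have o1 : K.x c₂ (i m) ≠ D := mem_out.1 (by rw [ho]; exact mem_cls.2 (hi m))
    have o2 : K.x c₂ (i' m) ≠ D := mem_out.1 (by rw [ho]; exact mem_cls.2 (hi' m))
    obtain ⟨n, hn⟩ := ex_out (x := K.x c) (z := K.A c m) (by rw [all2]; norm_num)
    have o3 : K.x c₂ n = D := by
      by_contra hx
      have : n ∈ cls (K.x c) (K.A c m) := by rw [← ho]; exact mem_out.2 hx
      exact hn (mem_cls.1 this)
    exact K.cr c c₂ (i m) (i' m) n m (hT.2 _ _ o1 o2) (fun e => o2 (e.trans o3))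
      (h₂.1 _).symm hn.symm

end Cx

theorem comb : S_COMB := fun _ _ _ _ hk hl => Cx.last hk hl

end Pool.Agent.MP_8d06cc_nt.R4
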