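import Pool.Agent.MP_8d06cc_nt.R4.Defs

/-! Counting and plane geometry used in the combinatorial core. -/

namespace Pool.Agent.MP_8d06cc_nt.R4.Cx

open Finset

noncomputable section

open Classical in
def cls (x : Fin 8 → ℂ) (z : ℂ) : Finset (Fin 8) := univ.filter fun i => x i = z

open Classical in
def out (x : Fin 8 → ℂ) (z : ℂ) : Finset (Fin 8) := univ.filter fun i => ¬ x i = z

lemma sz_eq (x : Fin 8 → ℂ) (z : ℂ) : sz x z = (cls x z).card := rfl

@[simp] lemma mem_cls {x : Fin 8 → ℂ} {z : ℂ} {i : Fin 8} : i ∈ cls x z ↔ x i = z := by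
  simp [cls]

@[simp] lemma mem_out {x : Fin 8 → ℂ} {z : ℂ} {i : Fin 8} : i ∈ out x z ↔ x i ≠ z := by
  simp [out]

lemma card_out (x : Fin 8 → ℂ) (z : ℂ) : sz x z + (out x z).card = 8 := by
  classical
  have h : (cls x z).card + (out x z).card = (univ : Finset (Fin 8)).card :=
    card_filter_add_card_filter_not _
  simpa [sz_eq] using h

lemma le_sz {x : Fin 8 → ℂ} {z : ℂ} {S : Finset (Fin 8)} (h : ∀ i ∈ S, x i = z) :
    S.card ≤ sz x z := card_le_card fun i hi => mem_cls.2 (h i hi)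

lemma sz_pos {x : Fin 8 → ℂ} {z : ℂ} {i : Fin 8} (h : x i = z) : 0 < sz x z :=
  card_pos.2 ⟨i, mem_cls.2 h⟩

lemma ex_in {x : Fin 8 → ℂ} {z : ℂ} (h : 0 < sz x z) : ∃ i, x i = z := by
  obtain ⟨i, hi⟩ := card_pos.1 h
  exact ⟨i, mem_cls.1 hi⟩

lemma ex_out {x : Fin 8 → ℂ} {z : ℂ} (h : sz x z < 8) : ∃ i, x i ≠ z := by
  have := card_out x z
  obtain ⟨i, hi⟩ := card_pos.1 (show 0 < (out x z).card by omega)
  exact ⟨i, mem_out.1 hi⟩

lemma lt8 {x : Fin 8 → ℂ} (z : ℂ) (h : ∃ i j, x i ≠ x j) : sz x z < 8 := by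
  obtain ⟨i, j, hij⟩ := h
  have := card_out x z
  have hp : 0 < (out x z).card := by
    by_cases hi : x i = z
    · exact card_pos.2 ⟨j, mem_out.2 fun hj => hij (hi.trans hj.symm)⟩
    · exact card_pos.2 ⟨i, mem_out.2 hi⟩
  omega

/-- an index outside three classes of total size below eight -/
lemma ex_out3 {x : Fin 8 → ℂ} {a b c : ℂ} (h : sz x a + sz x b + sz x c < 8) :
    ∃ i, x i ≠ a ∧ x i ≠ b ∧ x i ≠ c := by
  classical
  by_contra hn
  have hs : (univ : Finset (Fin 8)) ⊆ cls x a ∪ cls x b ∪ cls x c := by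
    intro i _
    simp only [mem_union, mem_cls]
    by_contra h'
    simp only [not_or] at h'
    exact hn ⟨i, h'.1.1, h'.1.2, h'.2⟩
  have h1 := card_le_card hs
  have h2 := card_union_le (cls x a ∪ cls x b) (cls x c)
  have h3 := card_union_le (cls x a) (cls x b)
  simp only [card_univ, Fintype.card_fin] at h1
  simp only [sz_eq] at h
  omega

lemma ex_out2 {x : Fin 8 → ℂ} {a b : ℂ} (h : sz x a + sz x b < 8) :
    ∃ i, x i ≠ a ∧ x i ≠ b := by
  classical
  by_contra hn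
  have hs : (univ : Finset (Fin 8)) ⊆ cls x a ∪ cls x b := by
    intro i _
    simp only [mem_union, mem_cls]
    by_contra h'
    simp only [not_or] at h'
    exact hn ⟨i, h'.1, h'.2⟩
  have h1 := card_le_card hs
  have h3 := card_union_le (cls x a) (cls x b)
  simp only [card_univ, Fintype.card_fin] at h1
  simp only [sz_eq] at h
  omega

/-- three different classes -/
lemma sum3 {x : Fin 8 → ℂ} {a b c : ℂ} (hab : a ≠ b) (hac : a ≠ c) (hbc : b ≠ c) :
    sz x a + sz x b + sz x c ≤ 8 := by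
  classical
  have d1 : Disjoint (cls x a) (cls x b) :=
    disjoint_left.2 fun i h1 h2 => hab ((mem_cls.1 h1).symm.trans (mem_cls.1 h2))
  have d2 : Disjoint (cls x a ∪ cls x b) (cls x c) :=
    disjoint_left.2 fun i h1 h2 => by
      rcases mem_union.1 h1 with h | h
      · exact hac ((mem_cls.1 h).symm.trans (mem_cls.1 h2))
      · exact hbc ((mem_cls.1 h).symm.trans (mem_cls.1 h2))
  have h := card_le_univ (cls x a ∪ cls x b ∪ cls x c)
  rw [card_union_of_disjoint d2, card_union_of_disjoint d1, Fintype.card_fin] at h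
  exact h

/-- sizes six and two -/
def Two (x : Fin 8 → ℂ) (z : ℂ) : Prop := sz x z = 6 ∧ ∀ i j, x i ≠ z → x j ≠ z → x i = x j

lemma Two.card {x : Fin 8 → ℂ} {z : ℂ} (h : Two x z) : (out x z).card = 2 := by
  have := card_out x z
  have := h.1
  omega

lemma two_of {x : Fin 8 → ℂ} {z : ℂ} (hs : ∀ w, Even (sz x w)) (hd : ∃ i j, x i ≠ x j)
    (h6 : 5 ≤ sz x z) : Two x z := by
  have h8 := lt8 z hd
  have he := Nat.even_iff.1 (hs z)
  refine ⟨by omega, fun i j hi hj => ?_⟩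
  by_contra hij
  have h3 := sum3 (x := x) hi.symm hj.symm hij
  have e1 := Nat.even_iff.1 (hs (x i))
  have e2 := Nat.even_iff.1 (hs (x j))
  have p1 := sz_pos (x := x) (i := i) rfl
  have p2 := sz_pos (x := x) (i := j) rfl
  omega

lemma Two.no3 {x : Fin 8 → ℂ} {z : ℂ} (h : Two x z) {i j k : Fin 8} (hij : x i ≠ x j)
    (hik : x i ≠ x k) (hjk : x j ≠ x k) : False := by
  by_cases hi : x i = z
  · exact hjk (h.2 j k (fun e => hij (hi.trans e.symm)) fun e => hik (hi.trans e.symm))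
  by_cases hj : x j = z
  · exact hik (h.2 i k hi fun e => hjk (hj.trans e.symm))
  · exact hij (h.2 i j hi hj)

lemma pairs2 {p q S : Finset (Fin 8)} (hp : p.card = 2) (hq : q.card = 2) (h1 : p ⊆ S)
    (h2 : q ⊆ S) (d : Disjoint p q) : 4 ≤ S.card := by
  have h := card_le_card (union_subset h1 h2)
  rw [card_union_of_disjoint d] at h
  omega

lemma pairs3 {p q r S : Finset (Fin 8)} (hp : p.card = 2) (hq : q.card = 2) (hr : r.card = 2)
    (h1 : p ⊆ S) (h2 : q ⊆ S) (h3 : r ⊆ S) (d1 : Disjoint p q) (d2 : Disjoint p r)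
    (d3 : Disjoint q r) : 6 ≤ S.card := by
  have h := card_le_card (union_subset (union_subset h1 h2) h3)
  rw [card_union_of_disjoint (disjoint_union_left.2 ⟨d2, d3⟩), card_union_of_disjoint d1] at h
  omega

lemma others (l : Fin 4) : ∃ a b c : Fin 4, a ≠ l ∧ b ≠ l ∧ c ≠ l ∧ a ≠ b ∧ a ≠ c ∧ b ≠ c := by
  revert l
  decide

lemma third (l m : Fin 4) : ∃ a : Fin 4, a ≠ l ∧ a ≠ m := by
  revert l m
  decide

/-- two circles with different centres meet in at most two points -/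
lemma circ {p q a b c : ℂ} (hpq : p ≠ q) (hab : a ≠ b) (hac : a ≠ c) (hbc : b ≠ c)
    (h1 : ‖a - p‖ = ‖b - p‖) (h2 : ‖a - p‖ = ‖c - p‖) (h3 : ‖a - q‖ = ‖b - q‖)
    (h4 : ‖a - q‖ = ‖c - q‖) : False := by
  have hd : q - p ≠ 0 := sub_ne_zero.2 hpq.symm
  have key : ∀ s t : ℂ, ‖s - p‖ = ‖t - p‖ → ‖s - q‖ = ‖t - q‖ →
      ((s - p) / (q - p)).re = ((t - p) / (q - p)).re ∧
        ((s - p) / (q - p)).im ^ 2 = ((t - p) / (q - p)).im ^ 2 := by
    intro s t e1 e2
    have f1 : ‖(s - p) / (q - p)‖ = ‖(t - p) / (q - p)‖ := by rw [norm_div, norm_div, e1]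
    have f2 : ‖(s - p) / (q - p) - 1‖ = ‖(t - p) / (q - p) - 1‖ := by
      rw [div_sub_one hd, div_sub_one hd, norm_div, norm_div, sub_sub_sub_cancel_right,
        sub_sub_sub_cancel_right, e2]
    generalize (s - p) / (q - p) = y at f1 f2 ⊢
    generalize (t - p) / (q - p) = w at f1 f2 ⊢
    have g1 : ‖y‖ ^ 2 = ‖w‖ ^ 2 := by rw [f1]
    have g2 : ‖y - 1‖ ^ 2 = ‖w - 1‖ ^ 2 := by rw [f2]
    simp only [Complex.sq_norm, Complex.normSq_apply, Complex.sub_re, Complex.sub_im,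
      Complex.one_re, Complex.one_im, sub_zero] at g1 g2
    have hre : y.re = w.re := by linarith
    refine ⟨hre, ?_⟩
    rw [hre] at g1
    linarith
  have inj : ∀ s t : ℂ, ((s - p) / (q - p)).re = ((t - p) / (q - p)).re →
      ((s - p) / (q - p)).im = ((t - p) / (q - p)).im → s = t := by
    intro s t e1 e2
    have := (div_left_inj' hd).1 (Complex.ext e1 e2)
    exact sub_left_inj.1 this
  obtain ⟨r1, i1⟩ := key a b h1 h3
  obtain ⟨r2, i2⟩ := key a c h2 h4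
  rcases sq_eq_sq_iff_eq_or_eq_neg.1 i1 with e | e
  · exact hab (inj _ _ r1 e)
  rcases sq_eq_sq_iff_eq_or_eq_neg.1 i2 with e' | e'
  · exact hac (inj _ _ r2 e')
  exact hbc (inj _ _ (r1.symm.trans r2) (by linarith))

/-- no four pairwise equidistant points in the plane -/
lemma tetra {a b c d : ℂ} (hab : a ≠ b) (h1 : ‖b - a‖ = ‖c - a‖) (h2 : ‖b - a‖ = ‖d - a‖)
    (h3 : ‖a - b‖ = ‖c - b‖) (h4 : ‖a - b‖ = ‖d - b‖) (h5 : ‖a - c‖ = ‖d - c‖) : False := by
  have e3 : ‖b - a‖ = ‖(c - a) - (b - a)‖ := by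
    rw [sub_sub_sub_cancel_right, norm_sub_rev, h3]
  have e4 : ‖b - a‖ = ‖(d - a) - (b - a)‖ := by
    rw [sub_sub_sub_cancel_right, norm_sub_rev, h4]
  have e5 : ‖b - a‖ = ‖(d - a) - (c - a)‖ := by
    rw [sub_sub_sub_cancel_right, h1, norm_sub_rev, h5]
  have hp : 0 < ‖b - a‖ ^ 2 := pow_pos (norm_pos_iff.2 (sub_ne_zero.2 hab.symm)) 2
  generalize b - a = u at *
  generalize c - a = v at *
  generalize d - a = w at *
  have g1 : ‖u‖ ^ 2 = ‖v‖ ^ 2 := by rw [h1]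
  have g2 : ‖u‖ ^ 2 = ‖w‖ ^ 2 := by rw [h2]
  have g3 : ‖u‖ ^ 2 = ‖v - u‖ ^ 2 := by rw [← e3]
  have g4 : ‖u‖ ^ 2 = ‖w - u‖ ^ 2 := by rw [← e4]
  have g5 : ‖u‖ ^ 2 = ‖w - v‖ ^ 2 := by rw [← e5]
  simp only [Complex.sq_norm, Complex.normSq_apply, Complex.sub_re, Complex.sub_im] at *
  obtain ⟨D, hD⟩ : ∃ D, D = u.re * u.re + u.im * u.im := ⟨_, rfl⟩
  have vv : v.re * v.re + v.im * v.im = D := by linarith
  have ww : w.re * w.re + w.im * w.im = D := by linarith
  have uv : u.re * v.re + u.im * v.im = D / 2 := by linarith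
  have uw : u.re * w.re + u.im * w.im = D / 2 := by linarith
  have vw : v.re * w.re + v.im * w.im = D / 2 := by linarith
  have gram : (u.re * u.re + u.im * u.im) * ((v.re * v.re + v.im * v.im) *
      (w.re * w.re + w.im * w.im) - (v.re * w.re + v.im * w.im) ^ 2) -
      (u.re * v.re + u.im * v.im) * ((u.re * v.re + u.im * v.im) * (w.re * w.re + w.im * w.im) -
        (v.re * w.re + v.im * w.im) * (u.re * w.re + u.im * w.im)) +
      (u.re * w.re + u.im * w.im) * ((u.re * v.re + u.im * v.im) * (v.re * w.re + v.im * w.im) -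
        (v.re * v.re + v.im * v.im) * (u.re * w.re + u.im * w.im)) = 0 := by ring
  rw [← hD, vv, ww, uv, uw, vw] at gram
  rw [← hD] at hp
  have := pow_pos hp 3
  nlinarith

/-- three centres and four points -/
lemma geo (z : Fin 4 → ℂ) (hz : Function.Injective z) (p q r : ℂ) (hpq : p ≠ q) (hpr : p ≠ r)
    (hqr : q ≠ r) (h : ∀ w, w = p ∨ w = q ∨ w = r → ∀ i j, z i ≠ w → z j ≠ w →
      ‖z i - w‖ = ‖z j - w‖) : False := by
  have mem : ∀ s t, s ≠ t → (s = p ∨ s = q ∨ s = r) → (t = p ∨ t = q ∨ t = r) →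
      ∃ i, z i = s := by
    intro s t hst hs ht
    by_contra hn
    have hn' : ∀ i, z i ≠ s := fun i e => hn ⟨i, e⟩
    obtain ⟨l, hl⟩ : ∃ l : Fin 4, ∀ i, i ≠ l → z i ≠ t := by
      by_cases hx : ∃ l, z l = t
      · obtain ⟨l, hl⟩ := hx
        exact ⟨l, fun i hi e => hi (hz (e.trans hl.symm))⟩
      · exact ⟨0, fun i _ e => hx ⟨i, e⟩⟩
    obtain ⟨a, b, c, ha, hb, hc, hab, hac, hbc⟩ := others l
    exact circ hst (hz.ne hab) (hz.ne hac) (hz.ne hbc) (h s hs a b (hn' a) (hn' b))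
      (h s hs a c (hn' a) (hn' c)) (h t ht a b (hl a ha) (hl b hb))
      (h t ht a c (hl a ha) (hl c hc))
  obtain ⟨a, ha⟩ := mem p q hpq (by simp) (by simp)
  obtain ⟨b, hb⟩ := mem q p hpq.symm (by simp) (by simp)
  obtain ⟨c, hc⟩ := mem r p hpr.symm (by simp) (by simp)
  obtain ⟨d, hda, hdb, hdc⟩ : ∃ d : Fin 4, d ≠ a ∧ d ≠ b ∧ d ≠ c := by
    generalize a = a', b = b', c = c'
    revert a' b' c'
    decide
  subst ha hb hc
  exact tetra hpq (h _ (by simp) b c hpq.symm hpr.symm) (h _ (by simp) b d hpq.symm (hz.ne hda))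
    (h _ (by simp) a c hpq hqr.symm) (h _ (by simp) a d hpq (hz.ne hdb))
    (h _ (by simp) a d hpr (hz.ne hdc))

/-- passage to the inverted coordinate -/
lemma inv_dist {s t a b : ℂ} (hs : s ≠ b) (ht : t ≠ b) (ha : a ≠ b)
    (h : ‖s - a‖ * ‖t - b‖ = ‖t - a‖ * ‖s - b‖) :
    ‖(s - b)⁻¹ - (a - b)⁻¹‖ = ‖(t - b)⁻¹ - (a - b)⁻¹‖ := by
  have h1 := sub_ne_zero.2 hs
  have h2 := sub_ne_zero.2 ht
  have h3 := sub_ne_zero.2 ha
  have n1 := norm_ne_zero_iff.2 h1
  have n2 := norm_ne_zero_iff.2 h2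
  have n3 := norm_ne_zero_iff.2 h3
  rw [inv_sub_inv h1 h3, inv_sub_inv h2 h3, sub_sub_sub_cancel_right, sub_sub_sub_cancel_right,
    norm_div, norm_div, norm_mul, norm_mul, norm_sub_rev a s, norm_sub_rev a t]
  field_simp
  linarith

end

end Pool.Agent.MP_8d06cc_nt.R4.Cx
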