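import Pool.Agent.MP_8d06cc_nt.R4.Comb1

/-! The combinatorial core: charts of linked points have two root classes. -/

namespace Pool.Agent.MP_8d06cc_nt.R4.Cx

open Finset

variable {Ch : Type} (K : Comb Ch)

/-- the class of the point `k` has no root, and there are two root classes -/
def R (c : Ch) (k : Fin 4) : Prop := (∀ i, K.x c i ≠ K.A c k) ∧ ∃ i j, K.x c i ≠ K.x c j

variable {K}

lemma cmp {c c' : Ch} {k : Fin 4} (hR : R K c k) (hd : ∃ i j, K.x c' i ≠ K.x c' j)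
    (hn : ¬ Same (K.x c') (K.x c) (K.A c') (K.A c)) : ∃ D, (∃ i, K.x c i = D) ∧
    (∀ i, K.x c' i = K.A c' k ∨ K.x c i = D) ∧ (∀ m, K.A c' m = K.A c' k ∨ K.A c m = D) ∧
    (∀ m, K.A c' m ≠ K.A c' k → K.l c m → K.l c' m) ∧ (∀ m, K.A c m ≠ D → K.l c' m → K.l c m) ∧
    ∀ m n, K.A c' m ≠ K.A c' k → K.A c' n ≠ K.A c' k → K.dp c' m n → K.dp c m n := by
  obtain h | ⟨D', D, h1, h2, h3, h4, h5⟩ := K.f6 c' c
  · exact absurd h hn
  have hD : ∃ i, K.x c i = D := by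
    by_contra hx
    obtain ⟨i, j, hij⟩ := hd
    exact hij (((h1 i).resolve_right fun e => hx ⟨i, e⟩).trans
      ((h1 j).resolve_right fun e => hx ⟨j, e⟩).symm)
  have hk : K.A c' k = D' := by
    refine (h2 k).resolve_right fun e => ?_
    obtain ⟨i, hi⟩ := hD
    exact hR.1 i (hi.trans e.symm)
  subst hk
  exact ⟨D, hD, h1, h2, h3, h4, h5⟩

lemma nsame {c c' : Ch} {k : Fin 4} (hR : R K c k) (h : ∃ i, K.x c' i = K.A c' k) :
    ¬ Same (K.x c') (K.x c) (K.A c') (K.A c) := by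
  obtain ⟨i, hi⟩ := h
  exact fun hs => hR.1 i ((hs.2 i k).1 hi)

lemma R.ne {c : Ch} {k l : Fin 4} (hR : R K c l) (hkl : k ≠ l) : K.A c k ≠ K.A c l := by
  intro e
  obtain ⟨i, hi⟩ := K.f0 c k l hkl e
  exact hR.1 i (hi.trans e)

lemma lemE {c : Ch} {l m : Fin 4} {z : ℂ} (hR : R K c l) (hs : ∀ w, Even (sz (K.x c) w))
    (h2 : Two (K.x c) z) (hm : m ≠ l) : K.A c m = z := by
  by_contra hz
  obtain ⟨i, hi⟩ := ex_in (x := K.x c) (z := z) (by rw [h2.1]; norm_num)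
  have hi' : K.x c i ≠ K.A c m := fun e => hz (e.symm.trans hi)
  have h6 : sz (K.x c) (K.x c i) = 6 := by rw [hi, h2.1]
  by_cases hl : K.l c m
  · have := (K.f5a c m l hl (K.f2 c l hs hR.1) (hR.ne hm) i hi' (hR.1 i)).1
    omega
  · have := K.f4 c m i hl hi'
    omega

lemma lemP {c c' : Ch} {k l : Fin 4} {z z' : ℂ} (hkl : k ≠ l) (hR : R K c k) (hR' : R K c' l)
    (hs : ∀ w, Even (sz (K.x c) w)) (hs' : ∀ w, Even (sz (K.x c') w)) (h2 : Two (K.x c) z)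
    (h2' : Two (K.x c') z') : Disjoint (out (K.x c) z) (out (K.x c') z') := by
  have e1 := lemE hR hs h2 hkl.symm
  have e2 := lemE hR' hs' h2' hkl
  obtain ⟨i0, hi0⟩ := ex_in (x := K.x c') (z := z') (by rw [h2'.1]; norm_num)
  obtain ⟨D, -, h1, h3, -⟩ := cmp hR hR'.2 (nsame hR ⟨i0, hi0.trans e2.symm⟩)
  have hD : K.A c l = D := (h3 l).resolve_left (hR'.ne hkl).symm
  refine disjoint_left.2 fun i hi hi' => ?_
  rcases h1 i with h | h
  · exact mem_out.1 hi' (h.trans e2)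
  · exact mem_out.1 hi (h.trans (hD.symm.trans e1))

lemma lemA {c : Ch} {k l : Fin 4} (hR : R K c l) (hkl : k ≠ l) (hl : K.lk k l) :
    K.l c k ∧ (∀ w, Even (sz (K.x c) w)) ∧ K.l c l ∧
      ∀ i, K.x c i ≠ K.A c k → sz (K.x c) (K.x c i) = 2 := by
  have h1 := (K.f3 c k l hkl hR.1).1 hl
  have h2 := K.f1 c k h1
  have h3 := K.f2 c l h2 hR.1
  exact ⟨h1, h2, h3, fun i hi => (K.f5a c k l h1 h3 (hR.ne hkl) i hi (hR.1 i)).1⟩

/-- a point in a class with at most two roots -/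
lemma lemT {c c' : Ch} {m : Fin 4} (hR : R K c m) (hs : ∀ w, Even (sz (K.x c) w))
    (hd : ∃ i j, K.x c' i ≠ K.x c' j) (hi : ∃ i, K.x c' i = K.A c' m)
    (h2 : sz (K.x c') (K.A c' m) ≤ 2) :
    ∃ D, Two (K.x c) D ∧ out (K.x c) D = cls (K.x c') (K.A c' m) := by
  obtain ⟨D, -, h1, -⟩ := cmp hR hd (nsame hR hi)
  have hc := card_out (K.x c') (K.A c' m)
  have h6 : (out (K.x c') (K.A c' m)).card ≤ sz (K.x c) D :=
    le_sz fun i hi => (h1 i).resolve_left (mem_out.1 hi)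
  have hT : Two (K.x c) D := two_of hs hR.2 (by omega)
  refine ⟨D, hT, eq_of_subset_of_card_le (fun i hi => mem_cls.2 ?_) ?_⟩
  · exact (h1 i).resolve_right (mem_out.1 hi)
  · rw [hT.card, ← sz_eq]
    exact h2

/-- two points do not lie in one class with at most two roots -/
lemma lemU {c : Ch} {m n : Fin 4} (hmn : m ≠ n) (hd : ∃ i j, K.x c i ≠ K.x c j)
    (hs : ∀ k c₂, k = m ∨ k = n → R K c₂ k → ∀ w, Even (sz (K.x c₂) w))
    (h2 : sz (K.x c) (K.A c m) ≤ 2) : K.A c m ≠ K.A c n := by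
  intro e
  obtain ⟨i, hi⟩ := K.f0 c m n hmn e
  obtain ⟨c₁, h₁⟩ := K.f7z m
  obtain ⟨c₂, h₂⟩ := K.f7z n
  have s₁ := hs m c₁ (Or.inl rfl) h₁
  have s₂ := hs n c₂ (Or.inr rfl) h₂
  obtain ⟨D₁, t₁, o₁⟩ := lemT (K := K) h₁ s₁ hd ⟨i, hi⟩ h2
  obtain ⟨D₂, t₂, o₂⟩ := lemT (K := K) h₂ s₂ hd ⟨i, hi.trans e⟩ (e ▸ h2)
  have hP := lemP (K := K) hmn h₁ h₂ s₁ s₂ t₁ t₂
  rw [o₁, o₂] at hP
  exact disjoint_left.1 hP (mem_cls.2 hi) (mem_cls.2 (hi.trans e))

/-- three root classes link everything -/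
lemma lemB {c : Ch} {k l : Fin 4} (hR : R K c l) (hkl : k ≠ l) (hl : K.lk k l)
    (h4 : sz (K.x c) (K.A c k) ≤ 4) : ∀ m, K.l c m ∧ (m ≠ l → K.lk m l) := by
  obtain ⟨a1, a2, a3, a4⟩ := lemA hR hkl hl
  have small : ∀ i, sz (K.x c) (K.x c i) ≤ 4 := fun i => by
    by_cases hi : K.x c i = K.A c k
    · rw [hi]; exact h4
    · rw [a4 i hi]; norm_num
  obtain ⟨i, hi⟩ := ex_out (x := K.x c) (z := K.A c k) (by omega)
  have si := a4 i hi
  obtain ⟨j, hj⟩ := ex_out (x := K.x c) (z := K.x c i) (by omega)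
  have sj := small j
  obtain ⟨n, hn1, hn2⟩ := ex_out2 (x := K.x c) (a := K.x c i) (b := K.x c j) (by omega)
  intro m
  have hm := K.f5c c k l a1 a3 (hR.ne hkl) i j n hj.symm hn1.symm hn2.symm m
  exact ⟨hm, fun hml => (K.f3 c m l hml hR.1).2 hm⟩

lemma d3a {c : Ch} {k l : Fin 4} (hR : R K c l) (hkl : k ≠ l) (hl : K.lk k l)
    (h4 : sz (K.x c) (K.A c k) = 4) {m : Fin 4} (hm : m ≠ l) {c₂ : Ch} (h₂ : R K c₂ m) :
    K.lk l m ∧ ∀ i, K.x c i ≠ K.A c k → K.x c₂ i = K.A c₂ l := by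
  have hml := (lemB hR hkl hl h4.le m).2 hm
  obtain ⟨i0, hi0⟩ := ex_in (x := K.x c) (z := K.A c k) (by omega)
  have e : K.A c m = K.A c k := by
    by_contra hne
    have := (lemA hR hm hml).2.2.2 i0 fun e => hne (e.symm.trans hi0)
    rw [hi0] at this
    omega
  obtain ⟨D, -, h1, h3, -⟩ := cmp h₂ hR.2 (nsame h₂ ⟨i0, hi0.trans e.symm⟩)
  have hD : K.A c₂ l = D := (h3 l).resolve_left (hR.ne hm).symm
  refine ⟨K.symm m l hm hml, fun i hi => ?_⟩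
  rw [hD]
  exact (h1 i).resolve_left fun e' => hi (e'.trans e)

lemma d3 {c : Ch} {k l : Fin 4} (hR : R K c l) (hkl : k ≠ l) (hl : K.lk k l)
    (h4 : sz (K.x c) (K.A c k) = 4) : False := by
  have hc := card_out (K.x c) (K.A c k)
  have key : ∀ m, m ≠ l → ∀ c₂, R K c₂ m → (∀ w, Even (sz (K.x c₂) w)) ∧
      Two (K.x c₂) (K.A c₂ l) ∧ out (K.x c₂) (K.A c₂ l) ⊆ cls (K.x c) (K.A c k) := by
    intro m hm c₂ h₂
    obtain ⟨hlm, h1⟩ := d3a hR hkl hl h4 hm h₂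
    have hs := (lemA h₂ hm.symm hlm).2.1
    have hsub : out (K.x c) (K.A c k) ⊆ cls (K.x c₂) (K.A c₂ l) :=
      fun i hi => mem_cls.2 (h1 i (mem_out.1 hi))
    have hge := card_le_card hsub
    rw [← sz_eq] at hge
    refine ⟨hs, two_of hs h₂.2 ?_, fun i hi => mem_cls.2 ?_⟩
    · by_contra h5
      have h4' : sz (K.x c₂) (K.A c₂ l) = 4 := by omega
      have heq : out (K.x c) (K.A c k) = cls (K.x c₂) (K.A c₂ l) :=
        eq_of_subset_of_card_le hsub (by rw [← sz_eq]; omega)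
      obtain ⟨n, hnl, hnm⟩ := third l m
      obtain ⟨c₃, h₃⟩ := K.f7z n
      obtain ⟨hln, g1⟩ := d3a hR hkl hl h4 hnl (c₂ := c₃) h₃
      obtain ⟨-, g2⟩ := d3a h₂ hm.symm hlm h4' hnm (c₂ := c₃) h₃
      have g3 : ∀ i, K.x c i = K.A c k → K.x c₃ i = K.A c₃ m := fun i hi => g2 i fun e => by
        have : i ∈ out (K.x c) (K.A c k) := by rw [heq]; exact mem_cls.2 e
        exact mem_out.1 this hi
      have g4 : (cls (K.x c) (K.A c k)).card ≤ sz (K.x c₃) (K.A c₃ m) :=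
        le_sz fun i hi => g3 i (mem_cls.1 hi)
      rw [← sz_eq] at g4
      obtain ⟨i0, hi0⟩ := ex_in (x := K.x c) (z := K.A c k) (by omega)
      have e : K.A c₃ m = K.A c₃ l := by
        by_contra hne
        have := (lemA (K := K) h₃ hnl.symm hln).2.2.2 i0 fun e => hne ((g3 i0 hi0).symm.trans e)
        rw [g3 i0 hi0] at this
        omega
      have all : ∀ i, K.x c₃ i = K.A c₃ l := fun i => by
        by_cases hi : K.x c i = K.A c k
        · exact (g3 i hi).trans e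
        · exact g1 i hi
      obtain ⟨i, j, hij⟩ := h₃.2
      exact hij ((all i).trans (all j).symm)
    · by_contra hx
      exact mem_out.1 hi (h1 i hx)
  obtain ⟨a, b, d, ha, hb, hd, hab, had, hbd⟩ := others l
  obtain ⟨ca, Ra⟩ := K.f7z a
  obtain ⟨cb, Rb⟩ := K.f7z b
  obtain ⟨cd, Rd⟩ := K.f7z d
  obtain ⟨sa, ta, oa⟩ := key a ha ca Ra
  obtain ⟨sb, tb, ob⟩ := key b hb cb Rb
  obtain ⟨sd, td, od⟩ := key d hd cd Rd
  have := pairs3 ta.card tb.card td.card oa ob od (lemP (K := K) hab Ra Rb sa sb ta tb)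
    (lemP (K := K) had Ra Rd sa sd ta td) (lemP (K := K) hbd Rb Rd sb sd tb td)
  rw [← sz_eq] at this
  omega

lemma d4 {c : Ch} {k l : Fin 4} (hR : R K c l) (hkl : k ≠ l) (hl : K.lk k l)
    (h2 : sz (K.x c) (K.A c k) ≤ 2) : False := by
  obtain ⟨a1, a2, a3, a4⟩ := lemA hR hkl hl
  have hB := lemB hR hkl hl (by omega)
  have small : ∀ z, sz (K.x c) z ≤ 2 := fun z => by
    by_cases hz : 0 < sz (K.x c) z
    · obtain ⟨i, hi⟩ := ex_in hz
      by_cases hk : K.x c i = K.A c k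
      · rw [← hi, hk]; exact h2
      · rw [← hi, a4 i hk]
    · omega
  have ne : ∀ m n, m ≠ l → n ≠ l → m ≠ n → K.A c m ≠ K.A c n := fun m n hm hn hmn => by
    refine lemU hmn hR.2 (fun j c₂ hj h₂ => ?_) (small _)
    have hjl : j ≠ l := by rcases hj with rfl | rfl <;> assumption
    exact (lemA h₂ hjl.symm (K.symm j l hjl ((hB j).2 hjl))).2.1
  have s0 := small (K.x c 0)
  obtain ⟨i, hi⟩ := ex_out (x := K.x c) (z := K.x c 0) (by omega)
  have si := small (K.x c i)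
  obtain ⟨j, hj1, hj2⟩ := ex_out2 (x := K.x c) (a := K.x c 0) (b := K.x c i) (by omega)
  have sj := small (K.x c j)
  obtain ⟨n, hn1, hn2, hn3⟩ :=
    ex_out3 (x := K.x c) (a := K.x c 0) (b := K.x c i) (c := K.x c j) (by omega)
  obtain ⟨a, b, d, ha, hb, hd, hab, had, hbd⟩ := others l
  have inj : ∀ s t : ℂ, s ≠ t → (s - K.A c l)⁻¹ ≠ (t - K.A c l)⁻¹ :=
    fun s t hst e => hst (sub_left_inj.1 (inv_injective e))
  let ι : Fin 4 → Fin 8 := ![0, i, j, n]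
  have hι : Function.Injective fun s => K.x c (ι s) := by
    intro s t hst
    fin_cases s <;> fin_cases t <;> simp_all [ι, eq_comm]
  refine geo (fun s => (K.x c (ι s) - K.A c l)⁻¹) (fun s t e => ?_) (K.A c a - K.A c l)⁻¹
    (K.A c b - K.A c l)⁻¹ (K.A c d - K.A c l)⁻¹ (inj _ _ (ne a b ha hb hab))
    (inj _ _ (ne a d ha hd had)) (inj _ _ (ne b d hb hd hbd)) ?_
  · by_contra hst
    exact inj _ _ (hι.ne hst) e
  · have one : ∀ m, m ≠ l → ∀ s t, (K.x c (ι s) - K.A c l)⁻¹ ≠ (K.A c m - K.A c l)⁻¹ →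
        (K.x c (ι t) - K.A c l)⁻¹ ≠ (K.A c m - K.A c l)⁻¹ →
        ‖(K.x c (ι s) - K.A c l)⁻¹ - (K.A c m - K.A c l)⁻¹‖ =
          ‖(K.x c (ι t) - K.A c l)⁻¹ - (K.A c m - K.A c l)⁻¹‖ := by
      intro m hm s t hs ht
      refine inv_dist (hR.1 _) (hR.1 _) (hR.ne hm) ?_
      exact (K.f5a c m l (hB m).1 a3 (hR.ne hm) _ (fun e => hs (by rw [e])) (hR.1 _)).2 _
        (fun e => ht (by rw [e])) (hR.1 _)
    rintro w (rfl | rfl | rfl)
    exacts [one a ha, one b hb, one d hd]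

lemma d2 {c : Ch} {k l : Fin 4} (hR : R K c l) (hkl : k ≠ l) (hl : K.lk k l) :
    Two (K.x c) (K.A c k) := by
  have hs := (lemA hR hkl hl).2.1
  refine two_of hs hR.2 ?_
  have he := Nat.even_iff.1 (hs (K.A c k))
  have h4 : sz (K.x c) (K.A c k) ≠ 4 := d3 hR hkl hl
  have h2 : ¬ sz (K.x c) (K.A c k) ≤ 2 := d4 hR hkl hl
  omega

end Pool.Agent.MP_8d06cc_nt.R4.Cx
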