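import Pool.Agent.MP_8d06cc_nt.ST.Spec

/-! Block R4: charts, the local facts in one chart, comparison of charts, combinatorial core. -/

namespace Pool.Agent.MP_8d06cc_nt.R4

open Polynomial Pool.Agent.MP_8d06cc_nt.DA

noncomputable section

/-- a valuation ring with residue field inside the complex numbers -/
structure VF (L : Type) [Field L] where
  O : ValuationSubring L
  π : O →+* ℂ
  ker : ∀ x : O, π x = 0 ↔ O.valuation x < 1

open Classical in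
/-- the residue, zero outside the ring -/
def VF.r {L : Type} [Field L] (V : VF L) (x : L) : ℂ := if h : x ∈ V.O then V.π ⟨x, h⟩ else 0

/-- a split squarefree octic with four Pell points of rank at most two -/
structure Dat (L : Type) [Field L] where
  N : ℕ
  u : L
  e : Fin 8 → L
  P : Fin 4 → PD L
  hu : u ≠ 0
  ok : ∀ k, (P k).OK (C u * ∏ i, (X - C (e i))) N
  einj : Function.Injective e
  ainj : Function.Injective fun k => (P k).a
  rk : Rk2 P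

variable {L : Type} [Field L]

def Dat.f (c : Dat L) : L[X] := C c.u * ∏ i, (X - C (c.e i))

/-- monic, all twelve points integral -/
structure Int (V : VF L) (c : Dat L) : Prop where
  u1 : c.u = 1
  eO : ∀ i, c.e i ∈ V.O
  aO : ∀ k, (c.P k).a ∈ V.O

/-- the value of `(A + B y) / (A - B y)` -/
def psi (P : PD L) (x y : L) : L := (P.A.eval x + P.B.eval x * y) / (P.A.eval x - P.B.eval x * y)

/-- the product with exponents `n` is a unit at the points over `x` -/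
def U (V : VF L) (c : Dat L) (n : Fin 4 → ℤ) (x : L) : Prop :=
  ∀ y, y ^ 2 = c.f.eval x → V.O.valuation (∏ k, psi (c.P k) x y ^ n k) = 1

/-- `l = 0`, strong form: outside the classes of the points involved -/
def LZ (V : VF L) (c : Dat L) (n : Fin 4 → ℤ) : Prop :=
  ∀ x, (∀ k, n k ≠ 0 → 1 ≤ V.O.valuation (x - (c.P k).a)) → U V c n x

/-- `l = 0`, weak form: outside finitely many classes -/
def LW (V : VF L) (c : Dat L) (n : Fin 4 → ℤ) : Prop :=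
  ∃ S : Finset ℂ, ∀ x ∈ V.O, V.r x ∉ S → U V c n x

def xr (V : VF L) (c : Dat L) (i : Fin 8) : ℂ := V.r (c.e i)

def ar (V : VF L) (c : Dat L) (k : Fin 4) : ℂ := V.r (c.P k).a

open Classical in
/-- the number of indices with value `z` -/
def sz (x : Fin 8 → ℂ) (z : ℂ) : ℕ := (Finset.univ.filter fun i => x i = z).card

/-- `l_k ≠ 0` -/
def ell (V : VF L) (c : Dat L) (k : Fin 4) : Prop := ¬ LZ V c (Pi.single k 1)

def dep (V : VF L) (c : Dat L) (k m : Fin 4) : Prop :=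
  ∃ n : Fin 4 → ℤ, n k ≠ 0 ∧ n m ≠ 0 ∧ (∀ j, j ≠ k → j ≠ m → n j = 0) ∧ LZ V c n

def lnk (V : VF L) (c : Dat L) (k l : Fin 4) : Prop :=
  V.O.valuation (gam (c.P k) (c.P l)) ≠ 1

def near (V : VF L) (c : Dat L) (i i' : Fin 8) (k : Fin 4) : Prop :=
  V.O.valuation (c.e i' - c.e i) < V.O.valuation ((c.P k).a - c.e i)

/-- `c` is `b` in the coordinate `x'` with `x = (α x' + β) / (γ x' + δ)` -/
structure Tr (b c : Dat L) (α β γ δ : L) : Prop where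
  det : α * δ - β * γ ≠ 0
  he : ∀ i, b.e i * (γ * c.e i + δ) = α * c.e i + β
  ha : ∀ k, (b.P k).a * (γ * (c.P k).a + δ) = α * (c.P k).a + β
  hp : ∀ x x', x * (γ * x' + δ) = α * x' + β → ∀ y', y' ^ 2 = c.f.eval x' →
    ∃ y, y ^ 2 = b.f.eval x ∧ ∀ k, psi (c.P k) x' y' = psi (b.P k) x y
  hg : ∀ k l, gam (c.P k) (c.P l) = gam (b.P k) (b.P l)

/-- a chart for `b` -/
def IsCh (V : VF L) (b c : Dat L) : Prop := Int V c ∧ ∃ α β γ δ, Tr b c α β γ δ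

/-- a statement about every integral datum -/
def All (p : ∀ (L : Type) [Field L], VF L → Dat L → Prop) : Prop :=
  ∀ (L : Type) [Field L] [IsAlgClosed L] [CharZero L] (V : VF L) (c : Dat L), Int V c → p L V c

def S_MAX : Prop := All fun _ _ V c => ∀ n, LW V c n → LZ V c n

def S_BR : Prop := All fun _ _ V c => ∀ k, ell V c k → ∃ i,
  V.O.valuation (c.P k).c < V.O.valuation ((c.P k).A.coeff i) ^ 2 ∨
    V.O.valuation (c.P k).c < V.O.valuation ((c.P k).B.coeff i) ^ 2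

def S_F0 : Prop := All fun _ _ V c => ∀ k l, k ≠ l → ar V c k = ar V c l → ∃ i, xr V c i = ar V c k

def S_F1 : Prop := All fun _ _ V c => ∀ k, ell V c k → ∀ z, Even (sz (xr V c) z)

def S_F2 : Prop := All fun _ _ V c => ∀ k, (∀ z, Even (sz (xr V c) z)) →
  (∀ i, xr V c i ≠ ar V c k) → ell V c k

def S_F3 : Prop := All fun _ _ V c => ∀ k l, k ≠ l → (∀ i, xr V c i ≠ ar V c l) →
  (lnk V c k l ↔ ell V c k)

def S_F4 : Prop := All fun _ _ V c => ∀ m i, ¬ ell V c m → xr V c i ≠ ar V c m →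
  sz (xr V c) (xr V c i) ≤ 4

def S_F5a : Prop := All fun _ _ V c => ∀ k m, ell V c k → ell V c m → ar V c k ≠ ar V c m →
  ∀ i, xr V c i ≠ ar V c k → xr V c i ≠ ar V c m → sz (xr V c) (xr V c i) = 2 ∧
    ∀ j, xr V c j ≠ ar V c k → xr V c j ≠ ar V c m →
      ‖xr V c i - ar V c k‖ * ‖xr V c j - ar V c m‖ = ‖xr V c j - ar V c k‖ * ‖xr V c i - ar V c m‖

def S_F5c : Prop := All fun _ _ V c => ∀ k m, ell V c k → ell V c m → ar V c k ≠ ar V c m →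
  ∀ i₁ i₂ i₃, xr V c i₁ ≠ xr V c i₂ → xr V c i₁ ≠ xr V c i₃ → xr V c i₂ ≠ xr V c i₃ →
    ∀ n, ell V c n

def S_G1 : Prop := All fun _ _ V c => ∀ k m i, k ≠ m → ell V c k → ell V c m →
  xr V c i ≠ ar V c k → xr V c i ≠ ar V c m → dep V c k m

def S_G2 : Prop := S_MAX → All fun _ _ V c => ∀ k m, k ≠ m → dep V c k m → ell V c k → ell V c m

/-- change of coordinate -/
def S_MOB : Prop := ∀ (L : Type) [Field L] [IsAlgClosed L] [CharZero L] (b : Dat L) (α β γ δ : L),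
  α * δ - β * γ ≠ 0 → (∀ i, α - γ * b.e i ≠ 0) → (∀ k, α - γ * (b.P k).a ≠ 0) →
  ∃ c : Dat L, c.u = 1 ∧ Tr b c α β γ δ

/-- the same partition -/
def Same (x x' : Fin 8 → ℂ) (A A' : Fin 4 → ℂ) : Prop :=
  (∀ i j, x i = x j ↔ x' i = x' j) ∧ ∀ i k, x i = A k ↔ x' i = A' k

/-- two charts -/
def F6 : Prop := ∀ (L : Type) [Field L] [IsAlgClosed L] [CharZero L] (V : VF L) (b c c' : Dat L),
  IsCh V b c → IsCh V b c' → Same (xr V c) (xr V c') (ar V c) (ar V c') ∨ ∃ D D' : ℂ,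
    (∀ i, xr V c i = D ∨ xr V c' i = D') ∧ (∀ k, ar V c k = D ∨ ar V c' k = D') ∧
    (∀ n, (∀ k, n k ≠ 0 → ar V c k ≠ D) → LZ V c n → LZ V c' n) ∧
    ∀ n, (∀ k, n k ≠ 0 → ar V c' k ≠ D') → LZ V c' n → LZ V c n

def S_F6 : Prop := S_MAX → F6

/-- charts exist -/
def F7 : Prop := ∀ (L : Type) [Field L] [IsAlgClosed L] [CharZero L] (V : VF L) (b : Dat L),
  (∀ k, ∃ c, IsCh V b c ∧ (∀ i, xr V c i ≠ ar V c k) ∧ ∃ i j, xr V c i ≠ xr V c j) ∧
  ∀ (i₀ : Fin 8) (S : Finset (Fin 8)), i₀ ∉ S → 2 ≤ S.card → ∃ c, IsCh V b c ∧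
    (∀ j ∈ S, xr V c j ≠ xr V c i₀) ∧ ∃ j ∈ S, ∃ j' ∈ S, xr V c j ≠ xr V c j'

def S_F7 : Prop := S_MOB → F7

/-- the cross ratio -/
def S_CR : Prop := ∀ (L : Type) [Field L] (V : VF L) (b c c' : Dat L),
  IsCh V b c → IsCh V b c' → ∀ i i' j k, xr V c' i = xr V c' i' → xr V c' i' ≠ xr V c' j →
    ar V c' k ≠ xr V c' i → ar V c k ≠ xr V c j → near V c i i' k

/-- the combinatorial shadow -/
structure Comb (Ch : Type) where
  x : Ch → Fin 8 → ℂ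
  A : Ch → Fin 4 → ℂ
  l : Ch → Fin 4 → Prop
  dp : Ch → Fin 4 → Fin 4 → Prop
  lk : Fin 4 → Fin 4 → Prop
  nr : Ch → Fin 8 → Fin 8 → Fin 4 → Prop
  symm : ∀ k m, k ≠ m → lk k m → lk m k
  f0 : ∀ c k m, k ≠ m → A c k = A c m → ∃ i, x c i = A c k
  f1 : ∀ c k, l c k → ∀ z, Even (sz (x c) z)
  f2 : ∀ c k, (∀ z, Even (sz (x c) z)) → (∀ i, x c i ≠ A c k) → l c k
  f3 : ∀ c k m, k ≠ m → (∀ i, x c i ≠ A c m) → (lk k m ↔ l c k)
  f4 : ∀ c m i, ¬ l c m → x c i ≠ A c m → sz (x c) (x c i) ≤ 4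
  f5a : ∀ c k m, l c k → l c m → A c k ≠ A c m → ∀ i, x c i ≠ A c k → x c i ≠ A c m →
    sz (x c) (x c i) = 2 ∧ ∀ j, x c j ≠ A c k → x c j ≠ A c m →
      ‖x c i - A c k‖ * ‖x c j - A c m‖ = ‖x c j - A c k‖ * ‖x c i - A c m‖
  f5c : ∀ c k m, l c k → l c m → A c k ≠ A c m → ∀ i₁ i₂ i₃, x c i₁ ≠ x c i₂ → x c i₁ ≠ x c i₃ →
    x c i₂ ≠ x c i₃ → ∀ n, l c n
  g1 : ∀ c k m i, k ≠ m → l c k → l c m → x c i ≠ A c k → x c i ≠ A c m → dp c k m
  g2 : ∀ c k m, k ≠ m → dp c k m → l c k → l c m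
  f6 : ∀ c c', Same (x c) (x c') (A c) (A c') ∨ ∃ D D' : ℂ,
    (∀ i, x c i = D ∨ x c' i = D') ∧ (∀ k, A c k = D ∨ A c' k = D') ∧
    (∀ k, A c k ≠ D → l c' k → l c k) ∧ (∀ k, A c' k ≠ D' → l c k → l c' k) ∧
    ∀ k m, A c k ≠ D → A c m ≠ D → dp c k m → dp c' k m
  f7z : ∀ k, ∃ c, (∀ i, x c i ≠ A c k) ∧ ∃ i j, x c i ≠ x c j
  f7x : ∀ (i₀ : Fin 8) (S : Finset (Fin 8)), i₀ ∉ S → 2 ≤ S.card → ∃ c,
    (∀ j ∈ S, x c j ≠ x c i₀) ∧ ∃ j ∈ S, ∃ j' ∈ S, x c j ≠ x c j'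
  cr : ∀ c c' i i' j k, x c' i = x c' i' → x c' i' ≠ x c' j → A c' k ≠ x c' i → A c k ≠ x c j →
    nr c i i' k
  star : ∀ c (i i' : Fin 4 → Fin 8), (∀ k, i k ≠ i' k) → (∀ k, x c (i k) = A c k) →
    (∀ k, x c (i' k) = A c k) → Function.Injective (A c) → (∀ k, l c k) →
    (∀ k, nr c (i k) (i' k) k) → False

def S_COMB : Prop := ∀ (Ch : Type) (K : Comb Ch) (k m : Fin 4), k ≠ m → ¬ K.lk k m

/-- the statement of the block -/
def S_R4 : Prop := ∀ (L : Type) [Field L] [IsAlgClosed L] [CharZero L] (O : ValuationSubring L)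
  (π : O →+* ℂ) (f : L[X]) (N : ℕ) (P : Fin 4 → PD L),
  (∀ x : O, π x = 0 ↔ O.valuation x < 1) →
  (∀ x y : L, O.valuation x < 1 → y ≠ 0 → ∃ n : ℕ, O.valuation x ^ n ≤ O.valuation y) →
  f.natDegree = 8 → Squarefree f → (∀ k, (P k).OK f N) →
  (Function.Injective fun k => (P k).a) → Rk2 P →
  (∀ k l, k ≠ l → O.valuation (gam (P k) (P l)) = O.valuation (gam (P l) (P k))) →
  ∀ k l, k ≠ l → O.valuation (gam (P k) (P l)) = 1

end

end Pool.Agent.MP_8d06cc_nt.R4
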