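import Pool.Agent.MP_8d06cc_nt.R4.Defs
import Pool.Agent.MP_8d06cc_nt.DA.Pell

/-! Two marked points in one class force a root in that class. -/

namespace Pool.Agent.MP_8d06cc_nt.R4

open Polynomial Pool.Agent.MP_8d06cc_nt.DA

namespace F0x

theorem dpow (α : ℂ) (a : ℕ) (g : ℂ[X]) : derivative ((X - C α) ^ a * g) * (X - C α) =
    (X - C α) ^ a * ((a : ℂ[X]) * g + (X - C α) * derivative g) := by
  cases a with
  | zero => simp [mul_comm]
  | succ n =>
    rw [derivative_mul, derivative_X_sub_C_pow]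
    simp only [Nat.add_sub_cancel, map_natCast]
    ring

theorem key {α : ℂ} {m n : ℕ} {E : ℂ[X]} (h : (X - C α) ^ n ∣ (X - C α) ^ m * E) (hl : m < n) :
    E.eval α = 0 := by
  have := (pow_dvd_pow (X - C α) (Nat.succ_le_of_lt hl)).trans h
  rw [pow_succ, mul_dvd_mul_iff_left (pow_ne_zero _ (X_sub_C_ne_zero α))] at this
  exact dvd_iff_isRoot.1 this

theorem core {f A B R : ℂ[X]} {α s1 s2 : ℂ} {N : ℕ} (hf : f.eval α ≠ 0) (hA : A ≠ 0) (hB : B ≠ 0)
    (dB : B.natDegree + 2 ≤ 2 * N)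
    (h1 : C s1 * ((N : ℂ[X]) * (B * R)) = derivative A * ((X - C α) * (X - C α)) -
      (N : ℂ[X]) * A * ((X - C α) + (X - C α)))
    (h2 : C s2 * (2 * (N : ℂ[X]) * (A * R)) = (2 * f * derivative B + derivative f * B) *
      ((X - C α) * (X - C α)) - 2 * (N : ℂ[X]) * f * B * ((X - C α) + (X - C α)))
    (h : s1 ≠ 0 → s2 ≠ 0 → (X - C α) * (X - C α) ∣ R) : False := by
  obtain ⟨A1, eA, nA⟩ := exists_eq_pow_rootMultiplicity_mul_and_not_dvd A hA α
  obtain ⟨B1, eB, nB⟩ := exists_eq_pow_rootMultiplicity_mul_and_not_dvd B hB α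
  have hμ : rootMultiplicity α B ≤ B.natDegree := by
    have := natDegree_le_of_dvd (pow_rootMultiplicity_dvd B α) hB
    simpa using this
  generalize rootMultiplicity α A = a at eA
  generalize rootMultiplicity α B = μ at eB hμ
  rw [dvd_iff_isRoot, IsRoot.def] at nA nB
  have d1 := dpow α a A1
  have d2 := dpow α μ B1
  rw [← eA] at d1
  rw [← eB] at d2
  have g1 : C s1 * ((N : ℂ[X]) * (B * R)) = (X - C α) ^ (a + 1) *
      ((a : ℂ[X]) * A1 + (X - C α) * derivative A1 - 2 * (N : ℂ[X]) * A1) := by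
    linear_combination h1 + (X - C α) * d1 - 2 * (N : ℂ[X]) * (X - C α) * eA
  have g2 : C s2 * (2 * (N : ℂ[X]) * (A * R)) = (X - C α) ^ (μ + 1) *
      (2 * f * ((μ : ℂ[X]) * B1 + (X - C α) * derivative B1) + (X - C α) * derivative f * B1 -
        4 * (N : ℂ[X]) * f * B1) := by
    linear_combination h2 + 2 * f * (X - C α) * d2 +
      (derivative f * (X - C α) ^ 2 - 4 * (N : ℂ[X]) * f * (X - C α)) * eB
  have k1 : ∀ n, (X - C α) ^ n ∣ C s1 * ((N : ℂ[X]) * (B * R)) → a + 1 < n → a = 2 * N := fun n hn hl => by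
    have := key (g1 ▸ hn) hl
    simp only [eval_sub, eval_add, eval_mul, eval_natCast, eval_X, eval_C, sub_self, eval_ofNat]
      at this
    have e : ((a : ℂ) - 2 * N) * A1.eval α = 0 := by linear_combination this
    exact_mod_cast sub_eq_zero.1 ((mul_eq_zero.1 e).resolve_right nA)
  have k2 : ∀ n, (X - C α) ^ n ∣ C s2 * (2 * (N : ℂ[X]) * (A * R)) → n ≤ μ + 1 := fun n hn => by
    by_contra hl
    have := key (g2 ▸ hn) (not_le.1 hl)
    simp only [eval_sub, eval_add, eval_mul, eval_natCast, eval_X, eval_C, sub_self, eval_ofNat]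
      at this
    have e : ((μ : ℂ) - 2 * N) * (f.eval α * B1.eval α) = 0 := by linear_combination this / 2
    have : μ = 2 * N := by
      exact_mod_cast sub_eq_zero.1 ((mul_eq_zero.1 e).resolve_right (mul_ne_zero hf nB))
    omega
  have k3 := k2 a ⟨C s2 * (2 * (N : ℂ[X]) * (A1 * R)), by rw [eA]; ring⟩
  by_cases z1 : s1 = 0
  · have := k1 (a + 2) (by simp [z1]) (by omega)
    omega
  by_cases z2 : s2 = 0
  · have := k2 (μ + 2) (by simp [z2])
    omega
  obtain ⟨S, rfl⟩ := h z1 z2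
  have k4 := k2 (a + 2) ⟨C s2 * (2 * (N : ℂ[X]) * (A1 * S)), by rw [eA]; ring⟩
  have := k1 (μ + 2) ⟨C s1 * ((N : ℂ[X]) * (B1 * S)), by rw [eB]; ring⟩ (by omega)
  omega

variable {L : Type} [Field L] (V : VF L)

theorem v1 {x : V.O} (h : V.π x ≠ 0) : V.O.valuation x = 1 :=
  le_antisymm (V.O.valuation_le_one x) (not_lt.1 fun h' => h ((V.ker x).2 h'))

theorem prim {H : L[X]} (hH : H ≠ 0) : ∃ (l : L) (H1 : V.O[X]), l ≠ 0 ∧
    H = C l * H1.map V.O.subtype ∧ H1.map V.π ≠ 0 := by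
  obtain ⟨i, hi, hm⟩ := Finset.exists_max_image H.support (fun i => V.O.valuation (H.coeff i))
    (support_nonempty.2 hH)
  have h0 : H.coeff i ≠ 0 := mem_support_iff.1 hi
  obtain ⟨H1, e⟩ : ∃ H1 : V.O[X], H1.map V.O.subtype = C (H.coeff i)⁻¹ * H := by
    refine (mem_lifts _).1 ((lifts_iff_coeff_lifts _).2 fun n => ?_)
    rw [coeff_C_mul]
    refine ⟨⟨(H.coeff i)⁻¹ * H.coeff n, (V.O.valuation_le_one_iff _).1 ?_⟩, rfl⟩
    rw [map_mul, map_inv₀]
    by_cases hn : n ∈ H.support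
    · exact (inv_mul_le_one₀ (by simpa [zero_lt_iff] using h0)).2 (hm n hn)
    · simp [notMem_support_iff.1 hn]
  refine ⟨_, H1, h0, by rw [e, ← mul_assoc, ← C_mul, mul_inv_cancel₀ h0, C_1, one_mul], fun z => ?_⟩
  have e1 : H1.coeff i = 1 := Subtype.ext (by
    have := congrArg (coeff · i) e
    simpa [inv_mul_cancel₀ h0] using this)
  simpa [e1] using congrArg (coeff · i) z

theorem scal {s : L} {G K : V.O[X]} (h : C s * G.map V.O.subtype = K.map V.O.subtype)
    (hG : G.map V.π ≠ 0) : ∃ s' : V.O, (s' : L) = s ∧ C s' * G = K := by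
  obtain ⟨i, hi⟩ : ∃ i, V.π (G.coeff i) ≠ 0 := by
    by_contra hn
    push Not at hn
    exact hG (by ext i; simp [hn])
  have e : s * (G.coeff i : L) = (K.coeff i : L) := by simpa using congrArg (coeff · i) h
  have hs : s ∈ V.O := by
    rw [← V.O.valuation_le_one_iff]
    have := congrArg V.O.valuation e
    rw [map_mul, v1 V hi, mul_one] at this
    exact this ▸ V.O.valuation_le_one _
  refine ⟨⟨s, hs⟩, rfl, map_injective V.O.subtype Subtype.val_injective ?_⟩
  rw [← h, Polynomial.map_mul, map_C]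
  rfl

theorem mid {f : V.O[X]} {a1 a2 b1 b2 : V.O} {A B R : L[X]} {N : ℕ} (hN : N ≠ 0)
    (ha : V.π a2 = V.π a1) (hb : V.π b1 + V.π b2 = 0) (hf : (f.map V.π).eval (V.π a1) ≠ 0)
    (hA : A ≠ 0) (hB : B ≠ 0) (hR : R ≠ 0) (dB : B.natDegree + 2 ≤ 2 * N)
    (h1 : (N : L[X]) * (B * R) = derivative A * ((X - C (a1 : L)) * (X - C (a2 : L))) -
      (N : L[X]) * A * ((X - C (a1 : L)) + (X - C (a2 : L))))
    (h2 : 2 * (N : L[X]) * (A * R) = (2 * f.map V.O.subtype * derivative B +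
      derivative (f.map V.O.subtype) * B) * ((X - C (a1 : L)) * (X - C (a2 : L))) -
        2 * (N : L[X]) * f.map V.O.subtype * B * ((X - C (a1 : L)) + (X - C (a2 : L))))
    (h3 : (X - C (a1 : L)) * (X - C (a2 : L)) ∣
      R - (C (b1 : L) * (X - C (a2 : L)) + C (b2 : L) * (X - C (a1 : L)))) : False := by
  obtain ⟨l, A1, l0, rfl, pA⟩ := prim V hA
  obtain ⟨m, B1, m0, rfl, pB⟩ := prim V hB
  obtain ⟨n, R1, n0, rfl, pR⟩ := prim V hR
  have hN' : (N : ℂ[X]) ≠ 0 := Nat.cast_ne_zero.2 hN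
  have ul : C l⁻¹ * C l = 1 := by rw [← C_mul, inv_mul_cancel₀ l0, C_1]
  have um : C m⁻¹ * C m = 1 := by rw [← C_mul, inv_mul_cancel₀ m0, C_1]
  have un : C n⁻¹ * C n = 1 := by rw [← C_mul, inv_mul_cancel₀ n0, C_1]
  simp only [derivative_C_mul, derivative_map] at h1 h2
  obtain ⟨s1, e1, g1⟩ := scal V (s := l⁻¹ * m * n) (G := (N : V.O[X]) * (B1 * R1))
    (K := derivative A1 * ((X - C a1) * (X - C a2)) - (N : V.O[X]) * A1 * ((X - C a1) + (X - C a2))) (by
      simp only [Polynomial.map_mul, Polynomial.map_sub, Polynomial.map_add, map_X, map_C,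
        Polynomial.map_natCast, C_mul, ValuationSubring.subtype_apply]
      linear_combination C l⁻¹ * h1 + (A1.derivative.map V.O.subtype * ((X - C (a1 : L)) *
        (X - C (a2 : L))) - (N : L[X]) * A1.map V.O.subtype * ((X - C (a1 : L)) + (X - C (a2 : L)))) * ul)
    (by simp [hN', pB, pR])
  obtain ⟨s2, e2, g2⟩ := scal V (s := m⁻¹ * l * n) (G := 2 * (N : V.O[X]) * (A1 * R1))
    (K := (2 * f * derivative B1 + derivative f * B1) * ((X - C a1) * (X - C a2)) -
      2 * (N : V.O[X]) * f * B1 * ((X - C a1) + (X - C a2))) (by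
      simp only [Polynomial.map_mul, Polynomial.map_sub, Polynomial.map_add, map_X, map_C,
        Polynomial.map_natCast, C_mul, ValuationSubring.subtype_apply, Polynomial.map_ofNat]
      linear_combination C m⁻¹ * h2 + ((2 * f.map V.O.subtype * B1.derivative.map V.O.subtype +
        f.derivative.map V.O.subtype * B1.map V.O.subtype) * ((X - C (a1 : L)) *
        (X - C (a2 : L))) - 2 * (N : L[X]) * f.map V.O.subtype * B1.map V.O.subtype *
          ((X - C (a1 : L)) + (X - C (a2 : L)))) * um)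
    (by simp [hN', pA, pR])
  replace g1 := congrArg (Polynomial.map V.π) g1
  replace g2 := congrArg (Polynomial.map V.π) g2
  simp only [Polynomial.map_mul, Polynomial.map_sub, Polynomial.map_add, map_X, map_C,
    Polynomial.map_natCast, Polynomial.map_ofNat, ← derivative_map, ha] at g1 g2
  refine core hf pA pB ?_ g1 g2 fun z1 z2 => ?_
  · rw [natDegree_C_mul m0, natDegree_map_eq_of_injective Subtype.val_injective] at dB
    have := natDegree_map_le (f := V.π) (p := B1)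
    omega
  · have vn : V.O.valuation n ^ 2 = 1 := by
      have : n ^ 2 = s1 * s2 := by rw [e1, e2]; field_simp
      rw [← map_pow, this, map_mul, v1 V z1, v1 V z2, mul_one]
    have hn : n⁻¹ ∈ V.O := by
      rw [← V.O.valuation_le_one_iff, map_inv₀, (pow_eq_one_iff_of_nonneg zero_le two_ne_zero).1 vn,
        inv_one]
    have d : (X - C a1) * (X - C a2) ∣ R1 - C ⟨n⁻¹, hn⟩ * (C b1 * (X - C a2) + C b2 * (X - C a1)) := by
      rw [← map_dvd_map V.O.subtype Subtype.val_injective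
        ((monic_X_sub_C _).mul (monic_X_sub_C _))]
      obtain ⟨S, hS⟩ := h3
      refine ⟨C n⁻¹ * S, ?_⟩
      simp only [Polynomial.map_mul, Polynomial.map_sub, Polynomial.map_add, map_X, map_C,
        ValuationSubring.subtype_apply]
      linear_combination C n⁻¹ * hS - R1.map V.O.subtype * un
    have := Polynomial.map_dvd V.π d
    simp only [Polynomial.map_mul, Polynomial.map_sub, Polynomial.map_add, map_X, map_C, ha] at this
    rwa [← add_mul, ← C_add, hb, C_0, zero_mul, mul_zero, sub_zero] at this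

/-- the two differential identities of a Pell datum -/
structure LD (f : L[X]) (N : ℕ) (a b : L) (A B Q : L[X]) : Prop where
  i1 : (N : L[X]) * (B * Q + A) = derivative A * (X - C a)
  i2 : 2 * (N : L[X]) * (A * Q + f * B) = (2 * f * derivative B + derivative f * B) * (X - C a)
  nn : A ^ 2 - f * B ^ 2 ≠ 0
  dA : A.natDegree ≤ N
  dB : B.natDegree + 4 ≤ N
  qa : Q.eval a = b
  b0 : b ≠ 0

theorem LD.neg {f : L[X]} {N : ℕ} {a b : L} {A B Q : L[X]} (h : LD f N a b A B Q) :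
    LD f N a (-b) A (-B) (-Q) :=
  ⟨by linear_combination h.i1, by rw [derivative_neg]; linear_combination -h.i2,
    by simpa using h.nn, h.dA, by simpa using h.dB, by simp [h.qa], neg_ne_zero.2 h.b0⟩

theorem ld_of [CharZero L] {f : L[X]} {N : ℕ} {P : PD L} (h : P.OK f N) :
    LD f N P.a P.b P.A P.B P.Q := by
  have j1 := idI (dX L) f P.A P.B
  have j2 := idII (dX L) f P.A P.B
  obtain ⟨n, hn⟩ : ∃ n, 2 * N = n + 1 := ⟨2 * N - 1, by have := h.pos; omega⟩
  have cn : ((n + 1 : ℕ) : L[X]) = 2 * N := by rw [← hn]; push_cast; rfl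
  have c0 : C P.c * (X - C P.a) ^ n ≠ 0 :=
    mul_ne_zero (C_ne_zero.2 h.hc) (pow_ne_zero _ (X_sub_C_ne_zero _))
  rw [coe_dX, h.hQ, h.eqn, derivative_C_mul, hn, derivative_X_sub_C_pow] at j1 j2
  simp only [Nat.add_sub_cancel, map_natCast, C_mul, map_ofNat, cn] at j1 j2
  refine ⟨mul_left_cancel₀ (mul_ne_zero two_ne_zero c0) ?_, mul_left_cancel₀ c0 ?_, ?_, h.dA, h.dB,
    h.Qa, h.b_ne⟩
  · linear_combination j1
  · linear_combination j2
  · rw [h.eqn]
    exact mul_ne_zero (C_ne_zero.2 h.hc) (pow_ne_zero _ (X_sub_C_ne_zero _))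

theorem two [CharZero L] {f : V.O[X]} {a1 a2 b1 b2 : V.O} {A1 B1 Q1 A2 B2 Q2 : L[X]} {N : ℕ}
    (h : LD (f.map V.O.subtype) N a1 b1 A1 B1 Q1) (h' : LD (f.map V.O.subtype) N a2 b2 A2 B2 Q2)
    (ne : (a1 : L) ≠ a2) (ha : V.π a2 = V.π a1) (hb : V.π b1 + V.π b2 = 0)
    (hf : (f.map V.π).eval (V.π a1) ≠ 0) : False := by
  have hN : N ≠ 0 := by have := h.dB; omega
  have hN' : (N : L[X]) ≠ 0 := Nat.cast_ne_zero.2 hN
  have i1 := h.i1
  have i2 := h.i2
  have j1 := h'.i1
  have j2 := h'.i2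
  set F := f.map V.O.subtype with hF
  set A := A1 * A2 + F * (B1 * B2) with hA
  set B := A1 * B2 + A2 * B1 with hB
  set R := Q1 * (X - C (a2 : L)) + Q2 * (X - C (a1 : L)) with hR
  have h1 : (N : L[X]) * (B * R) = derivative A * ((X - C (a1 : L)) * (X - C (a2 : L))) -
      (N : L[X]) * A * ((X - C (a1 : L)) + (X - C (a2 : L))) := by
    refine mul_left_cancel₀ (two_ne_zero (α := L[X])) ?_
    simp only [hA, hB, hR, derivative_add, derivative_mul]
    linear_combination 2 * (X - C (a2 : L)) * A2 * i1 + 2 * (X - C (a1 : L)) * A1 * j1 +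
      (X - C (a2 : L)) * B2 * i2 + (X - C (a1 : L)) * B1 * j2
  have h2 : 2 * (N : L[X]) * (A * R) = (2 * F * derivative B + derivative F * B) *
      ((X - C (a1 : L)) * (X - C (a2 : L))) -
        2 * (N : L[X]) * F * B * ((X - C (a1 : L)) + (X - C (a2 : L))) := by
    simp only [hA, hB, hR, derivative_add, derivative_mul]
    linear_combination 2 * F * (X - C (a2 : L)) * B2 * i1 + 2 * F * (X - C (a1 : L)) * B1 * j1 +
      (X - C (a2 : L)) * A2 * i2 + (X - C (a1 : L)) * A1 * j2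
  have R0 : R ≠ 0 := fun z => by
    have := congrArg (eval (a1 : L)) z
    simp [hR, h.qa, h.b0, sub_eq_zero, ne] at this
  have nn : A ^ 2 - F * B ^ 2 ≠ 0 := by
    rw [show A ^ 2 - F * B ^ 2 = (A1 ^ 2 - F * B1 ^ 2) * (A2 ^ 2 - F * B2 ^ 2) by rw [hA, hB]; ring]
    exact mul_ne_zero h.nn h'.nn
  have A0 : A ≠ 0 := fun z => by
    have : B = 0 := by simpa [z, hN', R0] using h1
    simp [z, this] at nn
  have B0 : B ≠ 0 := fun z => by
    have : A = 0 := by simpa [z, hN', R0] using h2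
    exact A0 this
  refine mid V hN ha hb hf A0 B0 R0 ?_ h1 h2 ?_
  · have k1 := natDegree_mul_le (p := A1) (q := B2)
    have k2 := natDegree_mul_le (p := A2) (q := B1)
    have k3 := natDegree_add_le (A1 * B2) (A2 * B1)
    have := h.dA
    have := h.dB
    have := h'.dA
    have := h'.dB
    rw [hB]
    omega
  · obtain ⟨S1, e1⟩ := X_sub_C_dvd_sub_C_eval (p := Q1) (a := (a1 : L))
    obtain ⟨S2, e2⟩ := X_sub_C_dvd_sub_C_eval (p := Q2) (a := (a2 : L))
    rw [h.qa] at e1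
    rw [h'.qa] at e2
    exact ⟨S1 + S2, by
      rw [hR]; linear_combination (X - C (a2 : L)) * e1 + (X - C (a1 : L)) * e2⟩

end F0x

open F0x in
theorem f0 : S_F0 := by
  intro L _ _ _ V c hc k l hkl ha
  by_contra hn
  push Not at hn
  set f : V.O[X] := ∏ i, (X - C ⟨c.e i, hc.eO i⟩) with hf
  have ef : f.map V.O.subtype = C c.u * ∏ i, (X - C (c.e i)) := by
    simp [hf, hc.u1, Polynomial.map_prod]
  have ra : ∀ k, ar V c k = V.π ⟨_, hc.aO k⟩ := fun k => dif_pos (hc.aO k)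
  have re : ∀ i, xr V c i = V.π ⟨_, hc.eO i⟩ := fun i => dif_pos (hc.eO i)
  have f0 : (f.map V.π).eval (V.π ⟨_, hc.aO k⟩) ≠ 0 := by
    simp only [hf, Polynomial.map_prod, Polynomial.map_sub, map_X, map_C, eval_prod, eval_sub, eval_X,
      eval_C, ← ra, ← re]
    exact Finset.prod_ne_zero_iff.2 fun i _ => sub_ne_zero.2 (hn i).symm
  have sq : ∀ k, (c.P k).b ^ 2 = (f.eval ⟨_, hc.aO k⟩ : V.O) := fun k => by
    rw [(c.ok k).bsq, ← ef]
    exact eval_map_apply (p := f) V.O.subtype ⟨_, hc.aO k⟩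
  have bO : ∀ k, (c.P k).b ∈ V.O := fun k => by
    rw [← V.O.valuation_le_one_iff, ← pow_le_one_iff two_ne_zero, ← map_pow, sq]
    exact V.O.valuation_le_one _
  have sq' : ∀ k, V.π ⟨_, bO k⟩ ^ 2 = (f.map V.π).eval (V.π ⟨_, hc.aO k⟩) := fun k => by
    rw [eval_map_apply, ← map_pow]
    exact congrArg V.π (Subtype.ext (sq k))
  have ld : ∀ k, LD (f.map V.O.subtype) c.N (⟨_, hc.aO k⟩ : V.O) (⟨_, bO k⟩ : V.O) _ _ _ :=
    fun k => ef ▸ ld_of (c.ok k)
  rw [ra, ra] at ha
  have ne : (c.P k).a ≠ (c.P l).a := fun h => hkl (c.ainj h)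
  have e := sq' k
  rw [ha, ← sq' l] at e
  rcases sq_eq_sq_iff_eq_or_eq_neg.1 e with e | e
  · exact two V (b2 := -⟨_, bO l⟩) (ld k) (ld l).neg ne ha.symm (by rw [map_neg, e, add_neg_cancel]) f0
  · exact two V (ld k) (ld l) ne ha.symm (by rw [e, neg_add_cancel]) f0

end Pool.Agent.MP_8d06cc_nt.R4
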