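import Mathlib

/-! Orders of two cubics at the roots of a quartic. -/

namespace Pool.Agent.MP_8d06cc_nt.R4.F5p

open Polynomial

variable {k : Type} [Field k]

lemma pow_dvd {z : k} {h : ℕ} {q E : k[X]} (hE : E.eval z ≠ 0) (hd : (X - C z) ^ h ∣ q * E) :
    (X - C z) ^ h ∣ q := by
  have hc : IsCoprime (X - C z) E :=
    (irreducible_X_sub_C z).coprime_iff_not_dvd.2 fun e => hE (dvd_iff_isRoot.1 e)
  exact hc.pow_left.dvd_of_dvd_mul_right hd

/-- the order of the cubic at a root of the quartic -/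
lemma ordq [CharZero k] {n4 n1 q A : k[X]} {a z t s : k} {h : ℕ} (hA : A ≠ 0)
    (hz : A.eval z = 0) (ht : t ≠ 0) (e : C t * q * A = n4 * ((X - C a) * derivative A - C s * A))
    (hn : n4 = (X - C z) ^ (h + 1) * n1) (h1 : n1.eval z ≠ 0) :
    ∃ q1, q = (X - C z) ^ h * q1 ∧ (z ≠ a → q1.eval z ≠ 0) := by
  obtain ⟨A1, hA1, hd⟩ := exists_eq_pow_rootMultiplicity_mul_and_not_dvd A hA z
  obtain ⟨μ, hμ⟩ : ∃ μ, rootMultiplicity z A = μ + 1 :=
    Nat.exists_eq_succ_of_ne_zero ((rootMultiplicity_pos hA).2 hz).ne'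
  rw [hμ] at hA1
  have a1 : A1.eval z ≠ 0 := fun e => hd (dvd_iff_isRoot.2 e)
  have hX : (X - C z : k[X]) ≠ 0 := X_sub_C_ne_zero z
  have hD : derivative A = (X - C z) ^ μ * (C ((μ : k) + 1) * A1 + (X - C z) * derivative A1) := by
    rw [hA1, derivative_mul, derivative_X_sub_C_pow]
    simp only [Nat.add_sub_cancel, Nat.cast_add, Nat.cast_one, map_add, map_natCast, map_one]
    ring
  have e2 : q * (C t * A1) = (X - C z) ^ h * (n1 * ((X - C a) *
      (C ((μ : k) + 1) * A1 + (X - C z) * derivative A1) - C s * (X - C z) * A1)) := by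
    refine mul_left_cancel₀ (pow_ne_zero (μ + 1) hX) ?_
    rw [hD, hn] at e
    rw [hA1] at e
    linear_combination e
  have hE : (C t * A1).eval z ≠ 0 := by
    rw [eval_mul, eval_C]
    exact mul_ne_zero ht a1
  obtain ⟨q1, hq⟩ := pow_dvd hE ⟨_, e2⟩
  refine ⟨q1, hq, fun hza h0 => ?_⟩
  rw [hq, mul_assoc] at e2
  have e3 := congrArg (eval z) (mul_left_cancel₀ (pow_ne_zero h hX) e2)
  simp only [eval_mul, eval_sub, eval_add, eval_C, eval_X, h0, sub_self, zero_mul, mul_zero,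
    add_zero, sub_zero] at e3
  exact mul_ne_zero h1 (mul_ne_zero (sub_ne_zero.2 hza)
    (mul_ne_zero (Nat.cast_add_one_ne_zero μ) a1)) e3.symm

/-- the linear condition at one root -/
lemma one {n4 n1 q q' q1 q1' : k[X]} {a a' z α β κ μ ν : k} {h : ℕ} (haa : a ≠ a') (hα : α ≠ 0)
    (hβ : β ≠ 0) (e : C α * q * (X - C a') + C β * q' * (X - C a) = C κ * n4)
    (hn : n4 = (X - C z) ^ (h + 1) * n1) (hq : q = (X - C z) ^ h * q1)
    (hq' : q' = (X - C z) ^ h * q1') (h1 : z ≠ a → q1.eval z ≠ 0) (h2 : z ≠ a' → q1'.eval z ≠ 0)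
    (hd : (X - C z) ^ (h + 1) ∣ C μ * q + C ν * q') :
    μ * β * (z - a) = ν * α * (z - a') := by
  have hX : (X - C z : k[X]) ≠ 0 := X_sub_C_ne_zero z
  have e1 : C α * q1 * (X - C a') + C β * q1' * (X - C a) = C κ * (X - C z) * n1 := by
    refine mul_left_cancel₀ (pow_ne_zero h hX) ?_
    rw [hn, hq, hq'] at e
    linear_combination e
  obtain ⟨r, hr⟩ := hd
  have e2 : C μ * q1 + C ν * q1' = (X - C z) * r := by
    refine mul_left_cancel₀ (pow_ne_zero h hX) ?_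
    rw [hq, hq'] at hr
    linear_combination hr
  have f1 := congrArg (eval z) e1
  have f2 := congrArg (eval z) e2
  simp only [eval_mul, eval_sub, eval_add, eval_C, eval_X, sub_self, zero_mul, mul_zero] at f1 f2
  by_cases hu : q1.eval z = 0
  · have hw : q1'.eval z ≠ 0 := h2 fun e' => h1 (fun e'' => haa (e''.symm.trans e')) hu
    refine mul_right_cancel₀ hw ?_
    linear_combination μ * f1 - α * (z - a') * f2
  · refine mul_right_cancel₀ hu ?_
    linear_combination β * (z - a) * f2 - ν * f1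

lemma two {a a' z w α β μ ν : k} (haa : a ≠ a') (hzw : z ≠ w) (hα : α ≠ 0) (hβ : β ≠ 0)
    (h1 : μ * β * (z - a) = ν * α * (z - a')) (h2 : μ * β * (w - a) = ν * α * (w - a')) :
    μ = 0 ∧ ν = 0 := by
  have e1 : μ * β = ν * α := by
    refine mul_right_cancel₀ (sub_ne_zero.2 hzw) ?_
    linear_combination h1 - h2
  have e2 : μ * β * (a' - a) = 0 := by linear_combination h1 - (z - a') * e1
  have e3 : μ * β = 0 := (mul_eq_zero.1 e2).resolve_right (sub_ne_zero.2 haa.symm)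
  exact ⟨(mul_eq_zero.1 e3).resolve_right hβ,
    (mul_eq_zero.1 (e1.symm.trans e3)).resolve_right hα⟩

/-- three vectors in the span of two are dependent -/
lemma dep3 {p p' x y z : k[X]} {u₁ v₁ u₂ v₂ u₃ v₃ : k} (hx : x = C u₁ * p + C v₁ * p')
    (hy : y = C u₂ * p + C v₂ * p') (hz : z = C u₃ * p + C v₃ * p') :
    ∃ r s t : k, (r ≠ 0 ∨ s ≠ 0 ∨ t ≠ 0) ∧ C r * x + C s * y + C t * z = 0 := by
  by_cases h : u₂ * v₃ - u₃ * v₂ ≠ 0
  · refine ⟨u₂ * v₃ - u₃ * v₂, u₃ * v₁ - u₁ * v₃, u₁ * v₂ - u₂ * v₁, Or.inl h, ?_⟩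
    simp only [hx, hy, hz, map_sub, map_mul]
    ring
  have h' : C u₂ * C v₃ - C u₃ * C v₂ = (0 : k[X]) := by
    rw [← map_mul, ← map_mul, ← map_sub, not_not.1 h, map_zero]
  by_cases h2 : u₂ ≠ 0
  · refine ⟨0, -u₃, u₂, Or.inr (Or.inr h2), ?_⟩
    simp only [hy, hz, map_neg, map_zero]
    linear_combination p' * h'
  by_cases h3 : v₂ ≠ 0
  · refine ⟨0, -v₃, v₂, Or.inr (Or.inr h3), ?_⟩
    simp only [hy, hz, map_neg, map_zero]
    linear_combination -p * h'
  refine ⟨0, 1, 0, Or.inr (Or.inl one_ne_zero), ?_⟩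
  simp [hy, not_not.1 h2, not_not.1 h3]

end Pool.Agent.MP_8d06cc_nt.R4.F5p
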