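import Pool.Agent.MP_8d06cc_nt.R4.CR
import Pool.Agent.MP_8d06cc_nt.DA.Pell

/-! A primitive integral model of one Pell datum and its reduction. -/

namespace Pool.Agent.MP_8d06cc_nt.R4

namespace K6

open Polynomial DA CRx

noncomputable section

variable {L : Type} [Field L] {V : VF L}

lemma r_coe (x : V.O) : V.r x = V.π x := dif_pos x.2

lemma val_one {x : V.O} (h : V.π x ≠ 0) : V.O.valuation (x : L) = 1 :=
  le_antisymm (V.O.valuation_le_one x) (not_lt.1 fun e => h ((V.ker x).2 e))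

lemma pinj : Function.Injective (Polynomial.map V.O.subtype) :=
  map_injective _ V.O.subtype_injective

lemma lift {p : L[X]} (hp : ∀ n, V.O.valuation (p.coeff n) ≤ 1) :
    ∃ q : V.O[X], q.map V.O.subtype = p :=
  (mem_lifts _).1 ((lifts_iff_coeff_lifts _).2 fun n =>
    ⟨⟨_, (V.O.valuation_le_one_iff _).1 (hp n)⟩, rfl⟩)

lemma prim (V : VF L) {p : L[X]} (hp : p ≠ 0) :
    ∃ l : L, l ≠ 0 ∧ ∃ q : V.O[X], q.map V.O.subtype = C l * p ∧ q.map V.π ≠ 0 := by
  obtain ⟨n, hn, mx⟩ := p.support.exists_max_image (fun n => V.O.valuation (p.coeff n))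
    (support_nonempty.2 hp)
  have c0 : p.coeff n ≠ 0 := mem_support_iff.1 hn
  obtain ⟨q, hq⟩ := lift (V := V) (p := C (p.coeff n)⁻¹ * p) fun m => by
    rw [coeff_C_mul, map_mul, map_inv₀]
    refine inv_mul_le_one_of_le₀ ?_ zero_le
    by_cases h : m ∈ p.support
    · exact mx m h
    · rw [notMem_support_iff.1 h, map_zero]
      exact zero_le
  refine ⟨_, inv_ne_zero c0, q, hq, fun e => ?_⟩
  have h1 : q.coeff n = 1 := V.O.subtype_injective (by
    rw [← coeff_map, hq, coeff_C_mul, inv_mul_cancel₀ c0, map_one])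
  have h2 := congrArg (coeff · n) e
  simp only [coeff_map, h1, map_one, coeff_zero] at h2
  exact one_ne_zero h2

lemma gauss {B R : V.O[X]} {Q : L[X]} (hB : B.map V.π ≠ 0)
    (h : B.map V.O.subtype * Q = R.map V.O.subtype) : ∃ Q' : V.O[X], Q'.map V.O.subtype = Q := by
  by_cases Q0 : Q = 0
  · exact ⟨0, by rw [Q0, Polynomial.map_zero]⟩
  obtain ⟨l, l0, q, hq, q0⟩ := prim V Q0
  by_cases h1 : l⁻¹ ∈ V.O
  · refine ⟨C ⟨_, h1⟩ * q, ?_⟩
    rw [Polynomial.map_mul, map_C, hq, ← mul_assoc, ← C_mul]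
    exact (congrArg (C · * Q) (inv_mul_cancel₀ l0)).trans (by rw [C_1, one_mul])
  have h2 : l ∈ V.O := (V.O.mem_or_inv_mem l).resolve_right h1
  have h3 : V.π ⟨l, h2⟩ = 0 := by
    by_contra n
    exact h1 ((V.O.valuation_le_one_iff _).1 (by rw [map_inv₀, val_one n, inv_one]))
  have e : B * q = C ⟨l, h2⟩ * R := pinj (by
    rw [Polynomial.map_mul, Polynomial.map_mul, hq, map_C, ← h, mul_left_comm]
    rfl)
  have := congrArg (Polynomial.map V.π) e
  rw [Polynomial.map_mul, Polynomial.map_mul, map_C, h3, C_0, zero_mul] at this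
  exact absurd this (mul_ne_zero hB q0)

lemma WW_map {R S : Type} [CommRing R] [CommRing S] (g : R →+* S) (f A B : R[X]) :
    (WW derivative f A B).map g = WW derivative (f.map g) (A.map g) (B.map g) := by
  simp only [WW, Polynomial.map_add, Polynomial.map_mul, Polynomial.map_sub, derivative_map,
    Polynomial.map_ofNat]

/-- the model: `A` and `ε B` are jointly primitive, `B` is primitive -/
structure Mdl (V : VF L) (c : Dat L) (k : Fin 4) where
  f : V.O[X]
  A : V.O[X]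
  B : V.O[X]
  Q : V.O[X]
  a : V.O
  ε : V.O
  κ : V.O
  l : L
  l0 : l ≠ 0
  hf : f.map V.O.subtype = c.f
  f0 : f.map V.π = ∏ i, (X - C (xr V c i))
  ha : (a : L) = (c.P k).a
  hA : A.map V.O.subtype = C l * (c.P k).A
  hB : (C ε * B).map V.O.subtype = C l * (c.P k).B
  hκ : (κ : L) = l ^ 2 * (c.P k).c
  hQ : C (ε : L) * Q.map V.O.subtype = C (2 * c.N * κ : L) * (c.P k).Q
  ε0 : ε ≠ 0
  B0 : B.map V.π ≠ 0
  pr : A.map V.π ≠ 0 ∨ V.π ε ≠ 0
  eqn : A ^ 2 - f * (C ε * B) ^ 2 = C κ * (X - C a) ^ (2 * c.N)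
  df : f.natDegree ≤ 8
  dA : A.natDegree ≤ c.N
  dB : B.natDegree + 4 ≤ c.N
  dQ : Q.natDegree ≤ 3
  W : WW derivative f A B = (X - C a) ^ (2 * c.N - 1) * Q

theorem mdl [CharZero L] {c : Dat L} (hc : Int V c) (k : Fin 4) : Nonempty (Mdl V c k) := by
  have ok : (c.P k).OK c.f c.N := c.ok k
  have dg : ∀ p : V.O[X], (p.map V.O.subtype).natDegree = p.natDegree :=
    natDegree_map_eq_of_injective V.O.subtype_injective
  let f : V.O[X] := ∏ i, (X - C ⟨c.e i, hc.eO i⟩)
  let a : V.O := ⟨_, hc.aO k⟩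
  have hf : f.map V.O.subtype = c.f := by
    simp only [f, Dat.f, hc.u1, C_1, one_mul, Polynomial.map_prod, Polynomial.map_sub, map_X, map_C]
    rfl
  have df : f.natDegree ≤ 8 := (natDegree_finsetProd_X_sub_C_eq_card ..).le
  obtain ⟨l₁, n₁, A₁, h₁, p₁⟩ := prim V (p := (c.P k).A) fun e => ok.hA (by rw [e, eval_zero])
  obtain ⟨l₂, n₂, B, h₂, p₂⟩ := prim V (p := (c.P k).B) fun e => ok.hB (by rw [e, eval_zero])
  obtain ⟨l, l0, A, ε, hA, hε, pr⟩ : ∃ l : L, l ≠ 0 ∧ ∃ (A : V.O[X]) (ε : V.O),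
      A.map V.O.subtype = C l * (c.P k).A ∧ ε * l₂ = l ∧ (A.map V.π ≠ 0 ∨ V.π ε ≠ 0) := by
    rcases V.O.mem_or_inv_mem (l₁ / l₂) with h | h
    · exact ⟨l₁, n₁, A₁, ⟨_, h⟩, h₁, div_mul_cancel₀ _ n₂, .inl p₁⟩
    · refine ⟨l₂, n₂, C ⟨_, h⟩ * A₁, 1, ?_, one_mul _, .inr (by rw [map_one]; exact one_ne_zero)⟩
      rw [Polynomial.map_mul, map_C, h₁, ← mul_assoc, ← C_mul]
      exact congrArg (C · * _) (show (l₁ / l₂)⁻¹ * l₁ = l₂ by field_simp)
  have hB : (C ε * B).map V.O.subtype = C l * (c.P k).B := by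
    rw [Polynomial.map_mul, map_C, h₂, ← mul_assoc, ← C_mul, ← hε]
    rfl
  have ε0 : (ε : L) ≠ 0 := left_ne_zero_of_mul (hε ▸ l0)
  have xa : (X - C a).map V.O.subtype = X - C (c.P k).a := by
    rw [Polynomial.map_sub, map_X, map_C]
    rfl
  have e1 : (A ^ 2 - f * (C ε * B) ^ 2).map V.O.subtype =
      C (l ^ 2 * (c.P k).c) * (X - C (c.P k).a) ^ (2 * c.N) := by
    rw [Polynomial.map_sub, Polynomial.map_mul, Polynomial.map_pow, Polynomial.map_pow, hA, hB, hf,
      C_mul, mul_assoc, ← ok.eqn, C_pow]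
    ring
  have hκ : (((A ^ 2 - f * (C ε * B) ^ 2).coeff (2 * c.N) : V.O) : L) = l ^ 2 * (c.P k).c := by
    have := congrArg (fun p : L[X] => p.coeff (2 * c.N)) e1
    have one : ((X - C (c.P k).a) ^ (2 * c.N)).coeff (2 * c.N) = (1 : L) := by
      simpa using ((monic_X_sub_C (c.P k).a).pow (2 * c.N)).coeff_natDegree
    simp only [coeff_map, coeff_C_mul, one, mul_one] at this
    exact this
  have e2 : ((X - C a) ^ (2 * c.N - 1)).map V.O.subtype *
      (C ((ε : L)⁻¹ * (2 * c.N * (l ^ 2 * (c.P k).c))) * (c.P k).Q) =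
      (WW derivative f A B).map V.O.subtype := by
    refine mul_left_cancel₀ (C_ne_zero.2 ε0) ?_
    have e3 : C (ε : L) * (WW derivative f A B).map V.O.subtype =
        C l ^ 2 * WW derivative c.f (c.P k).A (c.P k).B := by
      have : C ε * WW derivative f A B = WW derivative f A (C ε * B) := by
        simp only [WW, derivative_C_mul]
        ring
      rw [show C (ε : L) = (C ε).map V.O.subtype from (map_C V.O.subtype).symm,
        ← Polynomial.map_mul, this,
        WW_map, hA, hB, hf]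
      simp only [WW, derivative_C_mul]
      ring
    have e4 : C (ε : L) * C (ε : L)⁻¹ = 1 := by rw [← C_mul, mul_inv_cancel₀ ε0, C_1]
    rw [e3, ok.hQ, Polynomial.map_pow, xa]
    simp only [C_mul, C_pow]
    linear_combination (C 2 * C (c.N : L) * C l ^ 2 * C (c.P k).c * (c.P k).Q *
      (X - C (c.P k).a) ^ (2 * c.N - 1)) * e4
  obtain ⟨Q, hQ⟩ := gauss (((monic_X_sub_C a).pow _).map V.π).ne_zero e2
  refine ⟨⟨f, A, B, Q, a, ε, _, l, l0, hf, ?_, rfl, hA, hB, hκ, ?_, fun e => ε0 (by rw [e]; rfl), p₂,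
    pr, pinj ?_, df, ?_, ?_, ?_, pinj ?_⟩⟩
  · simp only [f, Polynomial.map_prod, Polynomial.map_sub, map_X, map_C, xr]
    exact Finset.prod_congr rfl fun i _ => by rw [← r_coe]
  · rw [hQ, hκ, ← mul_assoc, ← C_mul, mul_inv_cancel_left₀ ε0]
  · rw [e1, Polynomial.map_mul, Polynomial.map_pow, xa, map_C, ← hκ]
    rfl
  · rw [← dg, hA]
    exact (natDegree_C_mul_le _ _).trans ok.dA
  · rw [← dg, h₂]
    exact (Nat.add_le_add_right (natDegree_C_mul_le _ _) 4).trans ok.dB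
  · rw [← dg, hQ]
    exact (natDegree_C_mul_le _ _).trans (ok.degQ (by rw [← hf, dg]; exact df))
  · rw [Polynomial.map_mul, hQ, e2]

variable {c : Dat L} {k : Fin 4} (M : Mdl V c k)

lemma Mdl.a0 : V.π M.a = ar V c k := by rw [ar, ← M.ha, r_coe]

lemma Mdl.κ0 : (M.κ : L) ≠ 0 := M.hκ ▸ mul_ne_zero (pow_ne_zero _ M.l0) (c.ok k).hc

/-- the reduced equation -/
lemma Mdl.eqn0 : M.A.map V.π ^ 2 - M.f.map V.π * (C (V.π M.ε) * M.B.map V.π) ^ 2 =
    C (V.π M.κ) * (X - C (ar V c k)) ^ (2 * c.N) := by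
  simpa only [Polynomial.map_sub, Polynomial.map_mul, Polynomial.map_pow, map_C, map_X, M.a0]
    using congrArg (Polynomial.map V.π) M.eqn

lemma Mdl.W0 : WW derivative (M.f.map V.π) (M.A.map V.π) (M.B.map V.π) =
    (X - C (ar V c k)) ^ (2 * c.N - 1) * M.Q.map V.π := by
  simpa only [WW_map, Polynomial.map_sub, Polynomial.map_mul, Polynomial.map_pow, map_C, map_X,
    M.a0] using congrArg (Polynomial.map V.π) M.W

lemma Mdl.f0ne : M.f.map V.π ≠ 0 :=
  M.f0 ▸ (monic_prod_of_monic _ _ fun _ _ => monic_X_sub_C _).ne_zero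

lemma Mdl.f0ev (z : ℂ) : (M.f.map V.π).eval z = 0 ↔ ∃ i, xr V c i = z := by
  simp only [M.f0, eval_prod, eval_sub, eval_X, eval_C, Finset.prod_eq_zero_iff, Finset.mem_univ,
    true_and, sub_eq_zero]
  exact exists_congr fun _ => eq_comm

lemma Mdl.both (h : V.π M.κ = 0) : M.A.map V.π ≠ 0 ∧ V.π M.ε ≠ 0 := by
  have e := M.eqn0
  rw [h, C_0, zero_mul, sub_eq_zero] at e
  have k : M.A.map V.π = 0 ↔ V.π M.ε = 0 := by
    rw [← pow_eq_zero_iff two_ne_zero, e]
    simp [M.f0ne, M.B0]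
  rcases M.pr with p | p
  · exact ⟨p, mt k.2 p⟩
  · exact ⟨mt k.1 p, p⟩

lemma Mdl.psi_eq (x y : L) : psi (c.P k) x y =
    ((M.A.map V.O.subtype).eval x + ((C M.ε * M.B).map V.O.subtype).eval x * y) /
      ((M.A.map V.O.subtype).eval x - ((C M.ε * M.B).map V.O.subtype).eval x * y) := by
  rw [M.hA, M.hB, eval_mul, eval_mul, eval_C, mul_assoc, ← mul_add, ← mul_sub,
    mul_div_mul_left _ _ M.l0, psi]

lemma Mdl.nrm {x y : L} (hy : y ^ 2 = c.f.eval x) :
    ((M.A.map V.O.subtype).eval x + ((C M.ε * M.B).map V.O.subtype).eval x * y) *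
      ((M.A.map V.O.subtype).eval x - ((C M.ε * M.B).map V.O.subtype).eval x * y) =
      M.κ * (x - (c.P k).a) ^ (2 * c.N) := by
  have e := congrArg (fun p => (p.map V.O.subtype).eval x) M.eqn
  simp only [Polynomial.map_sub, Polynomial.map_pow, Polynomial.map_mul (p := M.f),
    Polynomial.map_mul (p := C M.κ), map_C, map_X, eval_sub, eval_mul, eval_pow, eval_C, eval_X,
    M.hf] at e
  rw [← M.ha]
  refine Eq.trans ?_ e
  linear_combination -((C M.ε * M.B).map V.O.subtype).eval x ^ 2 * hy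

lemma ev_le {p : V.O[X]} {n : ℕ} (hp : p.natDegree ≤ n) {x : L} {t : V.O.ValueGroup} (h1 : 1 ≤ t)
    (hx : V.O.valuation x ≤ t) : V.O.valuation ((p.map V.O.subtype).eval x) ≤ t ^ n := by
  rw [eval_map, eval₂_eq_sum_range]
  refine Valuation.map_sum_le _ fun i hi => ?_
  rw [map_mul, map_pow]
  exact (mul_le_of_le_one_left' (V.O.valuation_le_one _)).trans ((pow_le_pow_left' hx i).trans
    (pow_le_pow_right' h1 ((Nat.lt_succ_iff.1 (Finset.mem_range.1 hi)).trans hp)))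

lemma Mdl.le {x y : L} (hy : y ^ 2 = c.f.eval x) {t : V.O.ValueGroup} (h1 : 1 ≤ t)
    (hx : V.O.valuation x ≤ t) :
    V.O.valuation ((M.A.map V.O.subtype).eval x + ((C M.ε * M.B).map V.O.subtype).eval x * y) ≤
      t ^ c.N ∧
    V.O.valuation ((M.A.map V.O.subtype).eval x - ((C M.ε * M.B).map V.O.subtype).eval x * y) ≤
      t ^ c.N := by
  have y4 : V.O.valuation y ≤ t ^ 4 := by
    refine (pow_le_pow_iff_left₀ zero_le zero_le two_ne_zero).1 ?_
    rw [← map_pow, hy, ← M.hf, ← pow_mul]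
    exact ev_le M.df h1 hx
  have b : V.O.valuation (((C M.ε * M.B).map V.O.subtype).eval x * y) ≤ t ^ c.N := by
    rw [map_mul]
    refine (mul_le_mul' (ev_le (natDegree_C_mul_le _ _) h1 hx) y4).trans ?_
    rw [← pow_add]
    exact pow_le_pow_right' h1 M.dB
  exact ⟨Valuation.map_add_le _ (ev_le M.dA h1 hx) b, Valuation.map_sub_le _ (ev_le M.dA h1 hx) b⟩

/-- a unit norm constant gives `l = 0` -/
lemma Mdl.unit (h : V.π M.κ ≠ 0) {x y : L} (hx : 1 ≤ V.O.valuation (x - (c.P k).a))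
    (hy : y ^ 2 = c.f.eval x) : V.O.valuation (psi (c.P k) x y) = 1 := by
  have h2 : V.O.valuation x ≤ V.O.valuation (x - (c.P k).a) := by
    have := Valuation.map_add_le V.O.valuation (le_refl (V.O.valuation (x - (c.P k).a)))
      ((M.ha ▸ V.O.valuation_le_one M.a : V.O.valuation (c.P k).a ≤ 1).trans hx)
    rwa [sub_add_cancel] at this
  obtain ⟨b1, b2⟩ := M.le hy hx h2
  have e := congrArg V.O.valuation (M.nrm hy)
  rw [map_mul, map_mul, val_one h, one_mul, map_pow, two_mul, pow_add] at e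
  have t0 : 0 < V.O.valuation (x - (c.P k).a) ^ c.N := pow_pos (zero_lt_one.trans_le hx) _
  have e1 := le_antisymm b1 (not_lt.1 fun q =>
    ((mul_le_mul_right b2 _).trans_lt (mul_lt_mul_of_pos_right q t0)).ne e)
  rw [e1] at e
  rw [M.psi_eq, map_div₀, e1, mul_left_cancel₀ t0.ne' e, div_self t0.ne']

/-- a non-unit norm constant: the value is not a unit where the reduction of `A` is not zero -/
lemma Mdl.nonunit (h : V.π M.κ = 0) {x : V.O} {y : L} (hy : y ^ 2 = c.f.eval (x : L))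
    (hA : (M.A.map V.π).eval (V.π x) ≠ 0) : V.O.valuation (psi (c.P k) x y) ≠ 1 := by
  intro e
  have n := congrArg V.O.valuation (M.nrm hy)
  have n1 : V.O.valuation ((M.κ : L) * ((x : L) - (c.P k).a) ^ (2 * c.N)) < 1 := by
    rw [map_mul, map_pow, ← M.ha]
    exact (mul_le_of_le_one_right' (pow_le_one' (V.O.valuation_le_one (x - M.a)) _)).trans_lt
      ((V.ker _).1 h)
  rw [M.psi_eq, map_div₀] at e
  have e' := eq_of_div_eq_one e
  rw [map_mul, ← e'] at n
  have q : V.O.valuation ((M.A.map V.O.subtype).eval (x : L) +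
      ((C M.ε * M.B).map V.O.subtype).eval (x : L) * y) < 1 :=
    not_le.1 fun q => (n ▸ n1).not_ge (one_le_mul q q)
  have s := Valuation.map_add_lt V.O.valuation q (e' ▸ q)
  have u : V.π (M.A.eval x + M.A.eval x) ≠ 0 := by
    rw [map_add, ← two_mul, ← eval_map_apply]
    exact mul_ne_zero two_ne_zero hA
  refine s.ne (Eq.trans (congrArg _ ?_) (val_one u))
  rw [show (M.A.map V.O.subtype).eval (x : L) = (M.A.eval x : V.O) from
    eval_map_apply V.O.subtype x]
  push_cast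
  ring

lemma Mdl.ell_iff [IsAlgClosed L] : ell V c k ↔ V.π M.κ = 0 := by
  refine ⟨fun h => by_contra fun n => h fun x hx y hy => ?_, fun h z => ?_⟩
  · rw [prod_single (fun j => psi (c.P j) x y)]
    exact M.unit n (hx k (by simp)) hy
  · have p0 := mul_ne_zero (M.both h).1 (X_sub_C_ne_zero (ar V c k))
    obtain ⟨n, hn⟩ : ∃ n : ℕ, (M.A.map V.π * (X - C (ar V c k))).eval (n : ℂ) ≠ 0 := by
      by_contra q
      push Not at q
      exact p0 (eq_zero_of_infinite_isRoot _ (Set.infinite_of_injective_forall_mem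
        (f := fun n : ℕ => (n : ℂ)) Nat.cast_injective q))
    rw [eval_mul, eval_sub, eval_X, eval_C, ← map_natCast V.π] at hn
    obtain ⟨y, hy⟩ := IsAlgClosed.exists_pow_nat_eq (c.f.eval ((n : V.O) : L)) two_pos
    refine M.nonunit h hy (left_ne_zero_of_mul hn) ?_
    rw [← prod_single (fun j => psi (c.P j) _ y)]
    refine z _ (fun j hj => ?_) y hy
    obtain rfl : j = k := by_contra fun q => hj (Pi.single_eq_of_ne q _)
    rw [← M.ha]
    refine (val_one (x := (n : V.O) - M.a) ?_).ge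
    rw [map_sub, M.a0]
    exact right_ne_zero_of_mul hn

end

end K6

end Pool.Agent.MP_8d06cc_nt.R4
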