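import Pool.Agent.MP_8d06cc_nt.R4.F5p
import Pool.Agent.MP_8d06cc_nt.R4.K6
import Pool.Agent.MP_8d06cc_nt.R4.F0
import Pool.Agent.MP_8d06cc_nt.R4.Comb1

/-! Three root classes force `l ≠ 0` for every point, given the relation of two cubics. -/

namespace Pool.Agent.MP_8d06cc_nt.R4

open Polynomial Pool.Agent.MP_8d06cc_nt.DA

/-- the relation between the reduced cubics of two points -/
def HRel : Prop := All fun _ _ V c => ∀ k m i, ell V c k → ell V c m → ar V c k ≠ ar V c m →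
  xr V c i ≠ ar V c k → xr V c i ≠ ar V c m → ∃ (q q' : V.O[X]) (n4 : ℂ[X]) (α β κ : ℂ),
    q.map V.O.subtype = (c.P k).Q ∧ q'.map V.O.subtype = (c.P m).Q ∧
    n4 ^ 2 = ∏ j, (X - C (xr V c j)) ∧ α ≠ 0 ∧ β ≠ 0 ∧
    C α * q.map V.π * (X - C (ar V c m)) + C β * q'.map V.π * (X - C (ar V c k)) = C κ * n4

namespace F5q

open K6 F5p

lemma fac (x : Fin 8 → ℂ) (z : ℂ) :
    ∃ f1 : ℂ[X], ∏ j, (X - C (x j)) = (X - C z) ^ sz x z * f1 ∧ f1.eval z ≠ 0 := by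
  classical
  refine ⟨∏ j ∈ Cx.out x z, (X - C (x j)), ?_, ?_⟩
  · have e : ∏ j ∈ Cx.cls x z, (X - C (x j)) = (X - C z) ^ sz x z := by
      rw [Cx.sz_eq, ← Finset.prod_const]
      exact Finset.prod_congr rfl fun j hj => by rw [Cx.mem_cls.1 hj]
    rw [← e]
    exact (Finset.prod_filter_mul_prod_filter_not _ _ _).symm
  · rw [eval_prod]
    refine Finset.prod_ne_zero_iff.2 fun j hj => ?_
    rw [eval_sub, eval_X, eval_C]
    exact sub_ne_zero.2 (Cx.mem_out.1 hj).symm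

lemma fac4 {x : Fin 8 → ℂ} {n4 : ℂ[X]} (h : n4 ^ 2 = ∏ j, (X - C (x j))) (i : Fin 8) :
    ∃ (t : ℕ) (n1 : ℂ[X]), n4 = (X - C (x i)) ^ (t + 1) * n1 ∧ n1.eval (x i) ≠ 0 ∧
      sz x (x i) = 2 * (t + 1) := by
  obtain ⟨f1, hf, h1⟩ := fac x (x i)
  have f0 : f1 ≠ 0 := fun e => h1 (by rw [e, eval_zero])
  have hX : (X - C (x i) : ℂ[X]) ≠ 0 := X_sub_C_ne_zero _
  have n0 : n4 ≠ 0 := fun e => by
    rw [e, hf, zero_pow two_ne_zero] at h
    exact mul_ne_zero (pow_ne_zero _ hX) f0 h.symm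
  obtain ⟨n1, hn, hd⟩ := exists_eq_pow_rootMultiplicity_mul_and_not_dvd n4 n0 (x i)
  generalize rootMultiplicity (x i) n4 = μ at hn
  have a1 : n1.eval (x i) ≠ 0 := fun e => hd (dvd_iff_isRoot.2 e)
  have e : (X - C (x i)) ^ (2 * μ) * n1 ^ 2 = (X - C (x i)) ^ sz x (x i) * f1 := by
    rw [← hf, ← h, hn]
    ring
  have a2 : (n1 ^ 2).eval (x i) ≠ 0 := by
    rw [eval_pow]
    exact pow_ne_zero _ a1
  have l1 : ¬ 2 * μ < sz x (x i) := fun hl => a2 (F0x.key ⟨_, e⟩ hl)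
  have l2 : ¬ sz x (x i) < 2 * μ := fun hl => h1 (F0x.key ⟨_, e.symm⟩ hl)
  have p := Cx.sz_pos (x := x) (i := i) rfl
  obtain ⟨t, rfl⟩ : ∃ t, μ = t + 1 := ⟨μ - 1, by omega⟩
  exact ⟨t, n1, hn, a1, by omega⟩

lemma W_ne {f f1 A B : ℂ[X]} {z : ℂ} {s : ℕ} (hf : f = (X - C z) ^ (s + 1) * f1)
    (h1 : f1.eval z ≠ 0) (hA : A.eval z ≠ 0) (hB : B ≠ 0) : WW derivative f A B ≠ 0 := by
  intro h
  obtain ⟨B1, hB1, hd⟩ := exists_eq_pow_rootMultiplicity_mul_and_not_dvd B hB z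
  generalize rootMultiplicity z B = μ at hB1
  have b1 : B1.eval z ≠ 0 := fun e => hd (dvd_iff_isRoot.2 e)
  have d1 := F0x.dpow z (s + 1) f1
  have d2 := F0x.dpow z μ B1
  rw [← hf] at d1
  rw [← hB1] at d2
  have hX : (X - C z : ℂ[X]) ≠ 0 := X_sub_C_ne_zero _
  have e : 2 * f1 * (A * ((μ : ℂ[X]) * B1 + (X - C z) * derivative B1) -
      (X - C z) * derivative A * B1) +
      (((s + 1 : ℕ) : ℂ[X]) * f1 + (X - C z) * derivative f1) * A * B1 = 0 := by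
    refine mul_left_cancel₀ (mul_ne_zero (pow_ne_zero (s + 1) hX) (pow_ne_zero μ hX)) ?_
    unfold WW at h
    generalize derivative f = f' at d1 h
    generalize derivative B = B' at d2 h
    rw [hf, hB1] at h
    linear_combination (X - C z) * h - 2 * (X - C z) ^ (s + 1) * f1 * A * d2 -
      A * (X - C z) ^ μ * B1 * d1
  have e2 := congrArg (eval z) e
  simp only [eval_add, eval_mul, eval_sub, eval_X, eval_C, sub_self, zero_mul, add_zero, sub_zero,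
    eval_natCast, eval_ofNat, eval_zero] at e2
  have n0 : ((2 * μ + s : ℕ) : ℂ) + 1 ≠ 0 := Nat.cast_add_one_ne_zero _
  refine mul_ne_zero n0 (mul_ne_zero h1 (mul_ne_zero hA b1)) ?_
  push_cast at e2 ⊢
  linear_combination e2

variable {L : Type} [Field L] {V : VF L} {c : Dat L}

/-- the case `l = 0` -/
lemma zero {n : Fin 4} (M : Mdl V c n) (h : V.π M.κ ≠ 0) {i : Fin 8} (hi : xr V c i ≠ ar V c n) :
    M.Q.map V.π ≠ 0 ∧ (X - C (xr V c i)) ^ (sz (xr V c) (xr V c i) - 1) ∣ M.Q.map V.π := by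
  obtain ⟨f1, hf, h1⟩ := fac (xr V c) (xr V c i)
  obtain ⟨s, hs⟩ : ∃ s, sz (xr V c) (xr V c i) = s + 1 :=
    Nat.exists_eq_succ_of_ne_zero (Cx.sz_pos rfl).ne'
  rw [← M.f0, hs] at hf
  have e := congrArg (eval (xr V c i)) M.eqn0
  have z0 : (M.f.map V.π).eval (xr V c i) = 0 := (M.f0ev _).2 ⟨i, rfl⟩
  simp only [eval_sub, eval_mul, eval_pow, z0, zero_mul, sub_zero, eval_C, eval_X] at e
  have hA : (M.A.map V.π).eval (xr V c i) ≠ 0 := fun e' => by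
    rw [e', zero_pow two_ne_zero] at e
    exact mul_ne_zero h (pow_ne_zero _ (sub_ne_zero.2 hi)) e.symm
  refine ⟨fun q => W_ne hf h1 hA M.B0 (by rw [M.W0, q, mul_zero]), ?_⟩
  refine pow_dvd (E := (X - C (ar V c n)) ^ (2 * c.N - 1)) ?_ ?_
  · rw [eval_pow, eval_sub, eval_X, eval_C]
    exact pow_ne_zero _ (sub_ne_zero.2 hi)
  · rw [mul_comm, ← M.W0, hs, Nat.add_sub_cancel, WW, hf, derivative_mul, derivative_X_sub_C_pow]
    refine dvd_add (Dvd.dvd.mul_right (Dvd.dvd.mul_left (Dvd.dvd.mul_right ?_ _) _) _)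
      (Dvd.dvd.mul_right (Dvd.dvd.mul_right (dvd_add (Dvd.dvd.mul_right ?_ _)
        (Dvd.dvd.mul_right ?_ _)) _) _)
    · exact pow_dvd_pow _ (Nat.le_succ s)
    · exact Dvd.dvd.mul_left dvd_rfl _
    · exact pow_dvd_pow _ (Nat.le_succ s)

/-- the case `l ≠ 0` -/
lemma pos [CharZero L] {k : Fin 4} (M : Mdl V c k) (h : V.π M.κ = 0) {q : V.O[X]}
    (hq : q.map V.O.subtype = (c.P k).Q) {n4 : ℂ[X]} (h4 : n4 ^ 2 = ∏ j, (X - C (xr V c j)))
    {z : ℂ} {t : ℕ} {n1 : ℂ[X]} (hn : n4 = (X - C z) ^ (t + 1) * n1) (h1 : n1.eval z ≠ 0) :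
    ∃ q1, q.map V.π = (X - C z) ^ t * q1 ∧ (z ≠ ar V c k → q1.eval z ≠ 0) := by
  have i1 := (F0x.ld_of (c.ok k)).i1
  have e1 : (c.N : V.O[X]) * (C M.ε * M.B * q + M.A) = derivative M.A * (X - C M.a) := pinj (by
    have hd : (derivative M.A).map V.O.subtype = C M.l * derivative (c.P k).A := by
      rw [← derivative_map, M.hA, derivative_C_mul]
    have ha : (C M.a).map V.O.subtype = C (c.P k).a := by
      rw [map_C, ← M.ha]
      rfl
    rw [Polynomial.map_mul, Polynomial.map_add, Polynomial.map_mul, M.hB, M.hA, hq,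
      Polynomial.map_mul, hd, Polynomial.map_sub, map_X, ha, Polynomial.map_natCast]
    linear_combination C M.l * i1)
  have e2 := congrArg (Polynomial.map V.π) e1
  simp only [Polynomial.map_mul, Polynomial.map_add, Polynomial.map_sub, map_X, map_C,
    Polynomial.map_natCast, ← derivative_map, M.a0] at e2
  have e3 := M.eqn0
  rw [h, C_0, zero_mul, sub_eq_zero, M.f0, ← h4, ← mul_pow] at e3
  have hN : (c.N : ℂ) ≠ 0 := Nat.cast_ne_zero.2 (c.ok k).pos.ne'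
  have nz : n4.eval z = 0 := by simp [hn]
  rcases sq_eq_sq_iff_eq_or_eq_neg.1 e3 with e | e
  · refine ordq (t := (c.N : ℂ)) (s := (c.N : ℂ)) (M.both h).1 (by rw [e, eval_mul, nz, zero_mul]) hN ?_ hn h1
    rw [map_natCast]
    linear_combination n4 * e2 + (c.N : ℂ[X]) * q.map V.π * e
  · refine ordq (t := -(c.N : ℂ)) (s := (c.N : ℂ)) (M.both h).1
      (by rw [e, eval_neg, eval_mul, nz, zero_mul, neg_zero]) (neg_ne_zero.2 hN) ?_ hn h1
    rw [map_neg, map_natCast]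
    linear_combination n4 * e2 - (c.N : ℂ[X]) * q.map V.π * e

lemma scale3 (V : VF L) {r s t : L} (h : r ≠ 0 ∨ s ≠ 0 ∨ t ≠ 0) : ∃ (l : L) (r' s' t' : V.O),
    (r' : L) = l * r ∧ (s' : L) = l * s ∧ (t' : L) = l * t ∧
      (V.π r' ≠ 0 ∨ V.π s' ≠ 0 ∨ V.π t' ≠ 0) := by
  have key : ∀ a b d : L, a ≠ 0 → V.O.valuation b ≤ V.O.valuation a →
      V.O.valuation d ≤ V.O.valuation a → ∃ b' d' : V.O, (b' : L) = a⁻¹ * b ∧ (d' : L) = a⁻¹ * d ∧
        ((1 : V.O) : L) = a⁻¹ * a := by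
    intro a b d ha hb hd
    have m : ∀ y, V.O.valuation y ≤ V.O.valuation a → a⁻¹ * y ∈ V.O := fun y hy =>
      (V.O.valuation_le_one_iff _).1 (by
        rw [map_mul, map_inv₀]
        exact inv_mul_le_one_of_le₀ hy zero_le)
    exact ⟨⟨_, m b hb⟩, ⟨_, m d hd⟩, rfl, rfl, (inv_mul_cancel₀ ha).symm⟩
  have one : V.π 1 ≠ 0 := by rw [map_one]; exact one_ne_zero
  have nz : ∀ a b d : L, (a ≠ 0 ∨ b ≠ 0 ∨ d ≠ 0) → V.O.valuation b ≤ V.O.valuation a →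
      V.O.valuation d ≤ V.O.valuation a → a ≠ 0 := by
    rintro a b d hh hb hd rfl
    rw [map_zero, le_zero_iff, map_eq_zero] at hb hd
    simp [hb, hd] at hh
  have cs : (V.O.valuation s ≤ V.O.valuation r ∧ V.O.valuation t ≤ V.O.valuation r) ∨
      (V.O.valuation r ≤ V.O.valuation s ∧ V.O.valuation t ≤ V.O.valuation s) ∨
      (V.O.valuation r ≤ V.O.valuation t ∧ V.O.valuation s ≤ V.O.valuation t) := by
    rcases le_total (V.O.valuation s) (V.O.valuation r) with a | a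
    · rcases le_total (V.O.valuation t) (V.O.valuation r) with b | b
      exacts [Or.inl ⟨a, b⟩, Or.inr (Or.inr ⟨b, a.trans b⟩)]
    · rcases le_total (V.O.valuation t) (V.O.valuation s) with b | b
      exacts [Or.inr (Or.inl ⟨a, b⟩), Or.inr (Or.inr ⟨a.trans b, b⟩)]
  rcases cs with ⟨a, b⟩ | ⟨a, b⟩ | ⟨a, b⟩
  · obtain ⟨x, y, hx, hy, h1⟩ := key r s t (nz r s t h a b) a b
    exact ⟨_, 1, x, y, h1, hx, hy, Or.inl one⟩
  · obtain ⟨x, y, hx, hy, h1⟩ := key s r t (nz s r t (by tauto) a b) a b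
    exact ⟨_, x, 1, y, hx, h1, hy, Or.inr (Or.inl one)⟩
  · obtain ⟨x, y, hx, hy, h1⟩ := key t r s (nz t r s (by tauto) a b) a b
    exact ⟨_, x, y, 1, hx, hy, h1, Or.inr (Or.inr one)⟩

lemma pick {x : Fin 8 → ℂ} {i₁ i₂ i₃ : Fin 8} (h12 : x i₁ ≠ x i₂) (h13 : x i₁ ≠ x i₃)
    (h23 : x i₂ ≠ x i₃) (a : ℂ) : ∃ i j, x i ≠ x j ∧ x i ≠ a ∧ x j ≠ a := by
  by_cases h1 : x i₁ = a
  · exact ⟨i₂, i₃, h23, h1 ▸ h12.symm, h1 ▸ h13.symm⟩
  by_cases h2 : x i₂ = a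
  · exact ⟨i₁, i₃, h13, h1, h2 ▸ h23.symm⟩
  · exact ⟨i₁, i₂, h12, h1, h2⟩

lemma pick2 {x : Fin 8 → ℂ} {i₁ i₂ i₃ : Fin 8} (h12 : x i₁ ≠ x i₂) (h13 : x i₁ ≠ x i₃)
    (h23 : x i₂ ≠ x i₃) (a b : ℂ) : ∃ i, x i ≠ a ∧ x i ≠ b := by
  obtain ⟨i, j, hij, hi, hj⟩ := pick h12 h13 h23 a
  by_cases h : x i = b
  · exact ⟨j, hj, h ▸ hij.symm⟩
  · exact ⟨i, hi, h⟩

end F5q

open F5q K6 F5p in
theorem f5c_of (H : HRel) : S_F5c := by
  intro L _ _ _ V c hc k m lk lm hkm i₁ i₂ i₃ h12 h13 h23 n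
  obtain ⟨Mk⟩ := mdl hc k
  obtain ⟨Mm⟩ := mdl hc m
  obtain ⟨M⟩ := mdl hc n
  refine M.ell_iff.2 (by_contra fun hκ => ?_)
  obtain ⟨i₀, f1, f2⟩ := pick2 h12 h13 h23 (ar V c k) (ar V c m)
  obtain ⟨q, q', n4, α, β, κ, hq, hq', h4, hα, hβ, rel⟩ := H L V c hc k m i₀ lk lm hkm f1 f2
  obtain ⟨i, j, hij, hi, hj⟩ := pick h12 h13 h23 (ar V c n)
  obtain ⟨a, b, -, hab⟩ := c.rk
  obtain ⟨u₁, v₁, e₁⟩ := hab n
  obtain ⟨u₂, v₂, e₂⟩ := hab k
  obtain ⟨u₃, v₃, e₃⟩ := hab m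
  obtain ⟨r, s, t, h0, hd⟩ := dep3 e₁ e₂ e₃
  have w0 : (2 * c.N * M.κ : L) ≠ 0 :=
    mul_ne_zero (mul_ne_zero two_ne_zero (Nat.cast_ne_zero.2 (c.ok n).pos.ne')) M.κ0
  have ε0 : (M.ε : L) ≠ 0 := fun e => M.ε0 (Subtype.ext e)
  obtain ⟨l, r', s', t', hr, hs, ht, hp⟩ := scale3 V (r := r * M.ε) (s := s * (2 * c.N * M.κ))
    (t := t * (2 * c.N * M.κ)) (by
      rcases h0 with h | h | h
      exacts [Or.inl (mul_ne_zero h ε0), Or.inr (Or.inl (mul_ne_zero h w0)),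
        Or.inr (Or.inr (mul_ne_zero h w0))])
  have e : C r' * M.Q + C s' * q + C t' * q' = 0 := pinj (by
    have hQ := M.hQ
    simp only [Polynomial.map_add, Polynomial.map_mul, map_C, hq, hq', Polynomial.map_zero,
      ValuationSubring.subtype_apply, hr, hs, ht, map_mul (C : L →+* L[X])] at hQ ⊢
    linear_combination C l * C r * hQ + C l * (C 2 * C (c.N : L) * C (M.κ : L)) * hd)
  have e0 := congrArg (Polynomial.map V.π) e
  simp only [Polynomial.map_add, Polynomial.map_mul, map_C, Polynomial.map_zero] at e0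
  have at1 : ∀ i, xr V c i ≠ ar V c n →
      V.π s' * β * (xr V c i - ar V c k) = V.π t' * α * (xr V c i - ar V c m) := by
    intro i hi
    obtain ⟨h, n1, hn, h1, hs2⟩ := fac4 h4 i
    obtain ⟨q1, a1, a2⟩ := pos Mk (Mk.ell_iff.1 lk) hq h4 hn h1
    obtain ⟨q1', b1, b2⟩ := pos Mm (Mm.ell_iff.1 lm) hq' h4 hn h1
    refine one hkm hα hβ rel hn a1 b1 a2 b2 ?_
    have d := (pow_dvd_pow _ (show h + 1 ≤ sz (xr V c) (xr V c i) - 1 by omega)).trans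
      (zero M hκ hi).2
    have e1 : C (V.π s') * q.map V.π + C (V.π t') * q'.map V.π = -C (V.π r') * M.Q.map V.π := by
      linear_combination e0
    rw [e1]
    exact d.mul_left _
  obtain ⟨z1, z2⟩ := two hkm hij hα hβ (at1 i hi) (at1 j hj)
  rw [z1, z2, C_0, zero_mul, zero_mul, add_zero, add_zero] at e0
  have z3 : V.π r' = 0 := C_eq_zero.1 ((mul_eq_zero.1 e0).resolve_right (zero M hκ hi).1)
  simp [z1, z2, z3] at hp

end Pool.Agent.MP_8d06cc_nt.R4
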