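import Pool.Agent.MP_8d06cc_nt.R4.FD

/-! Integral models of the products and the pointwise form of `l = 0`. -/

namespace Pool.Agent.MP_8d06cc_nt.R4.FX

open Polynomial Finset Pool.Agent.MP_8d06cc_nt.DA

noncomputable section

variable {L : Type} [Field L] (V : VF L)

/-- The inclusion. -/
abbrev up : V.O →+* L := V.O.subtype

theorem up_inj : Function.Injective (up V) := Subtype.val_injective

theorem lift {p : L[X]} (h : ∀ i, V.O.valuation (p.coeff i) ≤ 1) : ∃ q : V.O[X], q.map (up V) = p :=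
  (mem_lifts p).1 ((lifts_iff_coeff_lifts p).2 fun i =>
    ⟨⟨_, (V.O.valuation_le_one_iff _).1 (h i)⟩, rfl⟩)

theorem prim2 {A B : L[X]} (h : A ≠ 0 ∨ B ≠ 0) : ∃ (κ : L) (A₀ B₀ : V.O[X]), κ ≠ 0 ∧
    A₀.map (up V) = C κ * A ∧ B₀.map (up V) = C κ * B ∧ (A₀.map V.π ≠ 0 ∨ B₀.map V.π ≠ 0) := by
  classical
  obtain ⟨g, g1, g2⟩ := exists_max_image (A.coeffs ∪ B.coeffs) V.O.valuation (h.elim
    (fun q => ⟨_, mem_union_left _ (coeff_mem_coeffs (leadingCoeff_ne_zero.2 q))⟩)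
    fun q => ⟨_, mem_union_right _ (coeff_mem_coeffs (leadingCoeff_ne_zero.2 q))⟩)
  have g0 : g ≠ 0 := fun e => by
    rcases mem_union.1 g1 with q | q <;>
    · obtain ⟨i, i1, i2⟩ := mem_coeffs_iff.1 q
      exact mem_support_iff.1 i1 (i2 ▸ e)
  have k : ∀ p : L[X], p.coeffs ⊆ A.coeffs ∪ B.coeffs → ∃ q : V.O[X], q.map (up V) = C g⁻¹ * p ∧
      (g ∈ p.coeffs → q.map V.π ≠ 0) := fun p hp => by
    obtain ⟨q, hq⟩ := lift V (p := C g⁻¹ * p) fun i => by
      by_cases e : p.coeff i = 0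
      · simp [e]
      rw [coeff_C_mul, map_mul, map_inv₀,
        inv_mul_le_one₀ (zero_lt_iff.2 ((_root_.map_ne_zero _).2 g0))]
      exact g2 _ (hp (coeff_mem_coeffs e))
    refine ⟨q, hq, fun r e => ?_⟩
    obtain ⟨i, -, hi⟩ := mem_coeffs_iff.1 r
    have e1 : q.coeff i = 1 := up_inj V (by
      rw [← coeff_map, hq, coeff_C_mul, ← hi, inv_mul_cancel₀ g0, map_one])
    simpa [e1] using congrArg (coeff · i) e
  obtain ⟨A₀, a1, a2⟩ := k A subset_union_left
  obtain ⟨B₀, b1, b2⟩ := k B subset_union_right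
  exact ⟨_, A₀, B₀, inv_ne_zero g0, a1, b1, (mem_union.1 g1).imp a2 b2⟩

theorem prim1 {A : L[X]} (h : A ≠ 0) :
    ∃ (κ : L) (A₀ : V.O[X]), κ ≠ 0 ∧ A₀.map (up V) = C κ * A ∧ A₀.map V.π ≠ 0 := by
  obtain ⟨κ, A₀, B₀, a, b, c, d⟩ := prim2 V (B := A) (.inl h)
  exact ⟨κ, A₀, a, b, d.elim id fun q => map_injective _ (up_inj V) (b.trans c.symm) ▸ q⟩

theorem gauss {G p : V.O[X]} {T : L[X]} (hG : G.map V.π ≠ 0)
    (h : G.map (up V) * T = p.map (up V)) : ∃ T₀ : V.O[X], T₀.map (up V) = T := by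
  by_cases T0 : T = 0
  · exact ⟨0, by simp [T0]⟩
  obtain ⟨κ, T₁, a, b, c⟩ := prim1 V T0
  by_cases q : κ⁻¹ ∈ V.O
  · refine ⟨C ⟨_, q⟩ * T₁, ?_⟩
    rw [Polynomial.map_mul, b, map_C, ← mul_assoc, ← C_mul]
    simp [a]
  rw [← V.O.valuation_le_one_iff, not_le, map_inv₀,
    one_lt_inv₀ (zero_lt_iff.2 ((_root_.map_ne_zero _).2 a))] at q
  have e : G * T₁ = C ⟨κ, (V.O.valuation_le_one_iff _).1 q.le⟩ * p := map_injective _ (up_inj V) (by
    rw [Polynomial.map_mul, Polynomial.map_mul, b, map_C, ← h]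
    exact mul_left_comm _ _ _)
  have e' := congrArg (Polynomial.map V.π) e
  rw [Polynomial.map_mul, Polynomial.map_mul, map_C, (V.ker _).2 q, C_0, zero_mul] at e'
  exact absurd e' (mul_ne_zero hG c)

variable {V} {c : Dat L} (h : Int V c)

def e0 (i : Fin 8) : V.O := ⟨c.e i, h.eO i⟩

def a0 (k : Fin 4) : V.O := ⟨(c.P k).a, h.aO k⟩

def fo : V.O[X] := ∏ i, (X - C (e0 h i))

/-- The reduction of the octic. -/
def fr (V : VF L) (c : Dat L) : ℂ[X] := ∏ i, (X - C (xr V c i))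

theorem r_eq (x : V.O) : V.r x = V.π x := dif_pos x.2

theorem up_f : (fo h).map (up V) = c.f := by
  simp [fo, Dat.f, h.u1, Polynomial.map_prod, e0]

theorem up_a : (fun k => up V (a0 h k)) = da c := rfl

theorem pi_a : (fun k => V.π (a0 h k)) = ar V c := funext fun k => (r_eq (a0 h k)).symm

theorem pi_f : (fo h).map V.π = fr V c := by
  simp only [fo, fr, Polynomial.map_prod, Polynomial.map_sub, map_X, map_C]
  exact prod_congr rfl fun i _ => by rw [← r_eq]; rfl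

theorem fr_ne : fr V c ≠ 0 := prod_ne_zero_iff.2 fun _ _ => X_sub_C_ne_zero _

variable {n : Fin 4 → ℤ} {m : Fin 4 → ℕ} {M : ℕ} {κ : L} {A B : L[X]}

theorem norm0 (k0 : κ ≠ 0) (H : Ok c.f (da c) (dq c) n m M κ A B) :
    ∃ (τ : L) (κ₀ : V.O) (A₀ B₀ : V.O[X]), τ ≠ 0 ∧ A₀.map (up V) = C τ * A ∧
      B₀.map (up V) = C τ * B ∧ up V κ₀ = τ ^ 2 * κ ∧ (A₀.map V.π ≠ 0 ∨ B₀.map V.π ≠ 0) ∧
      A₀ ^ 2 - fo h * B₀ ^ 2 = C κ₀ * DD (a0 h) m := by
  obtain ⟨τ, A₀, B₀, t0, a, b, p⟩ := prim2 V (A := A) (B := B) (by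
    by_contra! q
    have := H.eqn
    rw [q.1, q.2] at this
    exact mul_ne_zero (C_ne_zero.2 k0) (DD_monic _ m).ne_zero (by rw [← this]; simp))
  have e : (DD (a0 h) m).map (up V) * C (τ ^ 2 * κ) = (A₀ ^ 2 - fo h * B₀ ^ 2).map (up V) := by
    simp only [Polynomial.map_sub, Polynomial.map_mul, Polynomial.map_pow, a, b, up_f, map_DD, up_a]
    rw [(H.smul τ).eqn, mul_comm]
  obtain ⟨T, hT⟩ := gauss V ((DD_monic _ m).map _).ne_zero e
  have e1 : up V (T.coeff 0) = τ ^ 2 * κ := by rw [← coeff_map, hT, coeff_C_zero]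
  exact ⟨τ, T.coeff 0, A₀, B₀, t0, a, b, e1, p, map_injective _ (up_inj V) (by
    rw [← e, Polynomial.map_mul, map_C, e1, mul_comm])⟩

theorem red_ne {f A B D : ℂ[X]} (hf : f ≠ 0) (e : A ^ 2 - f * B ^ 2 = C 0 * D)
    (p : A ≠ 0 ∨ B ≠ 0) : A ≠ 0 ∧ B ≠ 0 := by
  rw [C_0, zero_mul, sub_eq_zero] at e
  refine p.elim (fun a => ⟨a, fun b => a ?_⟩) fun b => ⟨fun a => b ?_, b⟩
  · simpa [b] using e
  · simpa [a, hf] using e

include h in
theorem q_int (k : Fin 4) : ∃ q : V.O[X], q.map (up V) = dq c k := by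
  obtain ⟨τ, κ₀, A₀, B₀, t0, a, b, e, p, e'⟩ := norm0 h (okf c k).hc (ok_single c k)
  have H := (ok_single c k).smul τ
  rw [← a, ← b, ← e] at H
  have mo : ((DD (a0 h) (Pi.single k (2 * c.N)) * ∏ l ∈ univ.erase k, (X - C (a0 h l))).map
      V.π) ≠ 0 := (((DD_monic _ _).mul
        (monic_prod_of_monic _ _ fun _ _ => monic_X_sub_C _)).map _).ne_zero
  generalize hD : Pi.single (M := fun _ => ℕ) k (2 * c.N) = m at *
  have mu : (DD (a0 h) m * ∏ l ∈ univ.erase k, (X - C (a0 h l))).map (up V) * dq c k =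
      DD (da c) m * TT (da c) (dq c) (Pi.single k 1) := by
    simp only [Polynomial.map_mul, map_DD, up_a, TT_single, Polynomial.map_prod,
      Polynomial.map_sub, map_X, map_C, Int.cast_one]
    rw [← up_a h]
    ring
  by_cases q : V.π κ₀ = 0
  · have e2 := congrArg (Polynomial.map V.π) e'
    simp only [Polynomial.map_sub, Polynomial.map_mul, Polynomial.map_pow, map_C, q, pi_f] at e2
    refine gauss V (G := B₀ * (DD (a0 h) m * ∏ l ∈ univ.erase k, (X - C (a0 h l))))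
      (p := SS (a0 h) * (2 * derivative A₀ * DD (a0 h) m - A₀ * derivative (DD (a0 h) m))) (by
        rw [Polynomial.map_mul]; exact mul_ne_zero (red_ne fr_ne e2 p).2 mo) ?_
    rw [Polynomial.map_mul, mul_assoc, mu, ← mul_assoc, H.lin2]
    simp [map_SS, map_DD, ← derivative_map, -ValuationSubring.coe_subtype]
    rfl
  · refine gauss V (G := C κ₀ * (DD (a0 h) m * ∏ l ∈ univ.erase k, (X - C (a0 h l))))
      (p := WW derivative (fo h) A₀ B₀ * SS (a0 h)) (by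
      rw [Polynomial.map_mul, map_C]; exact mul_ne_zero (C_ne_zero.2 q) mo) ?_
    rw [Polynomial.map_mul, mul_assoc, mu, ← mul_assoc, map_C, ← H.lin, Polynomial.map_mul,
      map_WW, up_f, map_SS, up_a]

def q0 (k : Fin 4) : V.O[X] := (q_int h k).choose

theorem up_q : (fun k => (q0 h k).map (up V)) = dq c := funext fun k => (q_int h k).choose_spec

/-- The reductions of the cubics. -/
def qr (k : Fin 4) : ℂ[X] := (q0 h k).map V.π

/-- The multiplicities. -/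
def mm (c : Dat L) (n : Fin 4 → ℤ) (k : Fin 4) : ℕ := 2 * c.N * (n k).natAbs

theorem mm_ne {k : Fin 4} : mm c n k ≠ 0 ↔ n k ≠ 0 := by
  simp [mm, (okf c k).pos.ne']

/-- A primitive integral model of the product with exponents `n`. -/
structure Nf (n : Fin 4 → ℤ) where
  M : ℕ
  κ : V.O
  A : V.O[X]
  B : V.O[X]
  k0 : κ ≠ 0
  prim : A.map V.π ≠ 0 ∨ B.map V.π ≠ 0
  ok : Ok (fo h) (a0 h) (q0 h) n (mm c n) M κ A B
  val : Val c n (mm c n) (A.map (up V)) (B.map (up V))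

theorem Val.smul (H : Val c n m A B) {τ : L} (t0 : τ ≠ 0) : Val c n m (C τ * A) (C τ * B) :=
  fun x y a b => by
    rw [← H x y a b, eval_mul, eval_mul, eval_C, mul_assoc, ← mul_add, ← mul_sub,
      mul_div_mul_left _ _ t0]

theorem nf (n : Fin 4 → ℤ) : Nonempty (Nf h n) := by
  obtain ⟨-, M, κ, A, B, k0, H, v⟩ := ex_all (c := c) n
  obtain ⟨τ, κ₀, A₀, B₀, t0, a, b, e, p, -⟩ := norm0 h k0 H
  refine ⟨M, κ₀, A₀, B₀, fun q => mul_ne_zero (pow_ne_zero 2 t0) k0 (by rw [← e, q, map_zero]), p,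
    Ok.of_map (up_inj V) ?_, by rw [a, b]; exact v.smul t0⟩
  rw [a, b, e, up_f, up_a, up_q]
  exact H.smul τ

variable {h}

theorem Nf.okL (φ : Nf h n) : Ok c.f (da c) (dq c) n (mm c n) φ.M (up V φ.κ) (φ.A.map (up V))
    (φ.B.map (up V)) := by
  simpa only [up_f, up_a, up_q] using φ.ok.map (up V)

theorem Nf.okC (φ : Nf h n) : Ok (fr V c) (ar V c) (qr h) n (mm c n) φ.M (V.π φ.κ) (φ.A.map V.π)
    (φ.B.map V.π) := by
  have := φ.ok.map V.π
  rw [pi_f, pi_a] at this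
  exact this

theorem ev_le {p : L[X]} (hp : ∀ i, V.O.valuation (p.coeff i) ≤ 1) {x : L} {t : V.O.ValueGroup}
    (h1 : 1 ≤ t) (hx : V.O.valuation x ≤ t) {d : ℕ} (hd : p.natDegree ≤ d) :
    V.O.valuation (p.eval x) ≤ t ^ d := by
  rw [eval_eq_sum_range]
  refine Valuation.map_sum_le _ fun i hi => ?_
  rw [map_mul, map_pow]
  exact (mul_le_mul' (hp i) (pow_le_pow_left' hx i)).trans (by
    rw [one_mul]; exact pow_le_pow_right' h1 (by have := mem_range.1 hi; omega))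

theorem pm_le (h : Int V c) (H : Ok c.f (da c) (dq c) n m M κ A B)
    (hA : ∀ i, V.O.valuation (A.coeff i) ≤ 1) (hB : ∀ i, V.O.valuation (B.coeff i) ≤ 1)
    {x y : L} {t : V.O.ValueGroup} (h1 : 1 ≤ t) (hx : V.O.valuation x ≤ t) (hy : y ^ 2 = c.f.eval x) :
    V.O.valuation (A.eval x + B.eval x * y) ≤ t ^ M ∧
      V.O.valuation (A.eval x - B.eval x * y) ≤ t ^ M ∧
      (A.eval x + B.eval x * y) * (A.eval x - B.eval x * y) = κ * ∏ k, (x - da c k) ^ m k := by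
  have a := ev_le hA h1 hx (natDegree_le_of_degree_le H.dA)
  have y1 : V.O.valuation y ≤ t ^ 4 := by
    refine le_of_pow_le_pow_left₀ (n := 2) two_ne_zero zero_le ?_
    rw [← map_pow, hy, ← pow_mul]
    exact ev_le (fun i => by rw [← up_f h, coeff_map]; exact V.O.valuation_le_one _) h1 hx (deg_f c)
  have b : V.O.valuation (B.eval x * y) ≤ t ^ M := by
    by_cases e : B = 0
    · simp [e]
    have d := H.dB
    rw [degree_eq_natDegree e] at d
    rw [map_mul]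
    refine (mul_le_mul' (ev_le hB h1 hx le_rfl) y1).trans ?_
    rw [← pow_add]
    exact pow_le_pow_right' h1 (by exact_mod_cast d)
  refine ⟨Valuation.map_add_le _ a b, Valuation.map_sub_le _ a b, ?_⟩
  have e := congrArg (eval x) H.eqn
  simp only [eval_sub, eval_mul, eval_pow, eval_C, eval_X, ← hy, DD, eval_prod] at e
  linear_combination e

theorem lz_of (h : Int V c) (H : Ok c.f (da c) (dq c) n m M κ A B) (v : Val c n m A B)
    (hA : ∀ i, V.O.valuation (A.coeff i) ≤ 1) (hB : ∀ i, V.O.valuation (B.coeff i) ≤ 1)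
    (hc : V.O.valuation κ = 1) (hm : ∀ k, m k ≠ 0 → n k ≠ 0) : LZ V c n := by
  intro x hx y hy
  obtain ⟨t, h1, h2, h3⟩ : ∃ t, 1 ≤ t ∧ V.O.valuation x ≤ t ∧
      ∀ k, m k ≠ 0 → V.O.valuation (x - da c k) = t := by
    have a : ∀ k, V.O.valuation (da c k) ≤ 1 := fun k => (V.O.valuation_le_one_iff _).2 (h.aO k)
    rcases le_or_gt (V.O.valuation x) 1 with q | q
    · exact ⟨1, le_rfl, q, fun k hk => le_antisymm (Valuation.map_sub_le _ q (a k)) (hx k (hm k hk))⟩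
    · exact ⟨_, q.le, le_rfl, fun k _ => Valuation.map_sub_eq_of_lt_left _ ((a k).trans_lt q)⟩
  obtain ⟨a, b, e⟩ := pm_le h H hA hB h1 h2 hy
  have t0 : 0 < t ^ M := pow_pos (zero_lt_one.trans_le h1) _
  have e' := congrArg V.O.valuation e
  rw [map_mul, map_mul, hc, one_mul, map_prod, prod_congr rfl (g := fun k => t ^ m k) fun k _ => by
    by_cases q : m k = 0
    · simp [q]
    · rw [map_pow, h3 k q], prod_pow_eq_pow_sum, H.sum, two_mul, pow_add] at e'
  have a' := a.eq_of_not_lt fun q =>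
    ((mul_le_mul' le_rfl b).trans_lt (mul_lt_mul_of_pos_right q t0)).ne e'
  have b' := b.eq_of_not_lt fun q =>
    ((mul_le_mul' a le_rfl).trans_lt (mul_lt_mul_of_pos_left q t0)).ne e'
  rw [← v x y hy fun k hk q => by
    have := h3 k hk
    rw [q, sub_self, map_zero] at this
    exact absurd (this ▸ h1) (by simp), map_div₀, a', b', div_self t0.ne']

theorem co_le (p : V.O[X]) (i : ℕ) : V.O.valuation ((p.map (up V)).coeff i) ≤ 1 := by
  rw [coeff_map]
  exact V.O.valuation_le_one _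

theorem v_one {x : V.O} (hx : V.π x ≠ 0) : V.O.valuation (x : L) = 1 :=
  (V.O.valuation_le_one x).eq_of_not_lt fun q => hx ((V.ker x).2 q)

theorem Nf.lz (φ : Nf h n) (hc : V.π φ.κ ≠ 0) : LZ V c n :=
  lz_of h φ.okL φ.val (co_le _) (co_le _) (v_one hc) fun _ => mm_ne.1

theorem Nf.not_unit (φ : Nf h n) (hc : V.π φ.κ = 0) (x : V.O) {y : L} (hy : y ^ 2 = c.f.eval ↑x)
    (hx : ∀ k, n k ≠ 0 → V.π x ≠ ar V c k) (hA : (φ.A.map V.π).eval (V.π x) ≠ 0) :
    V.O.valuation (∏ k, psi (c.P k) x y ^ n k) ≠ 1 := fun q => by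
  have hx' : ∀ k, mm c n k ≠ 0 → (x : L) ≠ da c k := fun k hk e =>
    hx k (mm_ne.1 hk) (by rw [← r_eq, e]; rfl)
  obtain ⟨a, b, e⟩ := pm_le h φ.okL (co_le _) (co_le _) le_rfl (V.O.valuation_le_one x) hy
  rw [← φ.val x y hy hx', map_div₀] at q
  have q' := eq_of_div_eq_one q
  have e' : V.O.valuation (up V φ.κ * ∏ k, ((x : L) - da c k) ^ mm c n k) < 1 := by
    rw [map_mul]
    refine (mul_le_of_le_one_right' ?_).trans_lt ((V.ker _).1 hc)
    exact (V.O.valuation_le_one_iff _).2 (prod_mem fun k _ => pow_mem (sub_mem x.2 (h.aO k)) _)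
  rw [← e, map_mul, ← q', mul_self_lt_one_iff] at e'
  have e2 := Valuation.map_add_lt _ e' (q' ▸ e')
  refine mul_ne_zero two_ne_zero hA ?_
  rw [eval_map_apply, two_mul, ← map_add, V.ker]
  refine lt_of_eq_of_lt (congrArg _ ?_) e2
  rw [show (x : L) = up V x from rfl, eval_map_apply]
  simp

theorem Nf.unit [IsAlgClosed L] (φ : Nf h n) (H : LW V c n) : V.π φ.κ ≠ 0 := fun q => by
  classical
  obtain ⟨S, hS⟩ := H
  have e := φ.okC.eqn
  rw [q] at e
  have a := (red_ne fr_ne e φ.prim).1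
  obtain ⟨_, ⟨j, rfl⟩, hj⟩ := (Set.infinite_range_of_injective
    (Nat.cast_injective (R := ℂ))).exists_notMem_finset
      (S ∪ univ.image (ar V c) ∪ (φ.A.map V.π).roots.toFinset)
  simp only [mem_union, not_or, mem_image, mem_univ, true_and, not_exists, Multiset.mem_toFinset,
    mem_roots a, IsRoot] at hj
  obtain ⟨y, hy⟩ := IsAlgClosed.exists_pow_nat_eq (c.f.eval ((j : V.O) : L)) two_pos
  exact φ.not_unit q j hy (fun k _ r => hj.1.2 k (by rw [← r, map_natCast]))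
    (by rw [map_natCast]; exact hj.2)
    (hS _ (j : V.O).2 (by rw [r_eq, map_natCast]; exact hj.1.1) y hy)

theorem lw_of (h : Int V c) (H : LZ V c n) : LW V c n := by
  classical
  refine ⟨univ.image (ar V c), fun x hx r => H x fun k _ => (v_one (x := ⟨x, hx⟩ - a0 h k) ?_).ge⟩
  rw [map_sub, sub_ne_zero, ← r_eq, ← r_eq]
  exact fun e => r (mem_image.2 ⟨k, mem_univ _, e.symm⟩)

theorem Nf.iff [IsAlgClosed L] (φ : Nf h n) : LZ V c n ↔ V.π φ.κ ≠ 0 :=
  ⟨fun q => φ.unit (lw_of h q), φ.lz⟩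

end

end Pool.Agent.MP_8d06cc_nt.R4.FX

namespace Pool.Agent.MP_8d06cc_nt.R4

open Polynomial FX

theorem max : S_MAX := fun _ _ _ _ _ _ h n H => (nf h n).elim fun φ => φ.lz (φ.unit H)

theorem br : S_BR := by
  intro L _ _ _ V c h k
  contrapose!
  intro q
  obtain ⟨τ, e⟩ := IsAlgClosed.exists_pow_nat_eq (c.P k).c⁻¹ two_pos
  have c0 := (okf c k).hc
  have t0 : τ ≠ 0 := fun r => inv_ne_zero c0 (by rw [← e, r]; simp)
  have l : ∀ x, V.O.valuation x ^ 2 ≤ V.O.valuation (c.P k).c → V.O.valuation (τ * x) ≤ 1 :=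
    fun x hx => by
      rw [← pow_le_one_iff (n := 2) two_ne_zero, map_mul, mul_pow, ← map_pow, e, map_inv₀,
        inv_mul_le_one₀ (zero_lt_iff.2 ((_root_.map_ne_zero _).2 c0))]
      exact hx
  refine not_not.2 (lz_of h ((ok_single c k).smul τ) ((val_single k _).smul t0)
    (fun i => by rw [coeff_C_mul]; exact l _ (q i).1)
    (fun i => by rw [coeff_C_mul]; exact l _ (q i).2)
    (by rw [e, inv_mul_cancel₀ c0, map_one]) fun j hj => ?_)
  by_cases r : j = k <;> simp_all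

end Pool.Agent.MP_8d06cc_nt.R4
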