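import Pool.Agent.MP_8d06cc_nt.R4.F5q
import Pool.Agent.MP_8d06cc_nt.R4.FO

/-! The integral lift of a cubic. -/

namespace Pool.Agent.MP_8d06cc_nt.R4.F5r

open Polynomial Pool.Agent.MP_8d06cc_nt.DA FX

variable {L : Type} [Field L] {V : VF L} {c : Dat L}

lemma lift_q (h : Int V c) (k : Fin 4) : ∃ q : V.O[X], q.map V.O.subtype = (c.P k).Q ∧
    C (2 * c.N : ℂ) * q.map V.π = qr h k := by
  have n0 : (2 * c.N : ℂ) ≠ 0 := mul_ne_zero two_ne_zero (Nat.cast_ne_zero.2 (c.ok k).pos.ne')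
  have e1 : (q0 h k).map V.O.subtype = C (2 * c.N : L) * (c.P k).Q := congrFun (up_q h) k
  have e2 : (C (2 * c.N : V.O)).map V.O.subtype = C (2 * c.N : L) := by
    rw [map_C, map_mul, map_natCast, map_ofNat]
  have e3 : (C (2 * c.N : V.O)).map V.π = C (2 * c.N : ℂ) := by
    rw [map_C, map_mul, map_natCast, map_ofNat]
  obtain ⟨q, hq⟩ := K6.gauss (V := V) (B := C (2 * c.N : V.O)) (R := q0 h k) (Q := (c.P k).Q)
    (by rw [e3]; exact C_ne_zero.2 n0) (by rw [e2, e1])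
  refine ⟨q, hq, ?_⟩
  have e4 : C (2 * c.N : V.O) * q = q0 h k := K6.pinj (by rw [Polynomial.map_mul, e2, hq, e1])
  rw [qr, ← e4, Polynomial.map_mul, e3]

end Pool.Agent.MP_8d06cc_nt.R4.F5r
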