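import Pool.Agent.MP_8d06cc_nt.R4.FK
import Pool.Agent.MP_8d06cc_nt.DA.Pell

/-! Products of Pell functions. -/

namespace Pool.Agent.MP_8d06cc_nt.R4.FX

open Polynomial Finset Pool.Agent.MP_8d06cc_nt.DA

noncomputable section

section ring

variable {R R' : Type} [CommRing R] [CommRing R']

def SS (a : Fin 4 → R) : R[X] := ∏ k, (X - C (a k))

def DD (a : Fin 4 → R) (m : Fin 4 → ℕ) : R[X] := ∏ k, (X - C (a k)) ^ m k

def TT (a : Fin 4 → R) (Q : Fin 4 → R[X]) (n : Fin 4 → ℤ) : R[X] :=
  ∑ k, (n k : R[X]) * Q k * ∏ l ∈ univ.erase k, (X - C (a l))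

theorem map_SS (h : R →+* R') (a : Fin 4 → R) : (SS a).map h = SS fun k => h (a k) := by
  simp [SS, Polynomial.map_prod]

theorem map_DD (h : R →+* R') (a : Fin 4 → R) (m : Fin 4 → ℕ) :
    (DD a m).map h = DD (fun k => h (a k)) m := by
  simp [DD, Polynomial.map_prod]

theorem map_TT (h : R →+* R') (a : Fin 4 → R) (Q : Fin 4 → R[X]) (n : Fin 4 → ℤ) :
    (TT a Q n).map h = TT (fun k => h (a k)) (fun k => (Q k).map h) n := by
  simp [TT, Polynomial.map_prod, Polynomial.map_sum]

theorem map_WW (h : R →+* R') (f A B : R[X]) :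
    (WW derivative f A B).map h = WW derivative (f.map h) (A.map h) (B.map h) := by
  simp [WW, derivative_map]

theorem SS_monic (a : Fin 4 → R) : (SS a).Monic :=
  monic_prod_of_monic _ _ fun _ _ => monic_X_sub_C _

theorem DD_monic (a : Fin 4 → R) (m : Fin 4 → ℕ) : (DD a m).Monic :=
  monic_prod_of_monic _ _ fun _ _ => (monic_X_sub_C _).pow _

theorem DD_add (a : Fin 4 → R) (m m' : Fin 4 → ℕ) : DD a (m + m') = DD a m * DD a m' := by
  simp [DD, pow_add, prod_mul_distrib]

theorem TT_add (a : Fin 4 → R) (Q : Fin 4 → R[X]) (n n' : Fin 4 → ℤ) :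
    TT a Q (n + n') = TT a Q n + TT a Q n' := by
  simp [TT, add_mul, sum_add_distrib]

theorem TT_neg (a : Fin 4 → R) (Q : Fin 4 → R[X]) (n : Fin 4 → ℤ) :
    TT a Q (-n) = -TT a Q n := by
  simp [TT]

theorem DD_single (a : Fin 4 → R) (k : Fin 4) (m : ℕ) :
    DD a (Pi.single k m) = (X - C (a k)) ^ m := by
  rw [DD, Fintype.prod_eq_single k fun l hl => by simp [hl], Pi.single_eq_same]

theorem TT_single (a : Fin 4 → R) (Q : Fin 4 → R[X]) (k : Fin 4) (n : ℤ) :
    TT a Q (Pi.single k n) = (n : R[X]) * Q k * ∏ l ∈ univ.erase k, (X - C (a l)) := by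
  rw [TT, Fintype.sum_eq_single k fun l hl => by simp [hl], Pi.single_eq_same]

theorem SS_eq (a : Fin 4 → R) (k : Fin 4) :
    SS a = (X - C (a k)) * ∏ l ∈ univ.erase k, (X - C (a l)) :=
  (mul_prod_erase _ (fun l => X - C (a l)) (mem_univ k)).symm

/-- The function `A + B y` has norm `c DD` and logarithmic derivative `TT / SS`. -/
structure Ok (f : R[X]) (a : Fin 4 → R) (Q : Fin 4 → R[X]) (n : Fin 4 → ℤ) (m : Fin 4 → ℕ)
    (M : ℕ) (c : R) (A B : R[X]) : Prop where
  dA : A.degree ≤ M
  dB : B.degree + 4 ≤ M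
  sum : ∑ k, m k = 2 * M
  eqn : A ^ 2 - f * B ^ 2 = C c * DD a m
  lin : WW derivative f A B * SS a = C c * DD a m * TT a Q n
  lin2 : B * DD a m * TT a Q n = SS a * (2 * derivative A * DD a m - A * derivative (DD a m))

variable {f : R[X]} {a : Fin 4 → R} {Q : Fin 4 → R[X]} {n n' : Fin 4 → ℤ} {m m' : Fin 4 → ℕ}
  {M M' : ℕ} {c c' : R} {A B A' B' : R[X]}

theorem Ok.map (H : Ok f a Q n m M c A B) (h : R →+* R') : Ok (f.map h) (fun k => h (a k))
    (fun k => (Q k).map h) n m M (h c) (A.map h) (B.map h) where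
  dA := degree_map_le.trans H.dA
  dB := le_trans (by gcongr; exact degree_map_le) H.dB
  sum := H.sum
  eqn := by simpa [map_DD] using congrArg (Polynomial.map h) H.eqn
  lin := by simpa [map_DD, map_SS, map_TT, map_WW] using congrArg (Polynomial.map h) H.lin
  lin2 := by
    simpa [map_DD, map_SS, map_TT, ← derivative_map] using congrArg (Polynomial.map h) H.lin2

theorem Ok.of_map {h : R →+* R'} (hi : Function.Injective h) (H : Ok (f.map h) (fun k => h (a k))
    (fun k => (Q k).map h) n m M (h c) (A.map h) (B.map h)) : Ok f a Q n m M c A B where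
  dA := degree_map_eq_of_injective hi A ▸ H.dA
  dB := degree_map_eq_of_injective hi B ▸ H.dB
  sum := H.sum
  eqn := map_injective h hi (by simpa [map_DD] using H.eqn)
  lin := map_injective h hi (by simpa [map_DD, map_SS, map_TT, map_WW] using H.lin)
  lin2 := map_injective h hi (by simpa [map_DD, map_SS, map_TT, ← derivative_map] using H.lin2)

theorem Ok.smul (H : Ok f a Q n m M c A B) (κ : R) :
    Ok f a Q n m M (κ ^ 2 * c) (C κ * A) (C κ * B) where
  dA := by rw [← smul_eq_C_mul]; exact (degree_smul_le _ _).trans H.dA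
  dB := by
    rw [← smul_eq_C_mul]
    exact le_trans (by gcongr; exact degree_smul_le _ _) H.dB
  sum := H.sum
  eqn := by rw [C_mul, C_pow]; linear_combination C κ ^ 2 * H.eqn
  lin := by
    have := H.lin
    simp only [WW, derivative_C_mul, C_mul, C_pow] at this ⊢
    linear_combination C κ ^ 2 * this
  lin2 := by rw [derivative_C_mul]; linear_combination C κ * H.lin2

theorem Ok.conj (H : Ok f a Q n m M c A B) : Ok f a Q (-n) m M c A (-B) where
  dA := H.dA
  dB := by rw [degree_neg]; exact H.dB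
  sum := H.sum
  eqn := by linear_combination H.eqn
  lin := by
    have := H.lin
    simp only [WW, derivative_neg, TT_neg] at this ⊢
    linear_combination -this
  lin2 := by rw [TT_neg]; linear_combination H.lin2

theorem lin2_of [IsDomain R] (hc : c ≠ 0) (e1 : A ^ 2 - f * B ^ 2 = C c * DD a m)
    (e2 : WW derivative f A B * SS a = C c * DD a m * TT a Q n) :
    B * DD a m * TT a Q n = SS a * (2 * derivative A * DD a m - A * derivative (DD a m)) := by
  refine mul_left_cancel₀ (C_ne_zero.2 hc) ?_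
  have e3 := congrArg derivative e1
  simp only [derivative_sub, derivative_mul, derivative_sq, derivative_C, zero_mul, zero_add,
    map_ofNat] at e3
  rw [WW] at e2
  linear_combination -B * e2 + SS a * 2 * derivative A * e1 - SS a * A * e3

theorem Ok.mul [IsDomain R] (H : Ok f a Q n m M c A B) (H' : Ok f a Q n' m' M' c' A' B')
    (hf : f.degree ≤ 8) (hc : c * c' ≠ 0) :
    Ok f a Q (n + n') (m + m') (M + M') (c * c') (A * A' + f * B * B') (A * B' + A' * B) := by
  have e1 : (A * A' + f * B * B') ^ 2 - f * (A * B' + A' * B) ^ 2 =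
      C (c * c') * DD a (m + m') := by
    rw [DD_add, C_mul, mul_mul_mul_comm, ← H.eqn, ← H'.eqn]
    ring
  have e2 : WW derivative f (A * A' + f * B * B') (A * B' + A' * B) * SS a =
      C (c * c') * DD a (m + m') * TT a Q (n + n') := by
    have h1 := H.lin
    have h2 := H'.lin
    rw [← H.eqn] at h1
    rw [← H'.eqn] at h2
    rw [DD_add, C_mul, mul_mul_mul_comm, ← H.eqn, ← H'.eqn, TT_add]
    simp only [WW, derivative_add, derivative_mul] at h1 h2 ⊢
    linear_combination (A' ^ 2 - f * B' ^ 2) * h1 + (A ^ 2 - f * B ^ 2) * h2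
  refine ⟨?_, ?_, by simp [sum_add_distrib, H.sum, H'.sum, mul_add], e1, e2, lin2_of hc e1 e2⟩
  · rw [Nat.cast_add]
    refine (degree_add_le _ _).trans (max_le ((degree_mul_le _ _).trans (add_le_add H.dA H'.dA))
      (le_trans ?_ (add_le_add H.dB H'.dB)))
    calc (f * B * B').degree ≤ 8 + B.degree + B'.degree := (degree_mul_le _ _).trans (by
          gcongr; exact (degree_mul_le _ _).trans (by gcongr))
      _ = _ := by rw [show (8 : WithBot ℕ) = 4 + 4 from rfl]; ac_rfl
  · rw [Nat.cast_add]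
    rcases le_max_iff.1 (degree_add_le (A * B') (A' * B)) with q | q
    · calc _ ≤ A.degree + B'.degree + 4 := by gcongr; exact q.trans (degree_mul_le _ _)
        _ ≤ _ := by rw [add_assoc]; exact add_le_add H.dA H'.dB
    · calc _ ≤ A'.degree + B.degree + 4 := by gcongr; exact q.trans (degree_mul_le _ _)
        _ ≤ _ := by rw [add_assoc, add_comm]; exact add_le_add H.dB H'.dA

theorem ok_one : Ok f a Q 0 0 0 1 1 0 where
  dA := degree_one_le
  dB := by simp
  sum := by simp
  eqn := by simp [DD]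
  lin := by simp [WW, TT]
  lin2 := by simp [DD]

end ring

variable {L : Type} [Field L] (c : Dat L)

/-- The marked abscissas. -/
def da (k : Fin 4) : L := (c.P k).a

/-- The cubics, multiplied by `2 N`. -/
def dq (k : Fin 4) : L[X] := C (2 * c.N : L) * (c.P k).Q

theorem okf (k : Fin 4) : (c.P k).OK c.f c.N := c.ok k

theorem deg_f : c.f.natDegree ≤ 8 :=
  (natDegree_C_mul_le _ _).trans ((natDegree_prod_le _ _).trans (by simp))

theorem ok_single (k : Fin 4) : Ok c.f (da c) (dq c) (Pi.single k 1) (Pi.single k (2 * c.N)) c.N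
    (c.P k).c (c.P k).A (c.P k).B := by
  have H := okf c k
  have e1 : (c.P k).A ^ 2 - c.f * (c.P k).B ^ 2 =
      C (c.P k).c * DD (da c) (Pi.single k (2 * c.N)) := by rw [DD_single]; exact H.eqn
  have e2 : WW derivative c.f (c.P k).A (c.P k).B * SS (da c) =
      C (c.P k).c * DD (da c) (Pi.single k (2 * c.N)) * TT (da c) (dq c) (Pi.single k 1) := by
    rw [DD_single, TT_single, H.hQ, SS_eq _ k, dq, C_mul, Int.cast_one]
    conv_rhs => rw [← Nat.sub_add_cancel (show 1 ≤ 2 * c.N by have := H.pos; omega), pow_succ]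
    simp only [da]
    ring
  refine ⟨degree_le_of_natDegree_le H.dA, (add_le_add degree_le_natDegree le_rfl).trans ?_,
    by simp, e1, e2, lin2_of H.hc e1 e2⟩
  exact_mod_cast H.dB

/-- The values of the function at the points of the curve. -/
def Val (n : Fin 4 → ℤ) (m : Fin 4 → ℕ) (A B : L[X]) : Prop :=
  ∀ x y, y ^ 2 = c.f.eval x → (∀ k, m k ≠ 0 → x ≠ da c k) →
    (A.eval x + B.eval x * y) / (A.eval x - B.eval x * y) = ∏ k, psi (c.P k) x y ^ n k

def Ex (n : Fin 4 → ℤ) (m : Fin 4 → ℕ) : Prop := (∀ k, m k = 0 → n k = 0) ∧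
  ∃ M κ A B, κ ≠ 0 ∧ Ok c.f (da c) (dq c) n m M κ A B ∧ Val c n m A B

variable {c} {n n' : Fin 4 → ℤ} {m m' : Fin 4 → ℕ}

theorem psi_ne {k : Fin 4} {x y : L} (h : y ^ 2 = c.f.eval x) (hx : x ≠ da c k) :
    psi (c.P k) x y ≠ 0 := by
  have e := congrArg (eval x) (okf c k).eqn
  simp only [eval_sub, eval_mul, eval_pow, eval_C, eval_X, ← h] at e
  have : ((c.P k).A.eval x + (c.P k).B.eval x * y) * ((c.P k).A.eval x - (c.P k).B.eval x * y) ≠ 0 :=
    fun q => mul_ne_zero (okf c k).hc (pow_ne_zero (2 * c.N) (sub_ne_zero.2 hx))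
      (by rw [da, ← e]; linear_combination q)
  exact div_ne_zero (left_ne_zero_of_mul this) (right_ne_zero_of_mul this)

theorem Ex.add (h : Ex c n m) (h' : Ex c n' m') : Ex c (n + n') (m + m') := by
  obtain ⟨z, M, κ, A, B, k0, a, b⟩ := h
  obtain ⟨z', M', κ', A', B', k0', a', b'⟩ := h'
  refine ⟨fun k hk => by
    rw [Pi.add_apply, Nat.add_eq_zero_iff] at hk
    rw [Pi.add_apply, z k hk.1, z' k hk.2, add_zero], _, _, _, _, mul_ne_zero k0 k0',
    a.mul a' (degree_le_of_natDegree_le (deg_f c)) (mul_ne_zero k0 k0'), fun x y hy hx => ?_⟩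
  have e : ∀ k, psi (c.P k) x y ^ (n + n') k = psi (c.P k) x y ^ n k * psi (c.P k) x y ^ n' k :=
    fun k => by
      by_cases q : (m + m') k = 0
      · rw [Pi.add_apply, Nat.add_eq_zero_iff] at q
        simp [z k q.1, z' k q.2]
      · exact zpow_add₀ (psi_ne hy (hx k q)) _ _
  simp only [e, prod_mul_distrib]
  rw [← b x y hy fun k q => hx k fun r => q (Nat.add_eq_zero_iff.1 r).1,
    ← b' x y hy fun k q => hx k fun r => q (Nat.add_eq_zero_iff.1 r).2, div_mul_div_comm]
  simp only [eval_add, eval_mul, ← hy]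
  congr 1 <;> ring

theorem Ex.neg (h : Ex c n m) : Ex c (-n) m := by
  obtain ⟨z, M, κ, A, B, k0, a, b⟩ := h
  refine ⟨fun k hk => by simp [z k hk], _, _, _, _, k0, a.conj, fun x y hy hx => ?_⟩
  simp only [Pi.neg_apply, zpow_neg, prod_inv_distrib]
  rw [← b x y hy hx, inv_div, eval_neg]
  congr 1 <;> ring

theorem val_single (k : Fin 4) (m : Fin 4 → ℕ) : Val c (Pi.single k 1) m (c.P k).A (c.P k).B :=
  fun x y _ _ => by
    rw [Fintype.prod_eq_single k fun l hl => by simp [hl], Pi.single_eq_same, zpow_one, psi]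

theorem ex_zero : Ex c 0 0 :=
  ⟨fun _ _ => rfl, _, _, _, _, one_ne_zero, ok_one, fun x y _ _ => by simp⟩

theorem ex_nat (k : Fin 4) (j : ℕ) : Ex c (Pi.single k j) (Pi.single k (2 * c.N * j)) := by
  induction j with
  | zero => simpa using ex_zero
  | succ j ih =>
    rw [Nat.cast_succ, mul_add, mul_one, Pi.single_add, Pi.single_add]
    refine ih.add ⟨fun l hl => ?_, _, _, _, _, (okf c k).hc, ok_single c k, val_single k _⟩
    by_cases e : l = k
    · have := (okf c k).pos
      rw [e, Pi.single_eq_same] at hl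
      omega
    · simp [e]

theorem ex_all (n : Fin 4 → ℤ) : Ex c n fun k => 2 * c.N * (n k).natAbs := by
  have h : ∀ k, Ex c (Pi.single k (n k)) (Pi.single k (2 * c.N * (n k).natAbs)) := fun k => by
    rcases Int.natAbs_eq (n k) with e | e
    · conv => enter [2, 2]; rw [e]
      exact ex_nat k _
    · conv => enter [2, 2]; rw [e]
      rw [Pi.single_neg]
      exact (ex_nat k _).neg
  have := (((h 0).add (h 1)).add (h 2)).add (h 3)
  rwa [← Fin.sum_univ_four fun k => Pi.single k (n k), ← Fin.sum_univ_four fun k =>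
    Pi.single (M := fun _ => ℕ) k (2 * c.N * (n k).natAbs), univ_sum_single,
    univ_sum_single] at this

end

end Pool.Agent.MP_8d06cc_nt.R4.FX
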