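import Pool.Agent.MP_8d06cc_nt.R4.Defs

/-! Residues of rational functions with simple poles. -/

namespace Pool.Agent.MP_8d06cc_nt.R4.FX

open Polynomial Pool.Agent.MP_8d06cc_nt.DA

noncomputable section

variable {k : Type} [Field k] {z n n' : k} {r r' : RatFunc k} {p q : k[X]}

/-- A polynomial as a rational function. -/
abbrev io : k[X] →+* RatFunc k := algebraMap k[X] (RatFunc k)

theorem io_inj : Function.Injective (io (k := k)) := IsFractionRing.injective _ _

theorem io_ne (h : p ≠ 0) : io p ≠ 0 := (map_ne_zero_iff _ io_inj).2 h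

/-- At most a simple pole at `z`, with residue `n`. -/
def Rs (z : k) (r : RatFunc k) (n : k) : Prop :=
  ∃ U W : k[X], W.eval z ≠ 0 ∧ U.eval z = n * W.eval z ∧ r * io ((X - C z) * W) = io U

theorem Rs.add (h : Rs z r n) (h' : Rs z r' n') : Rs z (r + r') (n + n') := by
  obtain ⟨U, W, a, b, c⟩ := h
  obtain ⟨U', W', a', b', c'⟩ := h'
  refine ⟨U * W' + U' * W, W * W', by simp [a, a'], by simp [b, b']; ring, ?_⟩
  simp only [map_mul, map_add] at c c' ⊢
  rw [← c, ← c']
  ring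

theorem Rs.mul (h : Rs z r n) (p : k[X]) : Rs z (io p * r) (p.eval z * n) := by
  obtain ⟨U, W, a, b, c⟩ := h
  refine ⟨p * U, W, a, by simp [b]; ring, ?_⟩
  rw [mul_assoc, c, map_mul]

theorem Rs.int (h : Rs z r n) (a : ℤ) : Rs z (a * r) (a * n) := by
  simpa using h.mul (a : k[X])

theorem Rs.sub (h : Rs z r n) (h' : Rs z r' n') : Rs z (r - r') (n - n') := by
  simpa [sub_eq_add_neg] using h.add (h'.int (-1))

theorem Rs.uniq (h : Rs z r n) (h' : Rs z r n') : n = n' := by
  obtain ⟨U, W, a, b, c⟩ := h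
  obtain ⟨U', W', a', b', c'⟩ := h'
  have e : U * W' = U' * W := io_inj (by
    simp only [map_mul] at c c' ⊢
    rw [← c, ← c']
    ring)
  have e' := congrArg (eval z) e
  rw [eval_mul, eval_mul, b, b'] at e'
  exact mul_right_cancel₀ a (mul_right_cancel₀ a' (by linear_combination e'))

theorem ex_mul (h : p ≠ 0) (z : k) :
    ∃ q : k[X], q.eval z ≠ 0 ∧ p = (X - C z) ^ p.rootMultiplicity z * q := by
  obtain ⟨q, a, b⟩ := exists_eq_pow_rootMultiplicity_mul_and_not_dvd p h z
  exact ⟨q, fun e => b (dvd_iff_isRoot.2 e), a⟩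

theorem ne_of_ev (h : p.eval z ≠ 0) : p ≠ 0 := fun e => h (by simp [e])

theorem rm_zero (h : p.eval z ≠ 0) : p.rootMultiplicity z = 0 := rootMultiplicity_eq_zero h

theorem rm_mul (h : p ≠ 0) (h' : q ≠ 0) :
    (p * q).rootMultiplicity z = p.rootMultiplicity z + q.rootMultiplicity z :=
  rootMultiplicity_mul (mul_ne_zero h h')

theorem rm_pow (h : p ≠ 0) (m : ℕ) : (p ^ m).rootMultiplicity z = m * p.rootMultiplicity z := by
  induction m with
  | zero => simp
  | succ m ih => rw [pow_succ, rm_mul (pow_ne_zero _ h) h, ih]; ring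

theorem rm_le (h : p ≠ 0) : p.rootMultiplicity z ≤ p.natDegree := by
  simpa using natDegree_le_of_dvd (pow_rootMultiplicity_dvd p z) h

theorem rm_lt {w : k} (h : p ≠ 0) (hw : p.eval w = 0) (e : w ≠ z) :
    p.rootMultiplicity z < p.natDegree := by
  obtain ⟨q, a, b⟩ := ex_mul h z
  have q0 := ne_of_ev a
  have c : q.eval w = 0 := by
    rw [b] at hw
    simpa [sub_ne_zero.2 e] using hw
  have d := natDegree_pos_iff_degree_pos.2 (degree_pos_of_root q0 c)
  have := congrArg natDegree b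
  rw [natDegree_mul (pow_ne_zero _ (X_sub_C_ne_zero z)) q0, natDegree_pow, natDegree_X_sub_C]
    at this
  omega

theorem der_pow (z : k) (m : ℕ) :
    derivative ((X - C z) ^ m) * (X - C z) = (m : k[X]) * (X - C z) ^ m := by
  cases m with
  | zero => simp
  | succ m =>
    rw [derivative_X_sub_C_pow, Nat.add_sub_cancel, C_eq_natCast, mul_assoc, ← pow_succ]

/-- The logarithmic derivative. -/
def ld (p : k[X]) : RatFunc k := io (derivative p) / io p

theorem rs_ld (h : p ≠ 0) (z : k) : Rs z (ld p) (p.rootMultiplicity z) := by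
  obtain ⟨q, a, b⟩ := ex_mul h z
  generalize p.rootMultiplicity z = m at b
  refine ⟨(m : k[X]) * q + (X - C z) * derivative q, q, a, by simp, ?_⟩
  rw [ld, div_mul_eq_mul_div, div_eq_iff (io_ne h), ← map_mul, ← map_mul, b, derivative_mul]
  congr 1
  linear_combination q * q * der_pow z m

theorem rs_div (hq : q ≠ 0) (h : (X - C z) ^ q.rootMultiplicity z ∣ p) :
    Rs z (io p / io q) 0 := by
  obtain ⟨q', a, b⟩ := ex_mul hq z
  obtain ⟨p', e⟩ := h
  refine ⟨(X - C z) * p', q', a, by simp, ?_⟩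
  rw [div_mul_eq_mul_div, div_eq_iff (io_ne hq), ← map_mul, ← map_mul]
  generalize q.rootMultiplicity z = m at b e
  rw [b, e]
  congr 1
  ring

theorem rs_reg (hq : q.eval z ≠ 0) : Rs z (io p / io q) 0 :=
  rs_div (ne_of_ev hq) (by rw [rm_zero hq]; simp)

theorem rs_pole (hq : q.eval z ≠ 0) : Rs z (io p / io (X - C z) / io q) (p.eval z / q.eval z) := by
  refine ⟨p, q, hq, by field_simp, ?_⟩
  have := io_ne (ne_of_ev hq)
  have := io_ne (X_sub_C_ne_zero z)
  rw [map_mul]
  field_simp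

theorem Rs.ord (hq : q ≠ 0) (h : Rs z (io p / io q) n) (hn : n ≠ 0) :
    p ≠ 0 ∧ p.rootMultiplicity z + 1 = q.rootMultiplicity z := by
  obtain ⟨U, W, a, b, c⟩ := h
  have u : U.eval z ≠ 0 := b ▸ mul_ne_zero hn a
  rw [div_mul_eq_mul_div, div_eq_iff (io_ne hq), ← map_mul, ← map_mul] at c
  replace c := io_inj c
  have p0 : p ≠ 0 := fun e => mul_ne_zero (ne_of_ev u) hq (by rw [← c, e, zero_mul])
  have e := congrArg (rootMultiplicity z) c
  rw [rm_mul p0 (mul_ne_zero (X_sub_C_ne_zero z) (ne_of_ev a)), rm_mul (ne_of_ev u) hq,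
    rm_mul (X_sub_C_ne_zero z) (ne_of_ev a), rm_zero a, rm_zero u, rootMultiplicity_X_sub_C_self]
    at e
  exact ⟨p0, by omega⟩

/-- The order of the numerator of the logarithmic derivative. -/
theorem ord_W [CharZero k] {f A B : k[X]} (hf : f ≠ 0) (hA : A ≠ 0) (hB : B ≠ 0) (z : k)
    (h : 2 * B.rootMultiplicity z + f.rootMultiplicity z ≠ 2 * A.rootMultiplicity z) :
    WW derivative f A B ≠ 0 ∧ (WW derivative f A B).rootMultiplicity z + 1 =
      f.rootMultiplicity z + A.rootMultiplicity z + B.rootMultiplicity z := by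
  have a := (((rs_ld hB z).int 2).add (rs_ld hf z)).sub ((rs_ld hA z).int 2)
  have e : ((2 : ℤ) : RatFunc k) * ld B + ld f - ((2 : ℤ) : RatFunc k) * ld A =
      io (WW derivative f A B) / io (f * A * B) := by
    have := io_ne hf
    have := io_ne hA
    have := io_ne hB
    simp only [ld, WW, map_mul, map_add, map_sub, map_ofNat, Int.cast_ofNat]
    field_simp
    ring
  rw [e] at a
  rw [← rm_mul hf hA, ← rm_mul (mul_ne_zero hf hA) hB]
  refine a.ord (mul_ne_zero (mul_ne_zero hf hA) hB) (sub_ne_zero.2 fun q => h ?_)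
  exact_mod_cast q

/-- Divisors of a product of two powers of linear forms. -/
theorem fac {c a b : k} {m m' : ℕ} (hc : c ≠ 0)
    (h : p ∣ C c * ((X - C a) ^ m * (X - C b) ^ m')) :
    ∃ (κ : k) (i j : ℕ), κ ≠ 0 ∧ p = C κ * ((X - C a) ^ i * (X - C b) ^ j) := by
  rw [(isUnit_C.2 hc.isUnit).dvd_mul_left] at h
  obtain ⟨p1, p2, h1, h2, rfl⟩ := exists_dvd_and_dvd_of_dvd_mul h
  obtain ⟨i, -, u, hu⟩ := (dvd_prime_pow (prime_X_sub_C a) m).1 h1
  obtain ⟨j, -, w, hw⟩ := (dvd_prime_pow (prime_X_sub_C b) m').1 h2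
  obtain ⟨κ, k1, k2⟩ := Polynomial.isUnit_iff.1 (u * w)⁻¹.isUnit
  refine ⟨κ, i, j, k1.ne_zero, ?_⟩
  rw [k2, ← hu, ← hw, mul_mul_mul_comm, ← Units.val_mul, mul_comm _ (_ * _), mul_assoc,
    Units.mul_inv, mul_one]

theorem der_fac (κ a b : k) (i j : ℕ) :
    derivative (C κ * ((X - C a) ^ i * (X - C b) ^ j)) * ((X - C a) * (X - C b)) =
      C κ * ((X - C a) ^ i * (X - C b) ^ j) *
        ((i : k[X]) * (X - C b) + (j : k[X]) * (X - C a)) := by
  rw [derivative_C_mul, derivative_mul]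
  linear_combination C κ * (X - C b) ^ j * (X - C b) * der_pow a i +
    C κ * (X - C a) ^ i * (X - C a) * der_pow b j

theorem rm_prod (x : Fin 8 → ℂ) (z : ℂ) :
    (∏ i, (X - C (x i))).rootMultiplicity z = sz x z := by
  classical
  rw [← count_roots, roots_prod _ _ (Finset.prod_ne_zero_iff.2 fun i _ => X_sub_C_ne_zero _)]
  simp only [roots_X_sub_C, Multiset.bind_singleton, Multiset.count_map, sz]
  simp only [eq_comm (a := z)]
  congr

theorem ex_sqrt {x : Fin 8 → ℂ} (h : ∀ z, Even (sz x z)) :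
    ∃ N : ℂ[X], N ^ 2 = ∏ i, (X - C (x i)) := by
  classical
  refine ⟨∏ z ∈ Finset.univ.image x, (X - C z) ^ (sz x z / 2), ?_⟩
  rw [Finset.prod_comp (fun z => (X - C z : ℂ[X])) x, ← Finset.prod_pow]
  refine Finset.prod_congr rfl fun z _ => ?_
  rw [← pow_mul, Nat.div_mul_cancel (h z).two_dvd]
  congr

end

end Pool.Agent.MP_8d06cc_nt.R4.FX
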